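import Pool.Agent.Q41.RA.MainA

set_option autoImplicit false

/-!
# The generating function of the regular partitions modulo 2
-/

namespace Pool.Agent.Q41.RA

open PowerSeries PowerSeries.WithPiTopology
open Pool.Agent.TH693.PP Pool.Agent.TH693.QQ Pool.Agent.H397R2.PP Pool.Agent.Y627.PT

/-- the generating function of the partitions without parts divisible by `m` -/
theorem restricted_gen (m : ℕ) (hm : 0 < m) :
    (PowerSeries.mk fun n => ((Nat.Partition.restricted n (fun i => ¬ m ∣ i)).card : ZMod 2)) * E =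
      ex m hm.ne' E := by
  let _ : TopologicalSpace (ZMod 2) := ⊥
  have _ : DiscreteTopology (ZMod 2) := ⟨rfl⟩
  have h1 : (PowerSeries.mk fun n =>
      ((Nat.Partition.restricted n (fun i => ¬ m ∣ i)).card : ZMod 2)) =
      PowerSeries.mk fun n => ((Nat.Partition.countRestricted n m).card : ZMod 2) := by
    ext n
    rw [coeff_mk, coeff_mk, Nat.Partition.card_restricted_eq_card_countRestricted n hm]
  have h2 := Nat.Partition.hasProd_powerSeriesMk_card_countRestricted (ZMod 2) hm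
  have h3 : HasProd (fun i : ℕ => (1 : (ZMod 2)⟦X⟧) - X ^ (i + 1)) E := hasProd_one_sub_X_pow (ZMod 2)
  have h4 := h2.mul h3
  have h5 : ∀ i : ℕ, (∑ j ∈ Finset.range m, (X : (ZMod 2)⟦X⟧) ^ ((i + 1) * j)) * (1 - X ^ (i + 1)) =
      ex m hm.ne' (1 - X ^ (i + 1)) := by
    intro i
    unfold ex
    rw [map_sub, map_one, map_pow, PowerSeries.expand_X]
    have h6 : ∀ j ∈ Finset.range m, (X : (ZMod 2)⟦X⟧) ^ ((i + 1) * j) = (X ^ (i + 1)) ^ j :=
      fun j _ => pow_mul _ _ _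
    rw [Finset.sum_congr rfl h6, ← pow_mul, mul_comm m, pow_mul]
    have h7 := geom_sum_mul ((X : (ZMod 2)⟦X⟧) ^ (i + 1)) m
    linear_combination -h7
  have hcont : Continuous (ex m hm.ne') := by
    rw [continuous_iff_continuousAt]
    intro f
    unfold ContinuousAt
    rw [tendsto_iff_coeff_tendsto]
    intro d
    by_cases hd : m ∣ d
    · have h8 : ∀ g : (ZMod 2)⟦X⟧, coeff d (ex m hm.ne' g) = coeff (d / m) g := by
        intro g
        unfold ex
        rw [coeff_expand, if_pos hd]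
      simp only [h8]
      exact (continuous_coeff (ZMod 2) (d / m)).tendsto f
    · have h8 : ∀ g : (ZMod 2)⟦X⟧, coeff d (ex m hm.ne' g) = 0 := by
        intro g
        unfold ex
        rw [coeff_expand, if_neg hd]
      simp only [h8]
      exact tendsto_const_nhds
  have h9 := h3.map (ex m hm.ne') hcont
  rw [h1]
  have h10 : (fun i : ℕ => (∑ j ∈ Finset.range m, (X : (ZMod 2)⟦X⟧) ^ ((i + 1) * j)) *
      (1 - X ^ (i + 1))) = (fun i : ℕ => ex m hm.ne' (1 - X ^ (i + 1))) := funext h5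
  rw [h10] at h4
  exact h4.unique h9

theorem ex_two_pow (j : ℕ) (h : 2 ^ j ≠ 0) (f : S) : ex (2 ^ j) h f = f ^ 2 ^ j :=
  (Pool.Agent.H397R2.PP.pow_eq_expand' (2 ^ j) j h rfl f).symm

theorem ex_two_pow_mul (j μ : ℕ) (hμ : μ ≠ 0) (h : 2 ^ j * μ ≠ 0) (f : S) :
    ex (2 ^ j * μ) h f = ex μ hμ f ^ 2 ^ j := by
  rw [← ex_ex (2 ^ j) μ (2 ^ j * μ) (pow_ne_zero _ two_ne_zero) hμ h rfl, ex_two_pow]

/-- no progression on which the coefficients of `F` vanish modulo 2 -/
theorem no_progression {μ α β : ℕ} (hμ : Odd μ) (hμ0 : μ ≠ 0) (hlt : α < β * μ)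
    (hpar : Odd (α + β)) (F : S) (hF : F * E ^ β = ex μ hμ0 E ^ α) (A B : ℕ) (hA : 0 < A) :
    ∃ n : ℕ, coeff (A * n + B) F ≠ 0 := by
  by_contra hcon
  push Not at hcon
  have hA' : A * (B + 1) ≠ 0 := (Nat.mul_pos hA (Nat.succ_pos B)).ne'
  obtain ⟨s, m, hm, hAm⟩ := Nat.exists_eq_two_pow_mul_odd hA'
  refine typeA hμ hμ0 hlt hpar F hF m s B hm fun j h1 h2 => ?_
  have hcop : IsCoprime (m : ℤ) ((2 : ℤ) ^ s) := by
    refine IsCoprime.pow_right ?_
    obtain ⟨c, hc⟩ := hm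
    exact ⟨1, -c, by rw [hc]; push_cast; ring⟩
  have h3 : ((A * (B + 1) : ℕ) : ℤ) ∣ (j : ℤ) - B := by
    rw [hAm]
    push_cast
    rw [mul_comm]
    exact hcop.mul_dvd h1 h2
  obtain ⟨c, hc⟩ := h3
  have hAB : (B : ℤ) < ((A * (B + 1) : ℕ) : ℤ) := by
    have : B < A * (B + 1) := by nlinarith
    exact_mod_cast this
  have hc0 : 0 ≤ c := by
    by_contra hc1
    have hc2 : c ≤ -1 := by omega
    have hj : (0 : ℤ) ≤ j := Int.natCast_nonneg j
    nlinarith
  obtain ⟨d, rfl⟩ := Int.eq_ofNat_of_zero_le hc0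
  have h4 : j = A * ((B + 1) * d) + B := by
    have : (j : ℤ) = ((A * ((B + 1) * d) + B : ℕ) : ℤ) := by
      push_cast at hc ⊢
      linear_combination hc
    exact_mod_cast this
  rw [h4]
  exact hcon _

/-- the number of partitions of `n` without parts divisible by `m` -/
theorem regular_odd (j μ : ℕ) (hj : 1 ≤ j) (hμ : Odd μ) (hlt : 2 ^ j < μ) (A B : ℕ) (hA : 0 < A) :
    ∃ n : ℕ, Odd (Nat.Partition.restricted (A * n + B) (fun i => ¬ 2 ^ j * μ ∣ i)).card := by
  have hμ0 := hμ.pos.ne'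
  have hm : 0 < 2 ^ j * μ := by positivity
  have hgen := restricted_gen (2 ^ j * μ) hm
  rw [ex_two_pow_mul j μ hμ0] at hgen
  obtain ⟨n, hn⟩ := no_progression (β := 1) hμ hμ0 (by rwa [one_mul]) (by
    obtain ⟨i, rfl⟩ : ∃ i, j = i + 1 := ⟨j - 1, by omega⟩
    exact ⟨2 ^ i, by rw [pow_succ]; ring⟩) _ (by rw [pow_one]; exact hgen) A B hA
  refine ⟨n, ?_⟩
  rw [coeff_mk] at hn
  rw [← Nat.not_even_iff_odd]
  intro h
  exact hn ((ZMod.natCast_eq_zero_iff_even).2 h)

end Pool.Agent.Q41.RA
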