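import Pool.Agent.Q41.RA.MainB
import Pool.Agent.Q41.RA.Bm

set_option autoImplicit false

/-!
# Partitions without parts congruent to 3 modulo 6
-/

namespace Pool.Agent.Q41.RA

open PowerSeries PowerSeries.WithPiTopology
open Pool.Agent.TH693.PP Pool.Agent.TH693.QQ Pool.Agent.H397R2.PP Pool.Agent.Y627.PT

section
open scoped PowerSeries.WithPiTopology

theorem cont_ex [TopologicalSpace (ZMod 2)] (m : ℕ) (hm : m ≠ 0) : Continuous (ex m hm) := by
  rw [continuous_iff_continuousAt]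
  intro f
  unfold ContinuousAt
  rw [tendsto_iff_coeff_tendsto]
  intro d
  by_cases hd : m ∣ d
  · have h8 : ∀ g : (ZMod 2)⟦X⟧, coeff d (ex m hm g) = coeff (d / m) g := by
      intro g
      unfold ex
      rw [coeff_expand, if_pos hd]
    simp only [h8]
    exact (continuous_coeff (ZMod 2) (d / m)).tendsto f
  · have h8 : ∀ g : (ZMod 2)⟦X⟧, coeff d (ex m hm g) = 0 := by
      intro g
      unfold ex
      rw [coeff_expand, if_neg hd]
    simp only [h8]
    exact tendsto_const_nhds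

/-- the generating function of the partitions without parts congruent to 3 modulo 6 -/
theorem gen36 :
    (PowerSeries.mk fun n => ((Nat.Partition.restricted n (fun i => i % 6 ≠ 3)).card : ZMod 2)) *
      E * ex 3 (by norm_num) E = 1 := by
  let _ : TopologicalSpace (ZMod 2) := ⊥
  have _ : DiscreteTopology (ZMod 2) := ⟨rfl⟩
  have h3 : HasProd (fun i : ℕ => (1 : (ZMod 2)⟦X⟧) - X ^ (i + 1)) E := hasProd_one_sub_X_pow (ZMod 2)
  have hX : ∀ (m : ℕ) (hm : m ≠ 0) (k : ℕ), ex m hm ((1 : (ZMod 2)⟦X⟧) - X ^ k) =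
      1 - X ^ (m * k) := by
    intro m hm k
    unfold ex
    rw [map_sub, map_one, map_pow, PowerSeries.expand_X, ← pow_mul]
  -- the odd part
  have hmul : Multipliable (fun k : ℕ => (1 : (ZMod 2)⟦X⟧) - X ^ (2 * k + 1)) := by
    have h4 : Filter.Tendsto (fun k : ℕ => (-(X : (ZMod 2)⟦X⟧) ^ (2 * k + 1)).order) Filter.atTop
        (nhds ⊤) := by
      simp_rw [PowerSeries.order_neg, PowerSeries.order_X_pow]
      refine ENat.tendsto_natCast_nhds_top.comp ?_
      exact Filter.tendsto_atTop_mono (fun k : ℕ => (by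
        change k ≤ 2 * k + 1
        omega)) Filter.tendsto_id
    have h5 := multipliable_one_add_of_tendsto_order_atTop_nhds_top (ZMod 2) h4
    simpa [sub_eq_add_neg] using h5
  obtain ⟨O, hO⟩ := hmul
  have hE2 : HasProd (fun k : ℕ => (1 : (ZMod 2)⟦X⟧) - X ^ (2 * k + 1 + 1)) (ex 2 (by norm_num) E) := by
    have h4 := h3.map (ex 2 (by norm_num)) (cont_ex 2 (by norm_num))
    have h5 : (⇑(ex 2 (by norm_num)) ∘ fun i : ℕ => (1 : (ZMod 2)⟦X⟧) - X ^ (i + 1)) =
        fun k : ℕ => (1 : (ZMod 2)⟦X⟧) - X ^ (2 * k + 1 + 1) := by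
      funext k
      rw [Function.comp_apply, hX]
      rfl
    rw [h5] at h4
    exact h4
  have hOE : O * E = 1 := by
    have h4 : HasProd (fun i : ℕ => (1 : (ZMod 2)⟦X⟧) - X ^ (i + 1)) (O * ex 2 (by norm_num) E) :=
      hO.even_mul_odd hE2
    have h5 := h4.unique h3
    have h6 : ex 2 (by norm_num) E = E ^ 2 := ex_two_pow 1 (by norm_num) E
    rw [h6] at h5
    have hE0 : E ≠ 0 := by
      intro h0
      have := coeff_zero_E
      rw [h0, map_zero] at this
      exact zero_ne_one this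
    have h7 : E * (O * E) = E * 1 := by
      rw [mul_one]
      calc E * (O * E) = O * E ^ 2 := by ring
        _ = E := h5
    exact mul_left_cancel₀ hE0 h7
  -- the partitions
  set G : (ZMod 2)⟦X⟧ := PowerSeries.mk fun n =>
    ((Nat.Partition.restricted n (fun i => i % 6 ≠ 3)).card : ZMod 2) with hG
  have hGp := (Nat.Partition.hasProd_powerSeriesMk_card_restricted (ZMod 2)
    (fun i => i % 6 ≠ 3)).mul h3
  have hterm : (fun i : ℕ => (if (i + 1) % 6 ≠ 3 then ∑' j : ℕ, (X : (ZMod 2)⟦X⟧) ^ ((i + 1) * j)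
      else 1) * (1 - X ^ (i + 1))) =
      fun i : ℕ => if (i + 1) % 6 ≠ 3 then 1 else 1 - (X : (ZMod 2)⟦X⟧) ^ (i + 1) := by
    funext i
    split_ifs with h4
    · have h5 : ∀ j : ℕ, (X : (ZMod 2)⟦X⟧) ^ ((i + 1) * j) = (X ^ (i + 1)) ^ j :=
        fun j => pow_mul _ _ _
      simp only [h5]
      exact tsum_pow_mul_one_sub_of_constantCoeff_eq_zero (by simp)
    · rw [one_mul]
  rw [hterm] at hGp
  have hinj : Function.Injective (fun k : ℕ => 6 * k + 2) := fun a b h => by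
    have : 6 * a + 2 = 6 * b + 2 := h
    omega
  have hGp2 : HasProd (fun k : ℕ => (1 : (ZMod 2)⟦X⟧) - X ^ (6 * k + 3)) (G * E) := by
    have h4 := (hinj.hasProd_iff (f := fun i : ℕ => if (i + 1) % 6 ≠ 3 then 1 else
      1 - (X : (ZMod 2)⟦X⟧) ^ (i + 1)) (a := G * E) (by
        intro i hi
        rw [if_pos]
        intro h5
        exact hi ⟨i / 6, by
          change 6 * (i / 6) + 2 = i
          omega⟩)).2 hGp
    have h5 : ((fun i : ℕ => if (i + 1) % 6 ≠ 3 then 1 else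
        1 - (X : (ZMod 2)⟦X⟧) ^ (i + 1)) ∘ fun k : ℕ => 6 * k + 2) =
        fun k : ℕ => (1 : (ZMod 2)⟦X⟧) - X ^ (6 * k + 3) := by
      funext k
      rw [Function.comp_apply, if_neg]
      omega
    rw [h5] at h4
    exact h4
  have hO3 : HasProd (fun k : ℕ => (1 : (ZMod 2)⟦X⟧) - X ^ (6 * k + 3)) (ex 3 (by norm_num) O) := by
    have h4 := hO.map (ex 3 (by norm_num)) (cont_ex 3 (by norm_num))
    have h5 : (⇑(ex 3 (by norm_num)) ∘ fun k : ℕ => (1 : (ZMod 2)⟦X⟧) - X ^ (2 * k + 1)) =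
        fun k : ℕ => (1 : (ZMod 2)⟦X⟧) - X ^ (6 * k + 3) := by
      funext k
      rw [Function.comp_apply, hX, show 3 * (2 * k + 1) = 6 * k + 3 by ring]
    rw [h5] at h4
    exact h4
  rw [hGp2.unique hO3, ← map_mul, hOE, map_one]

end

/-- no progression on which the coefficients of `f_1 ^ 2 / f_3` vanish modulo 2 -/
theorem no_progressionB {h3 : (3 : ℕ) ≠ 0} (F : S) (hF : F * ex 3 h3 E = E ^ 2) (A B : ℕ)
    (hA : 0 < A) : ∃ n : ℕ, coeff (A * n + B) F ≠ 0 := by
  by_contra hcon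
  push Not at hcon
  have hA' : A * (B + 1) ≠ 0 := (Nat.mul_pos hA (Nat.succ_pos B)).ne'
  obtain ⟨s, m, hm, hAm⟩ := Nat.exists_eq_two_pow_mul_odd hA'
  refine typeB F hF (3 * m) s B ((by decide : Odd 3).mul hm) (Dvd.intro m rfl) fun j h1 h2 => ?_
  have h1' : (m : ℤ) ∣ (j : ℤ) - B := by
    refine dvd_trans ?_ h1
    exact ⟨3, by push_cast; ring⟩
  have hcop : IsCoprime (m : ℤ) ((2 : ℤ) ^ s) := by
    refine IsCoprime.pow_right ?_
    obtain ⟨c, hc⟩ := hm
    exact ⟨1, -c, by rw [hc]; push_cast; ring⟩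
  have h3 : ((A * (B + 1) : ℕ) : ℤ) ∣ (j : ℤ) - B := by
    rw [hAm]
    push_cast
    rw [mul_comm]
    exact hcop.mul_dvd h1' h2
  obtain ⟨c, hc⟩ := h3
  have hAB : (B : ℤ) < ((A * (B + 1) : ℕ) : ℤ) := by
    have : B < A * (B + 1) := by nlinarith
    exact_mod_cast this
  have hc0 : 0 ≤ c := by
    by_contra hc1
    have hc2 : c ≤ -1 := by omega
    have hj : (0 : ℤ) ≤ j := Int.natCast_nonneg j
    nlinarith
  obtain ⟨d, rfl⟩ := Int.eq_ofNat_of_zero_le hc0
  have h4 : j = A * ((B + 1) * d) + B := by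
    have : (j : ℤ) = ((A * ((B + 1) * d) + B : ℕ) : ℤ) := by
      push_cast at hc ⊢
      linear_combination hc
    exact_mod_cast this
  rw [h4]
  exact hcon _

/-- the 4-dissection -/
theorem dissect : ∃ F1 F2 : S, F1 * ex 3 (by norm_num) E = E ^ 2 ∧
    F2 * E ^ 1 = ex 3 (by norm_num) E ^ 2 ∧ ∀ k : ℕ,
      ((Nat.Partition.restricted (4 * k) (fun i => i % 6 ≠ 3)).card : ZMod 2) = coeff k F1 ∧
      ((Nat.Partition.restricted (4 * k + 1) (fun i => i % 6 ≠ 3)).card : ZMod 2) =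
        coeff k F2 := by
  have h3 : (3 : ℕ) ≠ 0 := by norm_num
  set b : S := ex 3 h3 E with hb
  have hcb : constantCoeff b = 1 := by
    have h1 := constc3 E
    rw [constE] at h1
    exact h1
  obtain ⟨ua, hua⟩ := unit_of constE
  obtain ⟨ub, hub⟩ := unit_of hcb
  have ha1 : E * (↑ua⁻¹ : S) = 1 := by rw [← hua]; exact ua.mul_inv
  have hb1 : b * (↑ub⁻¹ : S) = 1 := by rw [← hub]; exact ub.mul_inv
  set a' : S := ↑ua⁻¹ with ha'
  set b' : S := ↑ub⁻¹ with hb'
  refine ⟨E ^ 2 * b', b ^ 2 * a', by linear_combination E ^ 2 * hb1,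
    by linear_combination b ^ 2 * ha1, ?_⟩
  set G : S := PowerSeries.mk fun n =>
    ((Nat.Partition.restricted n (fun i => i % 6 ≠ 3)).card : ZMod 2) with hG
  have hGE : G * E * b = 1 := gen36
  have hmod : E ^ 12 = E ^ 3 * b ^ 3 + X * b ^ 12 := by
    have h1 := modT
    have h2 : c3 T = b ^ 3 := by
      unfold T
      rw [map_pow]
      rfl
    rw [h2] at h1
    unfold T at h1
    linear_combination h1
  have h4 : ∀ f : S, f ^ 4 = PowerSeries.expand 4 (by norm_num) f :=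
    Pool.Agent.H397R2.PP.pow_eq_expand' 4 2 (by norm_num) (by norm_num)
  have hGd : G = (E ^ 2 * b') ^ 4 + X * (b ^ 2 * a') ^ 4 := by
    have h5 : ((E ^ 2 * b') ^ 4 + X * (b ^ 2 * a') ^ 4) * E * b = 1 := by
      have e1 : (E ^ 2 * b') ^ 4 * E * b = E ^ 12 * a' ^ 3 * b' ^ 3 := by
        have : E ^ 12 * a' ^ 3 * b' ^ 3 = (E * a') ^ 3 * (E ^ 9 * b' ^ 3) := by ring
        rw [this, ha1]
        have : (E ^ 2 * b') ^ 4 * E * b = (b * b') * (E ^ 9 * b' ^ 3) := by ring
        rw [this, hb1]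
        ring
      have e2 : X * (b ^ 2 * a') ^ 4 * E * b = X * b ^ 12 * a' ^ 3 * b' ^ 3 := by
        have : X * b ^ 12 * a' ^ 3 * b' ^ 3 = (b * b') ^ 3 * (X * b ^ 9 * a' ^ 3) := by ring
        rw [this, hb1]
        have : X * (b ^ 2 * a') ^ 4 * E * b = (E * a') * (X * b ^ 9 * a' ^ 3) := by ring
        rw [this, ha1]
        ring
      have e3 : (E * a') ^ 3 * (b * b') ^ 3 = 1 := by rw [ha1, hb1]; ring
      have htwo : (2 : S) = 0 := two_zero
      linear_combination e1 + e2 + a' ^ 3 * b' ^ 3 * hmod + e3 +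
        X * b ^ 12 * a' ^ 3 * b' ^ 3 * htwo
    calc G = G * ((((E ^ 2 * b') ^ 4 + X * (b ^ 2 * a') ^ 4) * E) * b) := by rw [h5, mul_one]
      _ = (G * E * b) * ((E ^ 2 * b') ^ 4 + X * (b ^ 2 * a') ^ 4) := by ring
      _ = _ := by rw [hGE, one_mul]
  intro k
  have hc : ∀ n : ℕ, ((Nat.Partition.restricted n (fun i => i % 6 ≠ 3)).card : ZMod 2) =
      coeff n G := by
    intro n
    rw [hG, coeff_mk]
  rw [hc, hc, hGd, h4, h4, map_add, map_add]
  constructor
  · rw [coeff_expand, if_pos (Dvd.intro k rfl), Nat.mul_div_cancel_left k (by norm_num)]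
    have : coeff (4 * k) (X * PowerSeries.expand 4 (by norm_num) (b ^ 2 * a')) = 0 := by
      rcases k with _ | k
      · simp
      · rw [show 4 * (k + 1) = 4 * k + 3 + 1 by ring, coeff_succ_X_mul, coeff_expand, if_neg]
        omega
    rw [this, add_zero]
  · rw [coeff_expand, if_neg (by omega), zero_add, coeff_succ_X_mul, coeff_expand,
      if_pos (Dvd.intro k rfl), Nat.mul_div_cancel_left k (by norm_num)]

/-- the main statement on the partitions without parts congruent to 3 modulo 6 -/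
theorem a36_odd (A B : ℕ) (hA : 0 < A)
    (hB : ∀ n : ℕ, (A * n + B) % 4 ≠ 2 ∧ (A * n + B) % 4 ≠ 3) :
    ∃ n : ℕ, Odd (Nat.Partition.restricted (A * n + B) (fun i => i % 6 ≠ 3)).card := by
  -- `A` is a multiple of four
  have hA4 : A % 4 = 0 ∧ (B % 4 = 0 ∨ B % 4 = 1) := by
    have h0 := hB 0
    have h1 := hB 1
    have h2 := hB 2
    have h3 := hB 3
    rw [mul_zero, zero_add] at h0
    rw [mul_one] at h1
    omega
  obtain ⟨hA4, hB4⟩ := hA4
  obtain ⟨A', rfl⟩ := Nat.dvd_of_mod_eq_zero hA4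
  have hA' : 0 < A' := by omega
  obtain ⟨F1, F2, e1, e2, e3⟩ := dissect
  have hodd : ∀ x : ℕ, ((x : ℕ) : ZMod 2) ≠ 0 → Odd x := by
    intro x hx
    rw [← Nat.not_even_iff_odd]
    intro h
    exact hx ((ZMod.natCast_eq_zero_iff_even).2 h)
  rcases hB4 with h | h
  · obtain ⟨B', rfl⟩ := Nat.dvd_of_mod_eq_zero h
    obtain ⟨n, hn⟩ := no_progressionB F1 e1 A' B' hA'
    refine ⟨n, hodd _ ?_⟩
    rw [show 4 * A' * n + 4 * B' = 4 * (A' * n + B') by ring, (e3 _).1]
    exact hn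
  · obtain ⟨B', hB'⟩ : ∃ B', B = 4 * B' + 1 := ⟨B / 4, by omega⟩
    subst hB'
    obtain ⟨n, hn⟩ := no_progression (μ := 3) (α := 2) (β := 1) (by decide) (by norm_num)
      (by norm_num) (by decide) F2 e2 A' B' hA'
    refine ⟨n, hodd _ ?_⟩
    rw [show 4 * A' * n + (4 * B' + 1) = 4 * (A' * n + B') + 1 by ring, (e3 _).2]
    exact hn

end Pool.Agent.Q41.RA
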