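import Mathlib

set_option autoImplicit false

/-!
# Power sums of finite sets
-/

namespace Pool.Agent.Q41.RA

open Polynomial

theorem vand {A ι : Type} [Field A] [DecidableEq ι] (T : Finset ι) (u d : ι → A)
    (hu : Set.InjOn u (T : Set ι)) (h : ∀ n : ℕ, ∑ s ∈ T, d s * u s ^ n = 0) :
    ∀ s ∈ T, d s = 0 := by
  intro i hi
  have h1 : ∀ f : A[X], ∑ s ∈ T, d s * f.eval (u s) = 0 := by
    intro f
    simp only [eval_eq_sum_range, Finset.mul_sum]
    rw [Finset.sum_comm]
    refine Finset.sum_eq_zero fun n _ => ?_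
    have h2 : ∀ s ∈ T, d s * (f.coeff n * u s ^ n) = f.coeff n * (d s * u s ^ n) :=
      fun s _ => by ring
    rw [Finset.sum_congr rfl h2, ← Finset.mul_sum, h n, mul_zero]
  have h3 := h1 (Lagrange.basis T u i)
  rw [Finset.sum_eq_single i] at h3
  · rwa [Lagrange.eval_basis_self hu hi, mul_one] at h3
  · intro j hj hij
    rw [Lagrange.eval_basis_of_ne (Ne.symm hij) hj, mul_zero]
  · intro h4
    exact absurd hi h4

theorem pow_sums_eq {A : Type} [Field A] [DecidableEq A] (S S' : Finset A) (h0 : (0 : A) ∉ S)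
    (h0' : (0 : A) ∉ S')
    (h : ∀ j : ℕ, 1 ≤ j → ∑ s ∈ S, s ^ j = ∑ s ∈ S', s ^ j) : S = S' := by
  have h1 := vand (S ∪ S') (fun s => s)
    (fun s => s * ((if s ∈ S then 1 else 0) - (if s ∈ S' then 1 else 0)))
    (fun _ _ _ _ h => h) (by
      intro n
      have h2 : ∀ s ∈ S ∪ S', s * ((if s ∈ S then (1 : A) else 0) - (if s ∈ S' then 1 else 0)) *
          s ^ n = (if s ∈ S then s ^ (n + 1) else 0) - (if s ∈ S' then s ^ (n + 1) else 0) := by
        intro s _
        split_ifs <;> ring
      rw [Finset.sum_congr rfl h2, Finset.sum_sub_distrib, Finset.sum_ite_mem, Finset.sum_ite_mem,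
        Finset.union_inter_cancel_left, Finset.union_inter_cancel_right, h (n + 1) (by omega),
        sub_self])
  ext s
  by_cases hs : s ∈ S ∪ S'
  · have h2 := h1 s hs
    have hs0 : s ≠ 0 := by
      rintro rfl
      rcases Finset.mem_union.1 hs with h3 | h3
      · exact h0 h3
      · exact h0' h3
    rcases mul_eq_zero.1 h2 with h3 | h3
    · exact absurd h3 hs0
    · by_cases h4 : s ∈ S
      · by_cases h5 : s ∈ S'
        · simp [h4, h5]
        · rw [if_pos h4, if_neg h5] at h3
          simp at h3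
      · by_cases h5 : s ∈ S'
        · rw [if_neg h4, if_pos h5] at h3
          simp at h3
        · simp [h4, h5]
  · rw [Finset.mem_union, not_or] at hs
    simp [hs.1, hs.2]

/-- elements of a finite set of nonzero elements whose power sums are in a Noetherian ring are
integral over this ring -/
theorem int_of_pow_sums {R L : Type} [CommRing R] [IsNoetherianRing R] [Field L] [Algebra R L]
    [DecidableEq L] (S : Finset L) (h0 : (0 : L) ∉ S)
    (h : ∀ j : ℕ, 1 ≤ j → ∑ s ∈ S, s ^ j ∈ (algebraMap R L).range) :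
    ∀ s ∈ S, IsIntegral R s := by
  intro i hi
  have hi0 : i ≠ 0 := fun h1 => h0 (h1 ▸ hi)
  set f : L[X] := Lagrange.basis S id i with hf
  have h1 : ∀ s ∈ S, f.eval s = if s = i then 1 else 0 := by
    intro s hs
    split_ifs with h2
    · rw [h2]
      exact Lagrange.eval_basis_self (v := id) (fun _ _ _ _ h => h) hi
    · exact Lagrange.eval_basis_of_ne (v := id) (Ne.symm h2) hs
  -- the span of the coefficients
  set M : Submodule R L := Submodule.span R
    ((Finset.range (f.natDegree + 1)).image (fun n => i⁻¹ * f.coeff n) : Set L) with hM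
  have hfg : M.FG := ⟨_, rfl⟩
  have h2 : ∀ j : ℕ, i ^ j ∈ M := by
    intro j
    have h3 : i ^ j = ∑ n ∈ Finset.range (f.natDegree + 1),
        (∑ s ∈ S, s ^ (n + j + 1)) * (i⁻¹ * f.coeff n) := by
      have h4 : ∑ s ∈ S, i⁻¹ * s ^ (j + 1) * f.eval s = i ^ j := by
        rw [Finset.sum_eq_single i]
        · rw [h1 i hi, if_pos rfl, mul_one, pow_succ, mul_comm (i ^ j) i, ← mul_assoc,
            inv_mul_cancel₀ hi0, one_mul]
        · intro s hs hne
          rw [h1 s hs, if_neg hne, mul_zero]
        · intro h5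
          exact absurd hi h5
      rw [← h4]
      simp only [eval_eq_sum_range, Finset.mul_sum, Finset.sum_mul]
      rw [Finset.sum_comm]
      refine Finset.sum_congr rfl fun n _ => Finset.sum_congr rfl fun s _ => ?_
      ring
    rw [h3]
    refine Submodule.sum_mem _ fun n hn => ?_
    obtain ⟨r, hr⟩ := h (n + j + 1) (by omega)
    rw [← hr, ← Algebra.smul_def]
    exact Submodule.smul_mem _ _ (Submodule.subset_span (by
      rw [Finset.coe_image]
      exact ⟨n, hn, rfl⟩))
  have h3 : Subalgebra.toSubmodule (Algebra.adjoin R {i}) ≤ M := by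
    intro x hx
    rw [Subalgebra.mem_toSubmodule, Algebra.adjoin_singleton_eq_range_aeval] at hx
    obtain ⟨p, rfl⟩ := hx
    change aeval i p ∈ M
    rw [aeval_eq_sum_range]
    exact Submodule.sum_mem _ fun n _ => Submodule.smul_mem _ _ (h2 n)
  have : IsNoetherian R M := isNoetherian_of_fg_of_noetherian M hfg
  have h4 : (Subalgebra.toSubmodule (Algebra.adjoin R {i})).FG := by
    exact isNoetherian_submodule.1 this _ h3
  exact IsIntegral.of_mem_of_fg (Algebra.adjoin R {i}) h4 i
    (Algebra.self_mem_adjoin_singleton R i)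

end Pool.Agent.Q41.RA
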