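import Pool.Agent.Q41.RA.Ser
import Pool.Agent.Q41.RA.Lin

set_option autoImplicit false

/-!
# Rational functions of one Laurent series
-/

namespace Pool.Agent.Q41.RA

open Polynomial

section
open scoped IntermediateField.algebraAdjoinAdjoin

theorem mem_adjoin_of_integral {k E : Type} [Field k] [Field E] [Algebra k E] (x : E)
    (hx : Transcendental k x) (r : E) (hr : r ∈ IntermediateField.adjoin k {x})
    (hi : IsIntegral (Algebra.adjoin k {x}) r) : r ∈ Algebra.adjoin k {x} := by
  have h1 : Function.Injective (aeval x : k[X] →ₐ[k] E) :=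
    transcendental_iff_injective.1 hx
  have h2 : IsIntegrallyClosed (Algebra.adjoin k {x}) :=
    IsIntegrallyClosed.of_equiv ((AlgEquiv.ofInjective _ h1).trans
      (Subalgebra.equivOfEq _ _ (Algebra.adjoin_singleton_eq_range_aeval k x).symm)).toRingEquiv
  let r' : IntermediateField.adjoin k {x} := ⟨r, hr⟩
  have h3 : IsIntegral (Algebra.adjoin k {x}) r' := by
    have h4 : r = algebraMap (IntermediateField.adjoin k {x}) E r' := rfl
    rw [h4] at hi
    exact (isIntegral_algebraMap_iff
      (algebraMap (IntermediateField.adjoin k {x}) E).injective).1 hi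
  obtain ⟨y, hy⟩ := IsIntegrallyClosed.algebraMap_eq_of_integral h3
  have h5 : (y : E) = r := by
    have h6 := congrArg (algebraMap (IntermediateField.adjoin k {x}) E) hy
    exact h6
  rw [← h5]
  exact y.2

end

variable {F : Type} [Field F]

theorem algC (b : F) : algebraMap F (HahnSeries ℤ F) b = HahnSeries.C b := by
  rw [HahnSeries.algebraMap_apply', PowerSeries.algebraMap_apply, Algebra.algebraMap_self,
    RingHom.id_apply, HahnSeries.ofPowerSeries_C]

/-- the leading term of a polynomial in an element of negative order -/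
theorem LT_aeval {x : HahnSeries ℤ F} {a : ℤ} {c : F} (ha : 0 < a)
    (hx : LT (-a) c x) (n : ℕ) : ∀ p : F[X], p.natDegree = n →
      LT (-(a * n)) (p.leadingCoeff * c ^ n) (aeval x p) := by
  induction n with
  | zero =>
    intro p hp
    obtain ⟨b, rfl⟩ := natDegree_eq_zero.1 hp
    rw [aeval_C, leadingCoeff_C, pow_zero, mul_one, algC, Nat.cast_zero, mul_zero, neg_zero]
    exact LT_C b
  | succ n ih =>
    intro p hp
    have h1 := ih p.divX (by rw [natDegree_divX_eq_natDegree_tsub_one, hp]; rfl)
    have h2 := (h1.mul hx).add_lt (LT_C (p.coeff 0)) (by nlinarith)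
    have h3 : aeval x p = aeval x p.divX * x + HahnSeries.C (p.coeff 0) := by
      conv_lhs => rw [← divX_mul_X_add p, map_add, map_mul, aeval_X, aeval_C, algC]
    have h4 : p.leadingCoeff = p.divX.leadingCoeff := by
      unfold leadingCoeff
      rw [natDegree_divX_eq_natDegree_tsub_one, hp, coeff_divX]
      rfl
    rw [h3, h4, pow_succ, ← mul_assoc]
    have h5 : (-(a * ((n + 1 : ℕ) : ℤ)) : ℤ) = -(a * (n : ℤ)) + -a := by push_cast; ring
    rw [h5]
    exact h2

theorem trans_of_LT {x : HahnSeries ℤ F} {a : ℤ} {c : F} (ha : 0 < a) (hc : c ≠ 0)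
    (hx : LT (-a) c x) : Transcendental F x := by
  rw [transcendental_iff]
  intro p hp
  by_contra h
  have h1 := LT_aeval ha hx _ p rfl
  rw [hp] at h1
  exact h1.ne_zero (mul_ne_zero (leadingCoeff_ne_zero.2 h) (pow_ne_zero _ hc)) rfl

/-- no element of positive order is integral and rational -/
theorem no_pos {x r : HahnSeries ℤ F} {a b : ℤ} {c d : F} (ha : 0 < a) (hc : c ≠ 0)
    (hx : LT (-a) c x) (hb : 0 < b) (hd : d ≠ 0) (hr : LT b d r)
    (hm : r ∈ IntermediateField.adjoin F {x}) (hi : IsIntegral (Algebra.adjoin F {x}) r) :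
    False := by
  have h1 := mem_adjoin_of_integral x (trans_of_LT ha hc hx) r hm hi
  rw [Algebra.adjoin_singleton_eq_range_aeval] at h1
  obtain ⟨p, rfl⟩ := h1
  have hp : p ≠ 0 := by
    rintro rfl
    exact hr.ne_zero hd (map_zero _)
  have h2 := LT_aeval ha hx _ p rfl
  obtain ⟨h3, -⟩ := h2.unique (mul_ne_zero (leadingCoeff_ne_zero.2 hp) (pow_ne_zero _ hc)) hr hd
  have h4 : 0 ≤ a * (p.natDegree : ℤ) := mul_nonneg ha.le (Int.natCast_nonneg _)
  omega

end Pool.Agent.Q41.RA
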