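import Pool.Agent.Q41.RA.Vtx
import Pool.Agent.Q41.RA.Rat

set_option autoImplicit false

/-!
# The base field, the twists and the first moves
-/

namespace Pool.Agent.Q41.RA

open Pool.Agent.TH693.PP Pool.Agent.TH693.QQ Pool.Agent.H397R2.PP Pool.Agent.Y627.PT

/-- the base field -/
noncomputable def KB (w : Vx) : IntermediateField kk LL := IntermediateField.adjoin kk {w.V⁻¹}

/-- the automorphisms over the base field -/
abbrev GB (w : Vx) : Type := GG (KB w) LL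

theorem V_mem (w : Vx) : w.V ∈ KB w := by
  have h : w.V⁻¹ ∈ KB w := IntermediateField.subset_adjoin _ _ rfl
  have := inv_mem h
  rwa [inv_inv] at this

theorem C_mem (w : Vx) (c : kk) : (HahnSeries.C c : LL) ∈ KB w := by
  rw [← algC]
  exact (KB w).algebraMap_mem c

theorem rel_mem {w : Vx} (σ : GB w) {x : LL} (hx : x ∈ KB w) : Rel σ x x :=
  Rel.algMap σ (⟨x, hx⟩ : KB w)

theorem relC {w : Vx} (σ : GB w) (c : kk) : Rel σ (HahnSeries.C c : LL) (HahnSeries.C c) :=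
  rel_mem σ (C_mem w c)

theorem relV {w : Vx} (σ : GB w) : Rel σ w.V w.V := rel_mem σ (V_mem w)

theorem rel_eval {w : Vx} {σ : GB w} {x y : LL} (h : Rel σ x y) (P : Polynomial kk) :
    Rel σ (P.eval₂ (HahnSeries.C : kk →+* LL) x) (P.eval₂ (HahnSeries.C : kk →+* LL) y) := by
  rw [Polynomial.eval₂_eq_sum_range, Polynomial.eval₂_eq_sum_range]
  exact Rel.sum _ _ _ fun n _ => (relC σ _).mul (h.pow n)

theorem alg_nb {w0 w : Vx} {q : ℕ} (hq : q.Prime) (hq2 : q ≠ 2) (hd : q ∣ w.a)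
    (hw : IsAlgebraic (KB w0) w.V) {x : LL} (hx : x ∈ nbV q w) : IsAlgebraic (KB w0) x := by
  classical
  have h1 := int_of_pow_sums (R := algebraicClosure (KB w0) LL) (nbV q w) (by
    rw [mem_nbV hq.ne_zero hd]
    rintro ⟨s, -, hs⟩
    exact s.V_ne hs) (by
    intro j hj
    obtain ⟨P, -, hP⟩ := psum hq hq2 j hj
    rw [hP w hd]
    refine ⟨⟨_, ?_⟩, rfl⟩
    rw [Polynomial.eval₂_eq_sum_range]
    refine sum_mem fun n _ => mul_mem ?_ (pow_mem (mem_algebraicClosure_iff.2 hw) n)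
    exact (algebraicClosure (KB w0) LL).algebraMap_mem (⟨_, C_mem w0 _⟩ : KB w0)) x hx
  have h2 : IsAlgebraic (algebraicClosure (KB w0) LL) x := h1.isAlgebraic
  exact IsAlgebraic.restrictScalars (KB w0) h2

theorem nb_rel {w0 w w' : Vx} {σ : GB w0} {q : ℕ} (hq : q.Prime) (hq2 : q ≠ 2) (hd : q ∣ w.a)
    (hd' : q ∣ w'.a) (h : Rel σ w.V w'.V) {s : Vx} (hs : Nb q w s) :
    ∃ s', Nb q w' s' ∧ Rel σ s.V s'.V := by
  classical
  have h1 := rel_sets (σ := σ) (nbV q w) (nbV q w')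
    (by
      rw [mem_nbV hq.ne_zero hd]
      rintro ⟨s, -, hs⟩
      exact s.V_ne hs)
    (by
      rw [mem_nbV hq.ne_zero hd']
      rintro ⟨s, -, hs⟩
      exact s.V_ne hs)
    (fun x hx => alg_nb hq hq2 hd h.left hx) (fun x hx => alg_nb hq hq2 hd' h.right hx)
    (by
      intro j hj
      obtain ⟨P, -, hP⟩ := psum hq hq2 j hj
      rw [hP w hd, hP w' hd']
      exact rel_eval h P)
  obtain ⟨x, hx, h2⟩ := h1.1 s.V ((mem_nbV hq.ne_zero hd _).2 ⟨s, hs, rfl⟩)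
  obtain ⟨s', hs', rfl⟩ := (mem_nbV hq.ne_zero hd' _).1 hx
  exact ⟨s', hs', h2⟩

theorem nb_alg {w0 w : Vx} {q : ℕ} (hq : q.Prime) (hq2 : q ≠ 2) (hd : q ∣ w.a)
    (h : IsAlgebraic (KB w0) w.V) {s : Vx} (hs : Nb q w s) : IsAlgebraic (KB w0) s.V :=
  alg_nb hq hq2 hd h ((mem_nbV hq.ne_zero hd _).2 ⟨s, hs, rfl⟩)

/-- the twisted vertex -/
noncomputable def twV (ξ : kkˣ) (w : Vx) : Vx :=
  ⟨w.z * (ξ : kk) ^ w.a, w.a, mul_ne_zero w.hz (pow_ne_zero _ ξ.ne_zero), w.ha⟩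

theorem tw_ev (ξ : kkˣ) (w : Vx) (f : S) : tw ξ (w.ev f) = (twV ξ w).ev f := tw_sub _ _ _ _ _

theorem tw_V (ξ : kkˣ) (w : Vx) : tw ξ w.V = (twV ξ w).V := tw_sub _ _ _ _ _

theorem twV_of_one {ξ : kkˣ} {w : Vx} (h : (ξ : kk) ^ w.a = 1) : twV ξ w = w :=
  Vx.ext (by change w.z * (ξ : kk) ^ w.a = w.z; rw [h, mul_one]) rfl

theorem tw_mem {ξ : kkˣ} {w : Vx} (h : (ξ : kk) ^ w.a = 1) {x : LL} (hx : x ∈ KB w) :
    tw ξ x = x := by
  unfold KB at hx
  induction hx using IntermediateField.adjoin_induction with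
  | mem x hx =>
    rw [Set.mem_singleton_iff] at hx
    rw [hx, map_inv₀, tw_V, twV_of_one h]
  | algebraMap x => rw [algC, tw_C]
  | add x y _ _ hx hy => rw [map_add, hx, hy]
  | inv x _ hx => rw [map_inv₀, hx]
  | mul x y _ _ hx hy => rw [map_mul, hx, hy]

theorem exists_tw {ξ : kkˣ} {w : Vx} (h : (ξ : kk) ^ w.a = 1) :
    ∃ ρ : GB w, ∀ x : LL, IsAlgebraic (KB w) x → Rel ρ x (tw ξ x) :=
  exists_of_aut (AlgEquiv.ofRingEquiv (f := tw ξ) (fun k => tw_mem h k.2))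

/-- the field of Laurent series has characteristic two -/
theorem charP_LL : CharP LL 2 :=
  charP_of_injective_ringHom (HahnSeries.C_injective (Γ := ℤ) (R := kk)) 2

theorem prime_move {w : Vx} {q : ℕ} (hq : q.Prime) (hq2 : q ≠ 2) (hd : q ∣ w.a) :
    ∃ σ : GB w, ¬ Rel σ (up q hq.ne_zero w).V (up q hq.ne_zero w).V := by
  classical
  by_contra hcon
  push Not at hcon
  have hq' : 2 ≤ q := hq.two_le
  have hch : CharP (KB w) 2 := by
    have h1 := charP_LL
    exact RingHom.charP (algebraMap (KB w) LL) (algebraMap (KB w) LL).injective 2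
  have hVa : IsAlgebraic (KB w) w.V := isAlgebraic_algebraMap (⟨w.V, V_mem w⟩ : KB w)
  set U : LL := (up q hq.ne_zero w).V with hU
  have hUn : U ∈ nbV q w := (mem_nbV hq.ne_zero hd _).2 ⟨_, nb_up q hq.ne_zero w, rfl⟩
  obtain ⟨e, k, hk⟩ := pow_mem_of_fixed (alg_nb hq hq2 hd hVa hUn) hcon
  set x : LL := w.V⁻¹ with hx
  have hLx : LT (-(w.a : ℤ)) w.z⁻¹ x := w.LT_V.inv w.hz
  have hLU : LT ((q * w.a : ℕ) : ℤ) (w.z ^ q) U := (up q hq.ne_zero w).LT_V
  have ha : (0 : ℤ) < w.a := by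
    have := Nat.pos_of_ne_zero w.ha
    omega
  have hLr := (hLU.mul hLx).pow (2 ^ e)
  have hint : IsIntegral (Algebra.adjoin kk {x}) (U * x) := by
    have hN : IsNoetherianRing (Algebra.adjoin kk {x}) := by
      have h1 : (Algebra.adjoin kk {x}).FG := ⟨{x}, by rw [Finset.coe_singleton]⟩
      have h2 : Algebra.FiniteType kk (Algebra.adjoin kk {x}) :=
        (Subalgebra.fg_iff_finiteType _).1 h1
      exact Algebra.FiniteType.isNoetherianRing kk _
    refine int_of_pow_sums (R := Algebra.adjoin kk {x}) ((nbV q w).image (fun y => y * x)) ?_ ?_ _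
      (Finset.mem_image_of_mem _ hUn)
    · rw [Finset.mem_image]
      rintro ⟨y, hy, h1⟩
      obtain ⟨s, -, rfl⟩ := (mem_nbV hq.ne_zero hd _).1 hy
      exact mul_ne_zero s.V_ne (inv_ne_zero w.V_ne) h1
    · intro j hj
      obtain ⟨P, hP1, hP⟩ := psum hq hq2 j hj
      rw [Finset.sum_image (fun _ _ _ _ h => mul_right_cancel₀ (inv_ne_zero w.V_ne) h)]
      simp only [mul_pow]
      rw [← Finset.sum_mul, hP w hd, Polynomial.eval₂_eq_sum_range, Finset.sum_mul]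
      suffices hs : ∑ i ∈ Finset.range (P.natDegree + 1),
          (HahnSeries.C (P.coeff i) : LL) * w.V ^ i * x ^ j ∈ Algebra.adjoin kk {x} from
        ⟨⟨_, hs⟩, rfl⟩
      refine sum_mem fun n hn => ?_
      have hn' : n ≤ j := by
        have := Finset.mem_range.1 hn
        omega
      have h2 : (HahnSeries.C (P.coeff n) : LL) * w.V ^ n * x ^ j =
          HahnSeries.C (P.coeff n) * x ^ (j - n) := by
        have h3 : x ^ j = x ^ (j - n) * x ^ n := by
          rw [← pow_add, Nat.sub_add_cancel hn']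
        have h4 : w.V ^ n * x ^ n = 1 := by
          rw [← mul_pow, hx, mul_inv_cancel₀ w.V_ne, one_pow]
        rw [h3]
        linear_combination (HahnSeries.C (P.coeff n) : LL) * x ^ (j - n) * h4
      rw [h2]
      refine mul_mem ?_ (pow_mem (Algebra.self_mem_adjoin_singleton kk x) _)
      rw [← algC]
      exact (Algebra.adjoin kk {x}).algebraMap_mem _
  refine no_pos (r := (U * x) ^ 2 ^ e) ha (inv_ne_zero w.hz) hLx ?_ ?_ hLr ?_ (hint.pow _)
  · have h1 : ((q * w.a : ℕ) : ℤ) + -(w.a : ℤ) = ((q : ℤ) - 1) * w.a := by push_cast; ring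
    rw [h1]
    have h2 : (0 : ℤ) < (q : ℤ) - 1 := by omega
    positivity
  · exact pow_ne_zero _ (mul_ne_zero (pow_ne_zero _ w.hz) (inv_ne_zero w.hz))
  · change (U * x) ^ 2 ^ e ∈ KB w
    rw [mul_pow, ← hk]
    exact mul_mem k.2 (pow_mem (inv_mem (V_mem w)) _)

end Pool.Agent.Q41.RA
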