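import Pool.Agent.Q41.RA.Th

set_option autoImplicit false

/-!
# Automorphisms which commute with the homogeneous parts
-/

namespace Pool.Agent.Q41.RA

open Pool.Agent.TH693.PP Pool.Agent.TH693.QQ Pool.Agent.H397R2.PP Pool.Agent.Y627.PT

/-- `σ` maps the homogeneous parts of `x` to those of `y` -/
def Cm (K : ℕ) {w0 : Vx} (σ : GB w0) (x y : LL) : Prop :=
  ∀ c : ZMod (2 ^ K), Rel σ (pj (2 ^ K) c x) (pj (2 ^ K) c y)

section
variable {K : ℕ} {w0 : Vx} {σ τ : GB w0} {x y x1 y1 z : LL}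

theorem Cm.rel (h : Cm K σ x y) : Rel σ x y := by
  have h1 := Rel.sum (σ := σ) Finset.univ (fun c => pj (2 ^ K) c x) (fun c => pj (2 ^ K) c y)
    (fun c _ => h c)
  rwa [sum_pj, sum_pj] at h1

theorem Cm.add (h : Cm K σ x y) (h1 : Cm K σ x1 y1) : Cm K σ (x + x1) (y + y1) := by
  intro c
  rw [map_add, map_add]
  exact (h c).add (h1 c)

theorem Cm.zero (K : ℕ) {w0 : Vx} (σ : GB w0) : Cm K σ 0 0 := by
  intro c
  rw [map_zero]
  exact Rel.zero σ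

theorem Cm.sum {ι : Type} (s : Finset ι) (f g : ι → LL) (h : ∀ i ∈ s, Cm K σ (f i) (g i)) :
    Cm K σ (∑ i ∈ s, f i) (∑ i ∈ s, g i) := by
  intro c
  rw [map_sum, map_sum]
  exact Rel.sum _ _ _ fun i hi => h i hi c

theorem Cm.mul (h : Cm K σ x y) (h1 : Cm K σ x1 y1) : Cm K σ (x * x1) (y * y1) := by
  intro c
  rw [pj_mul, pj_mul]
  exact Rel.sum _ _ _ fun d _ => (h d).mul (h1 _)

theorem Cm.of_hom (h : Rel σ x y) {d : ZMod (2 ^ K)} (hx : Hom (2 ^ K) d x)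
    (hy : Hom (2 ^ K) d y) : Cm K σ x y := by
  intro c
  by_cases hc : d = c
  · subst hc
    rw [pj_of_hom hx, pj_of_hom hy]
    exact h
  · rw [pj_of_hom_ne hx hc, pj_of_hom_ne hy hc]
    exact Rel.zero σ

theorem Cm.C (K : ℕ) {w0 : Vx} (σ : GB w0) (c : kk) :
    Cm K σ (HahnSeries.C c : LL) (HahnSeries.C c) :=
  Cm.of_hom (relC σ c) (hom_C _ c) (hom_C _ c)

theorem Cm.one (K : ℕ) {w0 : Vx} (σ : GB w0) : Cm K σ (1 : LL) 1 :=
  Cm.of_hom (Rel.one σ) (hom_one _) (hom_one _)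

theorem Cm.pow (h : Cm K σ x y) (n : ℕ) : Cm K σ (x ^ n) (y ^ n) := by
  induction n with
  | zero => rw [pow_zero, pow_zero]; exact Cm.one K σ
  | succ n ih => rw [pow_succ, pow_succ]; exact ih.mul h

theorem Cm.frob (h : Rel σ x y) : Cm K σ (x ^ 2 ^ K) (y ^ 2 ^ K) :=
  Cm.of_hom (h.pow _) (hom_frob K x) (hom_frob K y)

theorem Cm.inv (h : Cm K σ x y) : Cm K σ x⁻¹ y⁻¹ := by
  have h1 : ∀ u : LL, u⁻¹ = u⁻¹ ^ 2 ^ K * u ^ (2 ^ K - 1) := by
    intro u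
    have h2 : 2 ^ K = 1 + (2 ^ K - 1) := by
      have : 0 < 2 ^ K := by positivity
      omega
    by_cases hu : u = 0
    · rw [hu, inv_zero, zero_pow (by positivity), zero_mul]
    · conv_rhs => rw [h2]
      rw [Nat.add_sub_cancel_left, pow_add, pow_one, mul_assoc, ← mul_pow, inv_mul_cancel₀ hu,
        one_pow, mul_one]
  rw [h1 x, h1 y]
  exact (Cm.frob h.rel.inv).mul (h.pow _)

theorem Cm.comp (h : Cm K τ x y) (h1 : Cm K σ y z) : Cm K (σ * τ) x z :=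
  fun c => (h c).comp (h1 c)

theorem Cm.symm (h : Cm K σ x y) : Cm K σ⁻¹ y x := fun c => (h c).symm

theorem Cm.eval (h : Cm K σ x y) (P : Polynomial kk) :
    Cm K σ (P.eval₂ (HahnSeries.C : kk →+* LL) x) (P.eval₂ (HahnSeries.C : kk →+* LL) y) := by
  rw [Polynomial.eval₂_eq_sum_range, Polynomial.eval₂_eq_sum_range]
  exact Cm.sum _ _ _ fun n _ => (Cm.C K σ _).mul (h.pow n)

/-- cube roots -/
theorem Cm.cube (h : Cm K σ (x ^ 3) (y ^ 3)) (h1 : Rel σ x y) : Cm K σ x y := by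
  by_cases hx : x = 0
  · have hy : y = 0 := by
      rw [hx] at h1
      exact h1.unique (Rel.zero σ)
    rw [hx, hy]
    exact Cm.zero K σ
  · have hy : y ≠ 0 := by
      intro hy
      rw [hy] at h1
      exact hx (h1.inj (Rel.zero σ))
    obtain ⟨s, hs⟩ : ∃ s, 3 * s = 1 + 2 * (2 ^ K * 2 ^ K) := by
      have h2 : (1 + 2 * (2 ^ K * 2 ^ K)) % 3 = 0 := by
        have h3 : 2 ^ K * 2 ^ K = 4 ^ K := by
          rw [← mul_pow]
          norm_num
        rw [h3, Nat.add_mod, Nat.mul_mod, Nat.pow_mod]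
        norm_num
      exact ⟨_, (Nat.mul_div_cancel' (Nat.dvd_of_mod_eq_zero h2))⟩
    have h4 : ∀ u : LL, u ≠ 0 → u = (u⁻¹ ^ (2 * 2 ^ K)) ^ 2 ^ K * (u ^ 3) ^ s := by
      intro u hu
      rw [← pow_mul u 3 s, hs, pow_add, pow_one, ← pow_mul,
        show 2 * 2 ^ K * 2 ^ K = 2 * (2 ^ K * 2 ^ K) by ring]
      have h5 : u⁻¹ ^ (2 * (2 ^ K * 2 ^ K)) * u ^ (2 * (2 ^ K * 2 ^ K)) = 1 := by
        rw [← mul_pow, inv_mul_cancel₀ hu, one_pow]
      linear_combination (-u) * h5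
    rw [h4 x hx, h4 y hy]
    exact (Cm.frob (h1.inv.pow _)).mul (h.pow s)

end

theorem cm_tw {K : ℕ} {w : Vx} {ξ : kkˣ} {ρ : GB w}
    (hρ : ∀ x : LL, IsAlgebraic (KB w) x → Rel ρ x (tw ξ x)) {x : LL}
    (hx : ∀ c : ZMod (2 ^ K), IsAlgebraic (KB w) (pj (2 ^ K) c x)) :
    Cm K ρ x (tw ξ x) := by
  intro c
  rw [← tw_pj]
  exact hρ _ (hx c)

/-- the commutation passes to neighbours -/
theorem Cm.nb {K : ℕ} {w0 w w' s s' : Vx} {σ : GB w0} {q : ℕ} (hq : q.Prime) (hq2 : q ≠ 2)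
    (hd : q ∣ w.a) (hd' : q ∣ w'.a) (h : Cm K σ w.V w'.V) (hs : Nb q w s)
    (hr : Rel σ s.V s'.V) : Cm K σ s.V s'.V := by
  classical
  intro c
  have hrel := h.rel
  -- the bijection of the neighbours
  have key : ∀ x ∈ nbV q w, ∃ x' ∈ nbV q w', Rel σ x x' := by
    intro x hx
    obtain ⟨u, hu, rfl⟩ := (mem_nbV hq.ne_zero hd _).1 hx
    obtain ⟨u', hu', h2⟩ := nb_rel hq hq2 hd hd' hrel hu
    exact ⟨u'.V, (mem_nbV hq.ne_zero hd' _).2 ⟨u', hu', rfl⟩, h2⟩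
  have key' : ∀ x' ∈ nbV q w', ∃ x ∈ nbV q w, Rel σ x x' := by
    intro x' hx'
    obtain ⟨u, hu, rfl⟩ := (mem_nbV hq.ne_zero hd' _).1 hx'
    obtain ⟨u', hu', h2⟩ := nb_rel hq hq2 hd' hd hrel.symm hu
    refine ⟨u'.V, (mem_nbV hq.ne_zero hd _).2 ⟨u', hu', rfl⟩, ?_⟩
    have := h2.symm
    rwa [inv_inv] at this
  choose! π hπ hπr using key
  have halg : ∀ x ∈ nbV q w, IsAlgebraic (KB w0) (pj (2 ^ K) c x) := by
    intro x hx
    obtain ⟨u, hu, rfl⟩ := (mem_nbV hq.ne_zero hd _).1 hx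
    exact pj_alg (nb_alg hq hq2 hd hrel.left hu) K c
  have halg' : ∀ x ∈ nbV q w', IsAlgebraic (KB w0) (pj (2 ^ K) c x) := by
    intro x hx
    obtain ⟨u, hu, rfl⟩ := (mem_nbV hq.ne_zero hd' _).1 hx
    exact pj_alg (nb_alg hq hq2 hd' hrel.right hu) K c
  have hsm : s.V ∈ nbV q w := (mem_nbV hq.ne_zero hd _).2 ⟨s, hs, rfl⟩
  have h1 := rel_vand (σ := σ) (nbV q w) (fun x => x ^ 2 ^ K) (fun x => π x ^ 2 ^ K)
    (fun x => pj (2 ^ K) c x) (fun x => pj (2 ^ K) c (π x)) halg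
    (fun x hx => halg' _ (hπ x hx)) (fun x hx => (hπr x hx).pow _)
    (by
      intro x _ y _ hxy
      have hch := charP_LL
      have := sub_eq_zero.2 hxy
      change x ^ 2 ^ K - y ^ 2 ^ K = 0 at this
      rw [← sub_pow_char_pow] at this
      exact sub_eq_zero.1 (pow_eq_zero_iff (by positivity) |>.1 this))
    (by
      intro n
      obtain ⟨P, -, hP⟩ := psum hq hq2 (2 ^ K * n + 1) (by omega)
      have e1 : ∀ T : Finset LL, ∑ x ∈ T, pj (2 ^ K) c x * (x ^ 2 ^ K) ^ n =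
          pj (2 ^ K) c (∑ x ∈ T, x ^ (2 ^ K * n + 1)) := by
        intro T
        rw [map_sum]
        refine Finset.sum_congr rfl fun x _ => ?_
        have e2 : x ^ (2 ^ K * n + 1) = (x ^ n) ^ 2 ^ K * x := by
          rw [pow_add, pow_one, ← pow_mul, mul_comm n]
        rw [e2, pj_frob_mul, ← pow_mul, ← pow_mul, mul_comm, mul_comm n]
      have e3 : ∑ x ∈ nbV q w, pj (2 ^ K) c (π x) * (π x ^ 2 ^ K) ^ n =
          ∑ x ∈ nbV q w', pj (2 ^ K) c x * (x ^ 2 ^ K) ^ n := by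
        refine Finset.sum_bij (fun x _ => π x) (fun x hx => hπ x hx) ?_ ?_ (fun _ _ => rfl)
        · intro x hx y hy hxy
          have h3 := hπr y hy
          have h4 : π x = π y := hxy
          rw [← h4] at h3
          exact (hπr x hx).inj h3
        · intro y hy
          obtain ⟨x, hx, h3⟩ := key' y hy
          exact ⟨x, hx, (hπr x hx).unique h3⟩
      rw [e3, e1, e1, hP w hd, hP w' hd']
      exact h.eval P c) s.V hsm
  have h2 : π s.V = s'.V := (hπr _ hsm).unique hr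
  rw [← h2]
  exact h1

end Pool.Agent.Q41.RA
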