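import Pool.Agent.Q41.RA.Path

set_option autoImplicit false

/-!
# The flipping automorphism
-/

namespace Pool.Agent.Q41.RA

open Pool.Agent.TH693.PP Pool.Agent.TH693.QQ Pool.Agent.H397R2.PP Pool.Agent.Y627.PT

/-- an automorphism which maps `(1, a / d)` to `(1, d a)` for all divisors `d` of `n` -/
theorem exists_flip (K : ℕ) {w0 : Vx} (hz : w0.z = 1) (hodd : Odd w0.a) (n : ℕ)
    (hnn' : n * n ∣ w0.a) : ∃ τ : GB w0, Cm K τ w0.V w0.V ∧
      ∀ d : ℕ, d ∣ n → ∀ y : Vx, y.z = 1 → d * y.a = w0.a → Rel τ y.V (upn w0 d).V := by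
  have hn : n ∣ w0.a := dvd_trans (Dvd.intro n rfl) hnn'
  have hn0 : n ≠ 0 := by
    rintro rfl
    exact w0.ha (Nat.eq_zero_of_zero_dvd hn)
  have hapos := Nat.pos_of_ne_zero w0.ha
  have hne : NeZero ((w0.a : ℕ) : ZMod 2) := ⟨by
    rw [Ne, ZMod.natCast_eq_zero_iff]
    exact fun h => (Nat.not_even_iff_odd.2 hodd) (even_iff_two_dvd.2 h)⟩
  obtain ⟨ζ, hζ⟩ := HasEnoughRootsOfUnity.exists_primitiveRoot kk w0.a
  set ξ : kkˣ := Units.mk0 ζ (hζ.ne_zero w0.ha) with hξ
  have hξp : IsPrimitiveRoot (ξ : kk) w0.a := hζ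
  obtain ⟨σ, ρ, hρ, hmv⟩ := exists_conj hξp n.primeFactors (by
    intro q hq
    have h1 := Nat.prime_of_mem_primeFactors hq
    have h2 := dvd_trans (Nat.dvd_of_mem_primeFactors hq) hn
    exact ⟨h1, ne_two_of_dvd hodd h2, h2⟩)
  set g : GB w0 := σ * ρ * σ⁻¹ with hgdef
  have hgC : Cm K g w0.V w0.V := fun c => conj_fix hξp.pow_eq_one hρ K c
  have hB := flipB hodd n hn hmv
  obtain ⟨yn, e1, e2, e3⟩ := hB n dvd_rfl
  -- the adjusting twist
  obtain ⟨b, hb⟩ := hn
  have hb0 : b ≠ 0 := by
    rintro rfl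
    exact w0.ha (by rw [hb, mul_zero])
  have hyb : yn.a = b := by
    rw [hb] at e1
    exact Nat.eq_of_mul_eq_mul_left (Nat.pos_of_ne_zero hn0) e1
  have hprim : IsPrimitiveRoot ((ξ : kk) ^ b) n := hξp.pow hapos (by rw [hb, mul_comm])
  have hnn : NeZero n := ⟨hn0⟩
  obtain ⟨e, -, he⟩ := hprim.eq_pow_of_pow_eq_one (ξ := yn.z⁻¹) (by
    rw [inv_pow, e2, hz, inv_one])
  have hη : ((ξ ^ e : kkˣ) : kk) ^ w0.a = 1 := by
    rw [Units.val_pow_eq_pow_val, ← pow_mul, mul_comm, pow_mul, hξp.pow_eq_one, one_pow]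
  obtain ⟨ρ', hρ'⟩ := exists_tw hη
  have hρC : Cm K ρ' w0.V w0.V := by
    have h1 := cm_tw (K := K) hρ' (x := w0.V) (fun c => pj_alg (relV (1 : GB w0)).left K c)
    rwa [tw_V, twV_of_one hη] at h1
  -- images of the upper vertices
  have himg : ∀ d : ℕ, d ∣ n → ∃ y : Vx, d * y.a = w0.a ∧ Rel (ρ' * g) (upn w0 d).V y.V := by
    intro d hd
    obtain ⟨y, h1, h2, h3⟩ := hB d hd
    refine ⟨twV (ξ ^ e) y, h1, ?_⟩
    have h4 := hρ' _ h3.right
    rw [tw_V] at h4
    exact h3.comp h4
  have htop : ∀ y : Vx, y.z = 1 → n * y.a = w0.a → Rel (ρ' * g) (upn w0 n).V y.V := by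
    intro y h1 h2
    have h4 := hρ' _ e3.right
    rw [tw_V] at h4
    have h5 : twV (ξ ^ e) yn = y := by
      refine Vx.ext ?_ ?_
      · change yn.z * ((ξ ^ e : kkˣ) : kk) ^ yn.a = y.z
        rw [h1, Units.val_pow_eq_pow_val, ← pow_mul, mul_comm e, pow_mul, hyb, he,
          mul_inv_cancel₀ yn.hz]
      · change yn.a = y.a
        have h6 : n * yn.a = n * y.a := by rw [e1, h2]
        exact Nat.eq_of_mul_eq_mul_left (Nat.pos_of_ne_zero hn0) h6
    rw [h5] at h4
    exact e3.comp h4
  -- all divisors, by induction on the cofactor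
  have hall : ∀ c d : ℕ, d * c = n → ∀ y : Vx, y.z = 1 → d * y.a = w0.a →
      Rel (ρ' * g) (upn w0 d).V y.V := by
    intro c
    induction c using Nat.strong_induction_on with
    | _ c ih =>
      intro d hdc y h1 h2
      by_cases hc1 : c = 1
      · rw [hc1, mul_one] at hdc
        rw [hdc] at h2 ⊢
        exact htop y h1 h2
      · obtain ⟨q, hq, m, rfl⟩ := Nat.exists_prime_and_dvd hc1
        have hm0 : 0 < m := Nat.pos_of_ne_zero (by
          rintro rfl
          rw [mul_zero, mul_zero] at hdc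
          exact hn0 hdc.symm)
        have hd0 : 0 < d := Nat.pos_of_ne_zero (by
          rintro rfl
          rw [zero_mul] at hdc
          exact hn0 hdc.symm)
        have hq2' := hq.two_le
        have hmlt : m < q * m := by nlinarith
        have hdq : d * q * m = n := by rw [← hdc]; ring
        have hdqa : d * q ∣ w0.a := dvd_trans ⟨m, hdq.symm⟩ (Dvd.intro b hb.symm)
        have hqa : q ∣ w0.a := dvd_trans (Dvd.intro_left d rfl) hdqa
        have hq2 := ne_two_of_dvd hodd hqa
        have hqy : q ∣ y.a := by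
          rw [← h2] at hdqa
          exact Nat.dvd_of_mul_dvd_mul_left hd0 hdqa
        obtain ⟨f, hf⟩ := hqy
        have hf0 : f ≠ 0 := by
          rintro rfl
          exact y.ha (by rw [hf, mul_zero])
        let y' : Vx := ⟨1, f, one_ne_zero, hf0⟩
        have hy' : d * q * y'.a = w0.a := by
          change d * q * f = w0.a
          rw [← h2, hf]; ring
        have h3 := ih m hmlt (d * q) hdq y' rfl hy'
        have hnb : Nb q (upn w0 (d * q)) (upn w0 d) := by
          rw [← upn_upn hd0.ne' hq.ne_zero]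
          exact (nb_upn hq.ne_zero).symm
        obtain ⟨s, h4, h5⟩ := himg d (Dvd.intro _ hdc)
        -- divisibility of the exponent of `y'`
        have hqup : q ∣ (upn w0 (d * q)).a := by
          rw [upn_a (by positivity)]
          exact dvd_mul_of_dvd_right hqa _
        have hqn : q ∣ n := ⟨d * m, by rw [← hdq]; ring⟩
        have hqf : q ∣ f := by
          have h6 : d * q * q ∣ d * q * f := by
            have h7 : d * q * f = w0.a := hy'
            rw [h7]
            exact dvd_trans (Nat.mul_dvd_mul ⟨m, hdq.symm⟩ hqn) hnn'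
          exact Nat.dvd_of_mul_dvd_mul_left (by positivity) h6
        have h6 := nb_of_rel hq hq2 hqup hqf h3 hnb h5
        have hsa : s.a = q * f := by
          have h7 : d * s.a = d * (q * f) := by
            rw [h4, ← hy']
            change d * q * f = _
            ring
          exact Nat.eq_of_mul_eq_mul_left hd0 h7
        have hfpos := Nat.pos_of_ne_zero hf0
        rcases h6 with ⟨h7, h8⟩ | ⟨-, h8⟩
        · have h9 : s = y := by
            refine Vx.ext ?_ (by rw [hsa, hf])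
            rw [h7, h1]
            exact one_pow _
          rw [← h9]
          exact h5
        · exfalso
          have h9 : f = q * s.a := h8
          rw [hsa] at h9
          nlinarith [Nat.mul_pos (Nat.pos_of_ne_zero hq.ne_zero) hfpos]
  refine ⟨(ρ' * g)⁻¹, (hgC.comp hρC).symm, fun d hd y h1 h2 => ?_⟩
  obtain ⟨c, hc⟩ := hd
  exact (hall c d hc.symm y h1 h2).symm

end Pool.Agent.Q41.RA
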