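import Pool.Agent.Q41.RA.Lin

set_option autoImplicit false

/-!
# Automorphisms of the algebraic elements, as relations
-/

namespace Pool.Agent.Q41.RA

variable {K L : Type} [Field K] [Field L] [Algebra K L]

variable (K L) in
/-- the algebraic closure of the field of algebraic elements -/
abbrev AC : Type := AlgebraicClosure (algebraicClosure K L)

variable (K L) in
/-- the automorphisms over `K` -/
abbrev GG : Type := AC K L ≃ₐ[K] AC K L

/-- the graph of an automorphism on elements of `L` -/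
def Rel (σ : GG K L) (x y : L) : Prop :=
  ∃ x' y' : algebraicClosure K L, (x' : L) = x ∧ (y' : L) = y ∧
    σ (algebraMap _ (AC K L) x') = algebraMap _ (AC K L) y'

theorem Rel.left {σ : GG K L} {x y : L} (h : Rel σ x y) : IsAlgebraic K x := by
  obtain ⟨x', y', rfl, rfl, -⟩ := h
  exact mem_algebraicClosure_iff.1 x'.2

theorem Rel.right {σ : GG K L} {x y : L} (h : Rel σ x y) : IsAlgebraic K y := by
  obtain ⟨x', y', rfl, rfl, -⟩ := h
  exact mem_algebraicClosure_iff.1 y'.2

theorem Rel.add {σ : GG K L} {x y x1 y1 : L} (h : Rel σ x y) (h1 : Rel σ x1 y1) :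
    Rel σ (x + x1) (y + y1) := by
  obtain ⟨x', y', rfl, rfl, e⟩ := h
  obtain ⟨x1', y1', rfl, rfl, e1⟩ := h1
  exact ⟨x' + x1', y' + y1', rfl, rfl, by rw [map_add, map_add, e, e1, map_add]⟩

theorem Rel.mul {σ : GG K L} {x y x1 y1 : L} (h : Rel σ x y) (h1 : Rel σ x1 y1) :
    Rel σ (x * x1) (y * y1) := by
  obtain ⟨x', y', rfl, rfl, e⟩ := h
  obtain ⟨x1', y1', rfl, rfl, e1⟩ := h1
  exact ⟨x' * x1', y' * y1', rfl, rfl, by rw [map_mul, map_mul, e, e1, map_mul]⟩

theorem Rel.neg {σ : GG K L} {x y : L} (h : Rel σ x y) : Rel σ (-x) (-y) := by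
  obtain ⟨x', y', rfl, rfl, e⟩ := h
  exact ⟨-x', -y', rfl, rfl, by rw [map_neg, map_neg, e, map_neg]⟩

theorem Rel.sub {σ : GG K L} {x y x1 y1 : L} (h : Rel σ x y) (h1 : Rel σ x1 y1) :
    Rel σ (x - x1) (y - y1) := by
  rw [sub_eq_add_neg, sub_eq_add_neg]
  exact h.add h1.neg

theorem Rel.inv {σ : GG K L} {x y : L} (h : Rel σ x y) : Rel σ x⁻¹ y⁻¹ := by
  obtain ⟨x', y', rfl, rfl, e⟩ := h
  exact ⟨x'⁻¹, y'⁻¹, rfl, rfl, by rw [map_inv₀, map_inv₀, e, map_inv₀]⟩

theorem Rel.algMap (σ : GG K L) (k : K) : Rel σ (algebraMap K L k) (algebraMap K L k) := by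
  refine ⟨algebraMap K _ k, algebraMap K _ k, rfl, rfl, ?_⟩
  rw [← IsScalarTower.algebraMap_apply]
  exact σ.commutes k

theorem Rel.zero (σ : GG K L) : Rel σ (0 : L) 0 := by
  have := Rel.algMap (L := L) σ 0
  rwa [map_zero] at this

theorem Rel.one (σ : GG K L) : Rel σ (1 : L) 1 := by
  have := Rel.algMap (L := L) σ 1
  rwa [map_one] at this

theorem Rel.pow {σ : GG K L} {x y : L} (h : Rel σ x y) (n : ℕ) : Rel σ (x ^ n) (y ^ n) := by
  induction n with
  | zero => rw [pow_zero, pow_zero]; exact Rel.one σ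
  | succ n ih => rw [pow_succ, pow_succ]; exact ih.mul h

theorem Rel.sum {σ : GG K L} {ι : Type} (s : Finset ι) (x y : ι → L)
    (h : ∀ i ∈ s, Rel σ (x i) (y i)) : Rel σ (∑ i ∈ s, x i) (∑ i ∈ s, y i) := by
  classical
  induction s using Finset.induction_on with
  | empty => rw [Finset.sum_empty, Finset.sum_empty]; exact Rel.zero σ
  | insert a s ha ih =>
    rw [Finset.sum_insert ha, Finset.sum_insert ha]
    exact (h a (Finset.mem_insert_self a s)).add
      (ih (fun i hi => h i (Finset.mem_insert_of_mem hi)))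

theorem Rel.unique {σ : GG K L} {x y y1 : L} (h : Rel σ x y) (h1 : Rel σ x y1) : y = y1 := by
  obtain ⟨x', y', rfl, rfl, e⟩ := h
  obtain ⟨x1', y1', e0, rfl, e1⟩ := h1
  have h2 : x1' = x' := Subtype.ext e0
  rw [h2, e] at e1
  have h3 := (algebraMap (algebraicClosure K L) (AC K L)).injective e1
  rw [h3]

theorem Rel.inj {σ : GG K L} {x x1 y : L} (h : Rel σ x y) (h1 : Rel σ x1 y) : x = x1 := by
  obtain ⟨x', y', rfl, rfl, e⟩ := h
  obtain ⟨x1', y1', rfl, e0, e1⟩ := h1
  have h2 : y1' = y' := Subtype.ext e0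
  rw [h2, ← e] at e1
  have h3 := (algebraMap (algebraicClosure K L) (AC K L)).injective (σ.injective e1)
  rw [h3]

theorem Rel.comp {σ τ : GG K L} {x y z : L} (h : Rel τ x y) (h1 : Rel σ y z) :
    Rel (σ * τ) x z := by
  obtain ⟨x', y', rfl, rfl, e⟩ := h
  obtain ⟨y1', z', e0, rfl, e1⟩ := h1
  have h2 : y1' = y' := Subtype.ext e0
  refine ⟨x', z', rfl, rfl, ?_⟩
  rw [AlgEquiv.mul_apply, e, ← h2, e1]

theorem Rel.symm {σ : GG K L} {x y : L} (h : Rel σ x y) : Rel σ⁻¹ y x := by
  obtain ⟨x', y', rfl, rfl, e⟩ := h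
  refine ⟨y', x', rfl, rfl, ?_⟩
  rw [← e]
  exact AlgEquiv.symm_apply_apply σ _

theorem Rel.refl_one {x : L} (h : IsAlgebraic K x) : Rel (1 : GG K L) x x :=
  ⟨⟨x, mem_algebraicClosure_iff.2 h⟩, ⟨x, mem_algebraicClosure_iff.2 h⟩, rfl, rfl, rfl⟩

/-- automorphisms of `L` extend -/
theorem exists_of_aut (r : L ≃ₐ[K] L) : ∃ σ : GG K L, ∀ x : L, IsAlgebraic K x → Rel σ x (r x) := by
  classical
  have hr : ∀ x : L, IsAlgebraic K x → IsAlgebraic K (r x) := fun x hx =>
    IsAlgebraic.algHom (r : L →ₐ[K] L) hx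
  have hr' : ∀ x : L, IsAlgebraic K x → IsAlgebraic K (r.symm x) := fun x hx =>
    IsAlgebraic.algHom (r.symm : L →ₐ[K] L) hx
  let r1 : algebraicClosure K L ≃ₐ[K] algebraicClosure K L :=
    { toFun := fun x => ⟨r x, mem_algebraicClosure_iff.2 (hr x (mem_algebraicClosure_iff.1 x.2))⟩
      invFun := fun x =>
        ⟨r.symm x, mem_algebraicClosure_iff.2 (hr' x (mem_algebraicClosure_iff.1 x.2))⟩
      left_inv := fun x => Subtype.ext (r.symm_apply_apply x)
      right_inv := fun x => Subtype.ext (r.apply_symm_apply x)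
      map_mul' := fun x y => Subtype.ext (map_mul r _ _)
      map_add' := fun x y => Subtype.ext (map_add r _ _)
      commutes' := fun k => Subtype.ext (r.commutes k) }
  have h1 : Algebra.IsAlgebraic K (AC K L) := Algebra.IsAlgebraic.trans K (algebraicClosure K L) _
  have h2 : IsAlgClosure K (AC K L) := ⟨inferInstance, h1⟩
  have h3 : Normal K (AC K L) := IsAlgClosure.normal K (AC K L)
  refine ⟨AlgEquiv.liftNormal r1 (AC K L), fun x hx => ?_⟩
  exact ⟨⟨x, mem_algebraicClosure_iff.2 hx⟩, r1 ⟨x, mem_algebraicClosure_iff.2 hx⟩, rfl, rfl,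
    AlgEquiv.liftNormal_commutes r1 (AC K L) _⟩

/-- an algebraic element fixed by all automorphisms is purely inseparable -/
theorem pow_mem_of_fixed [CharP K 2] {x : L} (hx : IsAlgebraic K x)
    (h : ∀ σ : GG K L, Rel σ x x) : ∃ e : ℕ, x ^ 2 ^ e ∈ (algebraMap K L).range := by
  classical
  have h1 : Algebra.IsAlgebraic K (AC K L) := Algebra.IsAlgebraic.trans K (algebraicClosure K L) _
  have h2 : IsAlgClosure K (AC K L) := ⟨inferInstance, h1⟩
  have h3 : Normal K (AC K L) := IsAlgClosure.normal K (AC K L)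
  have h4 : ExpChar K 2 := ExpChar.prime Nat.prime_two
  refine (minpoly.natSepDegree_eq_one_iff_pow_mem 2).1 ?_
  set x' : algebraicClosure K L := ⟨x, mem_algebraicClosure_iff.2 hx⟩ with hx'
  set w : AC K L := algebraMap _ (AC K L) x' with hw
  have h5 : minpoly K x = minpoly K w := by
    rw [hw, minpoly.algebraMap_eq (algebraMap (algebraicClosure K L) (AC K L)).injective]
    exact (minpoly.algebraMap_eq (B := algebraicClosure K L) (B' := L)
      (algebraMap (algebraicClosure K L) L).injective x')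
  rw [h5, Polynomial.natSepDegree_eq_of_isAlgClosed (AC K L)]
  have h6 : IsIntegral K w := (h1.isAlgebraic w).isIntegral
  have h7 : ((minpoly K w).aroots (AC K L)).toFinset = {w} := by
    ext y
    rw [Multiset.mem_toFinset, Finset.mem_singleton,
      Polynomial.mem_aroots, and_iff_right (minpoly.ne_zero h6)]
    constructor
    · intro hy
      obtain ⟨σ, hσ⟩ := minpoly.exists_algEquiv_of_root' (K := K) (h1.isAlgebraic w) hy
      obtain ⟨x1, x2, e1, e2, e3⟩ := h σ
      have e4 : x1 = x' := Subtype.ext e1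
      have e5 : x2 = x' := Subtype.ext e2
      rw [e4, e5, ← hw] at e3
      rw [← hσ]
      exact e3
    · rintro rfl
      exact minpoly.aeval K w
  rw [h7, Finset.card_singleton]

/-- sets with related power sums are related -/
theorem rel_sets {σ : GG K L} (S S' : Finset L) (h0 : (0 : L) ∉ S)
    (h0' : (0 : L) ∉ S') (ha : ∀ s ∈ S, IsAlgebraic K s) (ha' : ∀ s ∈ S', IsAlgebraic K s)
    (h : ∀ j : ℕ, 1 ≤ j → Rel σ (∑ s ∈ S, s ^ j) (∑ s ∈ S', s ^ j)) :
    (∀ s ∈ S, ∃ s' ∈ S', Rel σ s s') ∧ (∀ s' ∈ S', ∃ s ∈ S, Rel σ s s') := by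
  classical
  let em : L → AC K L := fun x => if hx : IsAlgebraic K x then
    algebraMap _ (AC K L) (⟨x, mem_algebraicClosure_iff.2 hx⟩ : algebraicClosure K L) else 0
  have hem : ∀ x (hx : IsAlgebraic K x), em x =
    algebraMap _ (AC K L) (⟨x, mem_algebraicClosure_iff.2 hx⟩ : algebraicClosure K L) :=
    fun x hx => dif_pos hx
  have hinj : ∀ x y, IsAlgebraic K x → IsAlgebraic K y → em x = em y → x = y := by
    intro x y hx hy hxy
    rw [hem x hx, hem y hy] at hxy
    have := (algebraMap (algebraicClosure K L) (AC K L)).injective hxy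
    exact congrArg Subtype.val this
  have hz : ∀ x, IsAlgebraic K x → em x = 0 → x = 0 := by
    intro x hx hx0
    rw [hem x hx, map_eq_zero] at hx0
    exact congrArg Subtype.val hx0
  have hrel : ∀ x y, IsAlgebraic K x → IsAlgebraic K y → σ (em x) = em y → Rel σ x y := by
    intro x y hx hy hxy
    rw [hem x hx, hem y hy] at hxy
    exact ⟨_, _, rfl, rfl, hxy⟩
  have hrel' : ∀ x y, Rel σ x y → σ (em x) = em y := by
    intro x y hxy
    have hx := hxy.left
    have hy := hxy.right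
    obtain ⟨x', y', e1, e2, e3⟩ := hxy
    rw [hem x hx, hem y hy]
    have e4 : x' = ⟨x, mem_algebraicClosure_iff.2 hx⟩ := Subtype.ext e1
    have e5 : y' = ⟨y, mem_algebraicClosure_iff.2 hy⟩ := Subtype.ext e2
    rw [← e4, ← e5]
    exact e3
  -- `em` of a power sum
  have hps : ∀ (T : Finset L) (j : ℕ), (∀ s ∈ T, IsAlgebraic K s) →
      em (∑ s ∈ T, s ^ j) = ∑ s ∈ T, em s ^ j := by
    intro T j hT
    have h1 : ∀ s ∈ T, IsAlgebraic K (s ^ j) := fun s hs => (hT s hs).pow j
    have h2 : IsAlgebraic K (∑ s ∈ T, s ^ j) := by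
      refine mem_algebraicClosure_iff.1 (sum_mem fun s hs => ?_)
      exact mem_algebraicClosure_iff.2 (h1 s hs)
    rw [hem _ h2, ← Finset.sum_attach T (fun s => em s ^ j)]
    have h3 : ∀ s ∈ T.attach, em s.1 ^ j = algebraMap _ (AC K L)
        ((⟨s.1, mem_algebraicClosure_iff.2 (hT s.1 s.2)⟩ : algebraicClosure K L) ^ j) := by
      intro s _
      rw [hem _ (hT s.1 s.2), map_pow]
    rw [Finset.sum_congr rfl h3, ← map_sum]
    congr 1
    apply Subtype.ext
    change ∑ s ∈ T, s ^ j = _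
    rw [← Finset.sum_attach T (fun s => s ^ j)]
    push_cast
    rfl
  have key : (S.image em).image σ = S'.image em := by
    apply pow_sums_eq
    · intro h1
      rw [Finset.mem_image] at h1
      obtain ⟨y, h2, h3⟩ := h1
      rw [Finset.mem_image] at h2
      obtain ⟨s, h4, rfl⟩ := h2
      rw [map_eq_zero] at h3
      exact h0 (hz s (ha s h4) h3 ▸ h4)
    · intro h1
      rw [Finset.mem_image] at h1
      obtain ⟨s, h4, h3⟩ := h1
      exact h0' (hz s (ha' s h4) h3 ▸ h4)
    · intro j hj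
      rw [Finset.sum_image (fun x _ y _ hxy => σ.injective hxy),
        Finset.sum_image (fun x hx y hy hxy => hinj x y (ha x hx) (ha y hy) hxy),
        Finset.sum_image (fun x hx y hy hxy => hinj x y (ha' x hx) (ha' y hy) hxy),
        ← hps S' j ha', ← hrel' _ _ (h j hj), hps S j ha, map_sum]
      exact Finset.sum_congr rfl fun s _ => (map_pow σ _ _).symm
  constructor
  · intro s hs
    have h1 : σ (em s) ∈ S'.image em := by
      rw [← key]
      exact Finset.mem_image_of_mem _ (Finset.mem_image_of_mem _ hs)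
    rw [Finset.mem_image] at h1
    obtain ⟨s', hs', h2⟩ := h1
    exact ⟨s', hs', hrel s s' (ha s hs) (ha' s' hs') h2.symm⟩
  · intro s' hs'
    have h1 : em s' ∈ (S.image em).image σ := by
      rw [key]
      exact Finset.mem_image_of_mem _ hs'
    rw [Finset.mem_image] at h1
    obtain ⟨y, h2, h3⟩ := h1
    rw [Finset.mem_image] at h2
    obtain ⟨s, h4, rfl⟩ := h2
    exact ⟨s, h4, hrel s s' (ha s h4) (ha' s' hs') h3⟩

end Pool.Agent.Q41.RA
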