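import Pool.Agent.Q41.RA.Gal

set_option autoImplicit false

/-!
# More on automorphisms as relations
-/

namespace Pool.Agent.Q41.RA

variable {K L : Type} [Field K] [Field L] [Algebra K L]

open Classical in
/-- the embedding of the algebraic elements, total version -/
noncomputable def em (K : Type) {L : Type} [Field K] [Field L] [Algebra K L] (x : L) : AC K L :=
  if hx : IsAlgebraic K x then
    algebraMap _ (AC K L) (⟨x, mem_algebraicClosure_iff.2 hx⟩ : algebraicClosure K L) else 0

theorem em_coe (x : algebraicClosure K L) : em K (x : L) = algebraMap _ (AC K L) x := by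
  unfold em
  rw [dif_pos (mem_algebraicClosure_iff.1 x.2)]

theorem exists_coe {x : L} (hx : IsAlgebraic K x) : ∃ x' : algebraicClosure K L, (x' : L) = x :=
  ⟨⟨x, mem_algebraicClosure_iff.2 hx⟩, rfl⟩

theorem rel_iff {σ : GG K L} {x y : L} :
    Rel σ x y ↔ IsAlgebraic K x ∧ IsAlgebraic K y ∧ σ (em K x) = em K y := by
  constructor
  · intro h
    refine ⟨h.left, h.right, ?_⟩
    obtain ⟨x', y', rfl, rfl, e⟩ := h
    rw [em_coe, em_coe, e]
  · rintro ⟨hx, hy, e⟩
    obtain ⟨x', rfl⟩ := exists_coe hx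
    obtain ⟨y', rfl⟩ := exists_coe hy
    rw [em_coe, em_coe] at e
    exact ⟨x', y', rfl, rfl, e⟩

theorem em_add {x y : L} (hx : IsAlgebraic K x) (hy : IsAlgebraic K y) :
    em K (x + y) = em K x + em K y := by
  obtain ⟨x', rfl⟩ := exists_coe hx
  obtain ⟨y', rfl⟩ := exists_coe hy
  rw [em_coe, em_coe, ← map_add, ← em_coe]
  rfl

theorem em_mul {x y : L} (hx : IsAlgebraic K x) (hy : IsAlgebraic K y) :
    em K (x * y) = em K x * em K y := by
  obtain ⟨x', rfl⟩ := exists_coe hx
  obtain ⟨y', rfl⟩ := exists_coe hy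
  rw [em_coe, em_coe, ← map_mul, ← em_coe]
  rfl

theorem em_pow {x : L} (hx : IsAlgebraic K x) (n : ℕ) : em K (x ^ n) = em K x ^ n := by
  obtain ⟨x', rfl⟩ := exists_coe hx
  rw [em_coe, ← map_pow, ← em_coe]
  rfl

theorem alg_add {x y : L} (hx : IsAlgebraic K x) (hy : IsAlgebraic K y) :
    IsAlgebraic K (x + y) := hx.add hy

theorem alg_mul {x y : L} (hx : IsAlgebraic K x) (hy : IsAlgebraic K y) :
    IsAlgebraic K (x * y) := hx.mul hy

theorem alg_sum {ι : Type} (s : Finset ι) (f : ι → L) (h : ∀ i ∈ s, IsAlgebraic K (f i)) :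
    IsAlgebraic K (∑ i ∈ s, f i) :=
  mem_algebraicClosure_iff.1 (sum_mem fun i hi => mem_algebraicClosure_iff.2 (h i hi))

theorem em_sum {ι : Type} (s : Finset ι) (f : ι → L) (h : ∀ i ∈ s, IsAlgebraic K (f i)) :
    em K (∑ i ∈ s, f i) = ∑ i ∈ s, em K (f i) := by
  classical
  induction s using Finset.induction_on with
  | empty =>
    rw [Finset.sum_empty, Finset.sum_empty]
    have := em_coe (K := K) (L := L) 0
    rw [map_zero] at this
    exact this
  | insert a s ha ih =>
    rw [Finset.sum_insert ha, Finset.sum_insert ha,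
      em_add (h a (Finset.mem_insert_self a s))
        (alg_sum s f fun i hi => h i (Finset.mem_insert_of_mem hi)),
      ih (fun i hi => h i (Finset.mem_insert_of_mem hi))]

theorem em_inj {x y : L} (hx : IsAlgebraic K x) (hy : IsAlgebraic K y)
    (h : em K x = em K y) : x = y := by
  obtain ⟨x', rfl⟩ := exists_coe hx
  obtain ⟨y', rfl⟩ := exists_coe hy
  rw [em_coe, em_coe] at h
  rw [(algebraMap (algebraicClosure K L) (AC K L)).injective h]

/-- the Vandermonde argument -/
theorem rel_vand {σ : GG K L} {ι : Type} (T : Finset ι) (u v d e : ι → L)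
    (hd : ∀ s ∈ T, IsAlgebraic K (d s)) (he : ∀ s ∈ T, IsAlgebraic K (e s))
    (hu : ∀ s ∈ T, Rel σ (u s) (v s)) (hinj : Set.InjOn u (T : Set ι))
    (h : ∀ n : ℕ, Rel σ (∑ s ∈ T, d s * u s ^ n) (∑ s ∈ T, e s * v s ^ n)) :
    ∀ s ∈ T, Rel σ (d s) (e s) := by
  classical
  have h1 := vand T (fun s => em K (v s)) (fun s => σ (em K (d s)) - em K (e s))
    (by
      intro s hs s' hs' hss
      have h2 := em_inj (hu s hs).right (hu s' hs').right hss
      have h3 := hu s' hs'
      rw [← h2] at h3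
      exact hinj hs hs' ((hu s hs).inj h3))
    (by
      intro n
      have h2 := (rel_iff.1 (h n)).2.2
      rw [em_sum _ _ (fun s hs => (hd s hs).mul ((hu s hs).left.pow n)),
        em_sum _ _ (fun s hs => (he s hs).mul ((hu s hs).right.pow n)), map_sum] at h2
      rw [← sub_eq_zero, ← Finset.sum_sub_distrib] at h2
      rw [← h2]
      refine Finset.sum_congr rfl fun s hs => ?_
      rw [em_mul (hd s hs) ((hu s hs).left.pow n), em_mul (he s hs) ((hu s hs).right.pow n),
        em_pow (hu s hs).left, em_pow (hu s hs).right, map_mul, map_pow,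
        (rel_iff.1 (hu s hs)).2.2]
      ring)
  intro s hs
  exact rel_iff.2 ⟨hd s hs, he s hs, sub_eq_zero.1 (h1 s hs)⟩

/-- quadratic equations -/
theorem rel_quad {σ : GG K L} {x x' y y' : L} (hx : IsAlgebraic K x) (hx' : IsAlgebraic K x')
    (hy : IsAlgebraic K y) (hy' : IsAlgebraic K y') (h1 : Rel σ (x + x') (y + y'))
    (h2 : Rel σ (x * x') (y * y')) :
    (Rel σ x y ∧ Rel σ x' y') ∨ (Rel σ x y' ∧ Rel σ x' y) := by
  have e1 := (rel_iff.1 h1).2.2
  have e2 := (rel_iff.1 h2).2.2
  rw [em_add hx hx', em_add hy hy', map_add] at e1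
  rw [em_mul hx hx', em_mul hy hy', map_mul] at e2
  have e3 : (σ (em K x) - em K y) * (σ (em K x) - em K y') = 0 := by
    linear_combination σ (em K x) * e1 - e2
  rcases mul_eq_zero.1 e3 with h | h
  · left
    have h3 := sub_eq_zero.1 h
    refine ⟨rel_iff.2 ⟨hx, hy, h3⟩, rel_iff.2 ⟨hx', hy', ?_⟩⟩
    rw [h3] at e1
    exact add_left_cancel e1
  · right
    have h3 := sub_eq_zero.1 h
    refine ⟨rel_iff.2 ⟨hx, hy', h3⟩, rel_iff.2 ⟨hx', hy, ?_⟩⟩
    rw [h3, add_comm (em K y)] at e1
    exact add_left_cancel e1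

theorem alg_quad {y y' : L} (h1 : IsAlgebraic K (y + y')) (h2 : IsAlgebraic K (y * y')) :
    IsAlgebraic K y := by
  obtain ⟨s, hs⟩ := exists_coe h1
  obtain ⟨p, hp⟩ := exists_coe h2
  have h3 : IsAlgebraic (algebraicClosure K L) y := by
    refine ⟨Polynomial.X ^ 2 + (Polynomial.C (-s) * Polynomial.X + Polynomial.C p), ?_, ?_⟩
    · have h4 : (Polynomial.X ^ 2 + (Polynomial.C (-s) * Polynomial.X + Polynomial.C p)).Monic :=
        Polynomial.monic_X_pow_add (lt_of_le_of_lt (Polynomial.degree_linear_le) (by norm_num))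
      exact h4.ne_zero
    · rw [map_add, map_add, map_mul, map_pow, Polynomial.aeval_X, Polynomial.aeval_C,
        Polynomial.aeval_C]
      have e1 : algebraMap (algebraicClosure K L) L (-s) = -(y + y') := by
        rw [map_neg, ← hs]; rfl
      have e2 : algebraMap (algebraicClosure K L) L p = y * y' := by
        rw [← hp]; rfl
      rw [e1, e2]
      ring
  exact IsAlgebraic.restrictScalars K h3

end Pool.Agent.Q41.RA
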