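import Pool.Agent.Q41.RA.Rt

set_option autoImplicit false

/-!
# Preparations for the main theorem
-/

namespace Pool.Agent.Q41.RA

open Pool.Agent.TH693.PP Pool.Agent.TH693.QQ Pool.Agent.H397R2.PP Pool.Agent.Y627.PT

/-- square roots modulo powers of two -/
theorem sq_lift (U W : ℤ) (hU : Odd U) (h : (8 : ℤ) ∣ U - W) (K : ℕ) :
    ∃ l : ℕ, Odd l ∧ (2 ^ (K + 3) : ℤ) ∣ (l : ℤ) ^ 2 * U - W := by
  induction K with
  | zero => exact ⟨1, odd_one, by simpa using h⟩
  | succ K ih =>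
    obtain ⟨l, hl, c, hc⟩ := ih
    rcases Int.even_or_odd' c with ⟨d, rfl | rfl⟩
    · exact ⟨l, hl, d, by rw [hc]; ring⟩
    · obtain ⟨r, hr⟩ := hl
      obtain ⟨u, hu⟩ := hU
      refine ⟨l + 2 ^ (K + 2), ?_, ?_⟩
      · exact ⟨r + 2 ^ (K + 1), by rw [hr, pow_succ 2 (K + 1)]; ring⟩
      · refine ⟨d + 1 + (2 * r * u + r + u) + 2 ^ K * U, ?_⟩
        have hl' : (l : ℤ) = 2 * r + 1 := by rw [hr]; push_cast; ring
        have h1 : (l : ℤ) * U = 2 * (2 * r * u + r + u) + 1 := by rw [hl', hu]; ring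
        push_cast
        have e1 : (2 : ℤ) ^ (K + 1 + 3) = 16 * 2 ^ K := by ring
        have e2 : (2 : ℤ) ^ (K + 3) = 8 * 2 ^ K := by ring
        have e3 : (2 : ℤ) ^ (K + 2) = 4 * 2 ^ K := by ring
        rw [e2] at hc
        rw [e1, e3]
        linear_combination hc + 8 * 2 ^ K * h1

/-- going down -/
theorem rl_down (n : ℕ) : Odd n → ∀ w y : Vx, y.z ^ n = w.z → n * y.a = w.a → Rl w n y := by
  induction n using Nat.strong_induction_on with
  | _ n ih =>
    intro hodd w y h1 h2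
    have hn0 : 0 < n := hodd.pos
    by_cases hn1 : n = 1
    · subst hn1
      have h3 : y = w := Vx.ext (by rw [← h1, pow_one]) (by rw [← h2, one_mul])
      rw [h3]
      exact Rl.base
    · obtain ⟨q, hq, m, rfl⟩ := Nat.exists_prime_and_dvd hn1
      have hm : Odd m := (Nat.odd_mul.1 hodd).2
      have hq2 : q ≠ 2 := ne_two_of_dvd hodd (Dvd.intro m rfl)
      have hlt : m < q * m := by
        have := hq.two_le
        nlinarith [hm.pos]
      have h3 := ih m hlt hm w (upn y q) (by rw [upn_z hq.ne_zero, ← pow_mul, h1])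
        (by rw [upn_a hq.ne_zero, ← h2]; ring)
      have h4 : w.a = m * q * y.a := by rw [← h2]; ring
      rw [mul_comm q m]
      exact h3.step hq hq2 ⟨y.a, h4⟩ (nb_upn hq.ne_zero).symm

/-- images of paths with another base vertex -/
theorem Rl.map2 {K : ℕ} {w0 w u : Vx} {σ : GB w0} (hσ : Cm K σ w.V u.V) {n : ℕ} {s : Vx}
    (h : Rl w n s) : n ∣ u.a → ∃ s', Rl u n s' ∧ Cm K σ s.V s'.V := by
  induction h with
  | base => exact fun _ => ⟨u, Rl.base, hσ⟩
  | step h hq hq2 hd hs ih =>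
    rename_i n q w' s
    intro hdu
    obtain ⟨u', h1, h2⟩ := ih (dvd_trans (Dvd.intro q rfl) hdu)
    have hd1 := h.dvd hd
    have hd2 := h1.dvd hdu
    obtain ⟨s', h3, h4⟩ := nb_rel hq hq2 hd1 hd2 h2.rel hs
    exact ⟨s', h1.step hq hq2 hdu h3, h2.nb hq hq2 hd1 hd2 hs h4⟩

theorem ev_ex {q : ℕ} (hq : q ≠ 0) (w : Vx) (f : S) : w.ev (ex q hq f) = (upn w q).ev f := by
  unfold Vx.ev ik ex
  rw [PowerSeries.map_expand, sub_expand w.z w.a q w.ha hq (mul_ne_zero hq w.ha)]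
  exact sub_congr (upn_z hq).symm (upn_a hq).symm _ _ _

theorem pow8 (f : S) : f ^ 8 = PowerSeries.expand 8 (by norm_num) f :=
  Pool.Agent.H397R2.PP.pow_eq_expand' 8 3 (by norm_num) (by norm_num) f

/-- the coefficients of the eighth power of a value -/
theorem coeff_ev8 (w : Vx) (f : S) (k : ℤ) (hk : (w.ev f ^ 8).coeff k ≠ 0) :
    ∃ j : ℕ, k = ((8 * w.a * j : ℕ) : ℤ) := by
  rw [← Vx.ev_pow, pow8] at hk
  obtain ⟨m, h1, h2⟩ := coeff_sub_ne _ _ _ _ _ hk
  unfold ik at h2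
  rw [PowerSeries.coeff_map, PowerSeries.coeff_expand] at h2
  by_cases h3 : 8 ∣ m
  · obtain ⟨j, rfl⟩ := h3
    exact ⟨j, by rw [h1]; push_cast; ring⟩
  · rw [if_neg h3, map_zero] at h2
    exact absurd rfl h2

theorem coeff_ev8_mul (w : Vx) (f : S) (j : ℕ) :
    (w.ev f ^ 8).coeff ((8 * w.a * j : ℕ) : ℤ) =
      w.z ^ (8 * j) * algebraMap (ZMod 2) kk (PowerSeries.coeff j f) := by
  rw [← Vx.ev_pow, pow8]
  have h := coeff_sub_mul w.z w.a w.ha (ik (PowerSeries.expand 8 (by norm_num) f)) (8 * j)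
  rw [show 8 * w.a * j = w.a * (8 * j) by ring]
  unfold Vx.ev
  rw [h]
  unfold ik
  rw [PowerSeries.coeff_map, PowerSeries.coeff_expand_mul]

theorem coeff_Cmul (c : kk) (x : LL) (n : ℤ) :
    ((HahnSeries.C c : LL) * x).coeff n = c * x.coeff n := by
  rw [HahnSeries.C_mul_eq_smul, HahnSeries.coeff_smul, smul_eq_mul]

theorem coeff_single_mul' (e : ℤ) (x : LL) (n : ℤ) :
    ((HahnSeries.single e (1 : kk) : LL) * x).coeff n = x.coeff (n - e) := by
  have h := HahnSeries.coeff_single_mul_add (r := (1 : kk)) (x := x) (a := n - e) (b := e)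
  rw [sub_add_cancel, one_mul] at h
  exact h

end Pool.Agent.Q41.RA
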