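import Pool.Agent.Q41.RA.Main0

set_option autoImplicit false

/-!
# The relation given by a vanishing progression, and its image
-/

namespace Pool.Agent.Q41.RA

open Pool.Agent.TH693.PP Pool.Agent.TH693.QQ Pool.Agent.H397R2.PP Pool.Agent.Y627.PT

/-- the vertex `(ζ ^ i, b)` -/
noncomputable def vv (ζ : kk) (hζ : ζ ≠ 0) (b : ℕ) (hb : b ≠ 0) (i : ℕ) : Vx :=
  ⟨ζ ^ i, b, pow_ne_zero _ hζ, hb⟩

theorem geom_zero {x : kk} {m : ℕ} (h : x ^ m = 1) (h1 : x ≠ 1) :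
    ∑ i ∈ Finset.range m, x ^ i = 0 := by
  have h2 := geom_sum_mul x m
  rw [h, sub_self] at h2
  exact (mul_eq_zero.1 h2).resolve_right (sub_ne_zero.2 h1)

/-- the relation -/
theorem relation {m s : ℕ} (hm : Odd m) {ζ : kk} (hζ : IsPrimitiveRoot ζ m) (hζ0 : ζ ≠ 0)
    {b : ℕ} (hb : b ≠ 0) (hbo : Odd b) (e : ℤ) (F : S) (B : ℕ)
    (hF : ∀ j : ℕ, (m : ℤ) ∣ (j : ℤ) - B → (2 ^ s : ℤ) ∣ (j : ℤ) - B →
      PowerSeries.coeff j F = 0) :
    ∑ i ∈ Finset.range m, HahnSeries.C (((ζ⁻¹) ^ (8 * B)) ^ i) *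
      pj (2 ^ (s + 3)) ((e + 8 * b * B : ℤ) : ZMod (2 ^ (s + 3)))
        (HahnSeries.single e (1 : kk) * (vv ζ hζ0 b hb i).ev F ^ 8 : LL) = 0 := by
  ext k
  rw [HahnSeries.coeff_sum, HahnSeries.coeff_zero]
  simp only [coeff_Cmul, coeff_pj, coeff_single_mul']
  by_cases hk : ((k : ℤ) : ZMod (2 ^ (s + 3))) = ((e + 8 * b * B : ℤ) : ZMod (2 ^ (s + 3)))
  swap
  · refine Finset.sum_eq_zero fun i _ => ?_
    rw [if_neg hk, mul_zero]
  simp only [if_pos hk]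
  by_cases hex : ∃ j : ℕ, k - e = ((8 * b * j : ℕ) : ℤ)
  swap
  · refine Finset.sum_eq_zero fun i _ => ?_
    have h1 : ((vv ζ hζ0 b hb i).ev F ^ 8).coeff (k - e) = 0 := by
      by_contra h2
      exact hex (coeff_ev8 _ _ _ h2)
    rw [h1, mul_zero]
  obtain ⟨j, hj⟩ := hex
  -- the class modulo `2 ^ s`
  have h2s : (2 ^ s : ℤ) ∣ (j : ℤ) - B := by
    have h1 : (((k - (e + 8 * b * B) : ℤ)) : ZMod (2 ^ (s + 3))) = 0 := by
      rw [Int.cast_sub, hk, sub_self]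
    have h2 := (ZMod.intCast_zmod_eq_zero_iff_dvd _ _).1 h1
    have h3 : k - (e + 8 * b * B) = 8 * ((b : ℤ) * ((j : ℤ) - B)) := by
      have : k = e + ((8 * b * j : ℕ) : ℤ) := by linarith
      rw [this]; push_cast; ring
    rw [h3] at h2
    have h4 : ((2 ^ (s + 3) : ℕ) : ℤ) = 8 * 2 ^ s := by push_cast; ring
    rw [h4] at h2
    have h5 := (mul_dvd_mul_iff_left (by norm_num : (8 : ℤ) ≠ 0)).1 h2
    refine IsCoprime.dvd_of_dvd_mul_left ?_ h5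
    refine IsCoprime.pow_left ?_
    obtain ⟨c, hc⟩ := hbo
    exact ⟨-c, 1, by rw [hc]; push_cast; ring⟩
  have hterm : ∀ i ∈ Finset.range m, ((ζ⁻¹) ^ (8 * B)) ^ i *
      ((vv ζ hζ0 b hb i).ev F ^ 8).coeff (k - e) =
      (ζ ^ (8 * j) * (ζ⁻¹) ^ (8 * B)) ^ i * algebraMap (ZMod 2) kk (PowerSeries.coeff j F) := by
    intro i _
    rw [hj]
    have h1 := coeff_ev8_mul (vv ζ hζ0 b hb i) F j
    have h2 : (vv ζ hζ0 b hb i).a = b := rfl
    have h3 : (vv ζ hζ0 b hb i).z = ζ ^ i := rfl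
    rw [h2, h3] at h1
    rw [h1, mul_pow, ← pow_mul ζ i, ← pow_mul ζ (8 * j), mul_comm i]
    ring
  rw [Finset.sum_congr rfl hterm, ← Finset.sum_mul]
  by_cases hx : ζ ^ (8 * j) * (ζ⁻¹) ^ (8 * B) = 1
  · have h1 : ζ ^ (((8 * j : ℕ) : ℤ) - ((8 * B : ℕ) : ℤ)) = 1 := by
      rw [zpow_sub₀ hζ0, zpow_natCast, zpow_natCast, ← hx, inv_pow, div_eq_mul_inv]
    have h3 : (m : ℤ) ∣ (j : ℤ) - B := by
      have h4 := (hζ.zpow_eq_one_iff_dvd _).1 h1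
      have h5 : ((8 * j : ℕ) : ℤ) - ((8 * B : ℕ) : ℤ) = 8 * ((j : ℤ) - B) := by push_cast; ring
      rw [h5] at h4
      refine IsCoprime.dvd_of_dvd_mul_left ?_ h4
      have h6 : IsCoprime (m : ℤ) (2 : ℤ) := by
        obtain ⟨c, hc⟩ := hm
        exact ⟨1, -c, by rw [hc]; push_cast; ring⟩
      have h7 := IsCoprime.pow_right (n := 3) h6
      norm_num at h7
      exact h7
    rw [hF j h3 h2s, map_zero, mul_zero]
  · rw [geom_zero _ hx, zero_mul]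
    have h1 : ζ⁻¹ ^ m = 1 := by rw [inv_pow, hζ.pow_eq_one, inv_one]
    rw [mul_pow, ← pow_mul, ← pow_mul, mul_comm (8 * j), mul_comm (8 * B), pow_mul ζ, pow_mul ζ⁻¹,
      hζ.pow_eq_one, h1, one_pow, one_pow, one_mul]

/-- the image of the relation -/
theorem relation_image {K : ℕ} {w0 : Vx} {τ : GB w0} {m : ℕ} (c : ZMod (2 ^ K))
    (wt : ℕ → kk) (u y : ℕ → LL) (h : ∀ i ∈ Finset.range m, Cm K τ (u i) (y i))
    (h0 : ∑ i ∈ Finset.range m, HahnSeries.C (wt i) * pj (2 ^ K) c (u i) = 0) :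
    ∑ i ∈ Finset.range m, HahnSeries.C (wt i) * pj (2 ^ K) c (y i) = 0 := by
  have h1 := Rel.sum (σ := τ) (Finset.range m)
    (fun i => HahnSeries.C (wt i) * pj (2 ^ K) c (u i))
    (fun i => HahnSeries.C (wt i) * pj (2 ^ K) c (y i))
    (fun i hi => (relC τ (wt i)).mul (h i hi c))
  rw [h0] at h1
  exact h1.unique (Rel.zero τ)

end Pool.Agent.Q41.RA
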