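import Pool.Agent.Q41.RA.Main1

set_option autoImplicit false

/-!
# Progressions on which the coefficients of `f_μ ^ α / f_1 ^ β` are even
-/

namespace Pool.Agent.Q41.RA

open Pool.Agent.TH693.PP Pool.Agent.TH693.QQ Pool.Agent.H397R2.PP Pool.Agent.Y627.PT

theorem odd_sq_sub (x : ℤ) (hx : Odd x) : (8 : ℤ) ∣ x ^ 2 - 1 := by
  obtain ⟨k, rfl⟩ := hx
  obtain ⟨c, hc⟩ := Int.even_mul_succ_self k
  exact ⟨c, by linear_combination 4 * hc⟩

theorem single_one_pow (a : ℤ) (n : ℕ) :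
    (HahnSeries.single a (1 : kk) : LL) ^ n = HahnSeries.single (n * a) 1 := by
  rw [HahnSeries.single_pow, one_pow, nsmul_eq_mul]

theorem single_one_mul (a b : ℤ) :
    (HahnSeries.single a (1 : kk) : LL) * HahnSeries.single b 1 = HahnSeries.single (a + b) 1 := by
  rw [HahnSeries.single_mul_single, one_mul]

/-- the quotient in terms of the cube roots -/
theorem quot_eq {μ α β : ℕ} (hμ0 : μ ≠ 0) (F : S) (hF : F * E ^ β = ex μ hμ0 E ^ α) (v : Vx)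
    (N : ℕ) (hv : v.a = 3 * N) :
    rt (upn v μ) ^ α * (rt v)⁻¹ ^ β =
      HahnSeries.single ((α : ℤ) * ((μ * N : ℕ) : ℤ) - β * (N : ℤ)) (1 : kk) * v.ev F ^ 8 := by
  have h1 : (upn v μ).a / 3 = μ * N := by
    rw [upn_a hμ0, hv, show μ * (3 * N) = 3 * (μ * N) by ring,
      Nat.mul_div_cancel_left _ (by norm_num)]
  have h2 : v.a / 3 = N := by rw [hv, Nat.mul_div_cancel_left _ (by norm_num)]
  have h3 : v.ev F * v.ev E ^ β = (upn v μ).ev E ^ α := by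
    rw [← ev_ex hμ0, ← Vx.ev_pow, ← Vx.ev_pow, ← Vx.ev_mul, hF]
  rw [inv_pow, ← div_eq_mul_inv, div_eq_iff (pow_ne_zero _ (rt_ne v))]
  unfold rt
  rw [h1, h2, mul_pow, mul_pow, single_one_pow, single_one_pow, ← pow_mul, ← pow_mul]
  have h4 : (HahnSeries.single ((α : ℤ) * ((μ * N : ℕ) : ℤ) - β * (N : ℤ)) (1 : kk) : LL) *
      HahnSeries.single ((β : ℤ) * (N : ℤ)) 1 =
      HahnSeries.single ((α : ℤ) * ((μ * N : ℕ) : ℤ)) 1 := by
    rw [single_one_mul, sub_add_cancel]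
  have h5 : (upn v μ).ev E ^ (8 * α) = v.ev F ^ 8 * v.ev E ^ (8 * β) := by
    rw [mul_comm 8 α, pow_mul, ← h3, mul_pow, ← pow_mul, mul_comm β]
  rw [h5, ← h4]
  ring

theorem typeA {μ α β : ℕ} (hμ : Odd μ) (hμ0 : μ ≠ 0) (hlt : α < β * μ) (hpar : Odd (α + β))
    (F : S) (hF : F * E ^ β = ex μ hμ0 E ^ α) (m s B : ℕ) (hm : Odd m)
    (hz : ∀ j : ℕ, (m : ℤ) ∣ (j : ℤ) - B → (2 ^ s : ℤ) ∣ (j : ℤ) - B →
      PowerSeries.coeff j F = 0) : False := by
  classical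
  -- the square root
  have hμz : Odd (μ : ℤ) := by exact_mod_cast hμ
  have hmz : Odd (m : ℤ) := by exact_mod_cast hm
  have hod : Odd ((α : ℤ) - β * μ) := by
    obtain ⟨c, hc⟩ := hpar
    obtain ⟨d, hd⟩ := hμ
    have hc' : (α : ℤ) + β = 2 * c + 1 := by exact_mod_cast hc
    have hd' : (μ : ℤ) = 2 * d + 1 := by exact_mod_cast hd
    exact ⟨c - β - β * d, by rw [hd']; linear_combination hc'⟩
  obtain ⟨l, hl, hl2⟩ := sq_lift ((μ : ℤ) * m ^ 2 * (α - β * μ)) ((α : ℤ) * μ - β + 24 * B)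
    ((hμz.mul (hmz.pow)).mul hod) (by
      obtain ⟨c1, h1⟩ := odd_sq_sub m hmz
      obtain ⟨c2, h2⟩ := odd_sq_sub (μ * m) (hμz.mul hmz)
      exact ⟨α * μ * c1 - β * c2 - 3 * B, by linear_combination (α : ℤ) * μ * h1 - β * h2⟩) s
  -- the base vertex
  set N : ℕ := μ * m * l with hN
  have hNo : Odd N := (hμ.mul hm).mul hl
  have hN0 : N ≠ 0 := hNo.pos.ne'
  have hml0 : m * l ≠ 0 := (hm.mul hl).pos.ne'
  let b : ℕ := 3 * N
  have hb0 : b ≠ 0 := mul_ne_zero (by norm_num) hN0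
  have hbo : Odd b := (by decide : Odd 3).mul hNo
  let a0 : ℕ := N * b
  have ha0 : a0 ≠ 0 := mul_ne_zero hN0 hb0
  let w0 : Vx := ⟨1, a0, one_ne_zero, ha0⟩
  obtain ⟨τ, hτ, hflip⟩ := exists_flip (s + 3) (w0 := w0) rfl (hNo.mul hbo) N
    ⟨3, by change N * (3 * N) = N * N * 3; ring⟩
  -- roots of unity
  have hne : NeZero ((m : ℕ) : ZMod 2) := ⟨by
    rw [Ne, ZMod.natCast_eq_zero_iff]
    exact fun h => (Nat.not_even_iff_odd.2 hm) (even_iff_two_dvd.2 h)⟩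
  have hmn : NeZero m := ⟨hm.pos.ne'⟩
  obtain ⟨ζ, hζ⟩ := HasEnoughRootsOfUnity.exists_primitiveRoot kk m
  have hζ0 : ζ ≠ 0 := hζ.ne_zero hm.pos.ne'
  -- images
  have key : ∀ i : ℕ, ∃ p' v' : Vx, ∃ κ κ' : kk, κ ≠ 0 ∧ κ' ≠ 0 ∧
      Cm (s + 3) τ (vv ζ hζ0 b hb0 i).V v'.V ∧ Cm (s + 3) τ (upn (vv ζ hζ0 b hb0 i) μ).V p'.V ∧
      Cm (s + 3) τ (rt (upn (vv ζ hζ0 b hb0 i) μ)) (HahnSeries.C κ * rt p') ∧
      Cm (s + 3) τ (rt (vv ζ hζ0 b hb0 i)) (HahnSeries.C κ' * rt v') ∧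
      v'.a ≤ μ * p'.a ∧ v'.a ≤ N * a0 ∧ (v'.a = N * a0 → v'.z = 1) ∧ 3 ∣ v'.a ∧ 3 ∣ p'.a := by
    intro i
    set v := vv ζ hζ0 b hb0 i with hv
    have hvz : v.z = ζ ^ i := rfl
    have hva : v.a = b := rfl
    have hp1 : Rl w0 (m * l) (upn v μ) := by
      refine rl_down (m * l) (hm.mul hl) w0 _ ?_ ?_
      · rw [upn_z hμ0, hvz, ← pow_mul, ← pow_mul,
          show i * (μ * (m * l)) = m * (i * μ * l) by ring, pow_mul, hζ.pow_eq_one, one_pow]
      · rw [upn_a hμ0, hva]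
        change m * l * (μ * b) = N * b
        rw [hN]; ring
    have hv1 : Rl w0 N v := by
      refine rl_down N hNo w0 _ ?_ rfl
      rw [hvz, ← pow_mul, hN, show i * (μ * m * l) = m * (i * μ * l) by ring, pow_mul,
        hζ.pow_eq_one, one_pow]
    have hpv : Rl (upn v μ) μ v := rl_down μ hμ _ _ (upn_z hμ0).symm (upn_a hμ0).symm
    obtain ⟨p', hp', hpc⟩ := hp1.map hτ
    have hdp : μ ∣ p'.a := hp'.dvd ⟨b, by change N * b = _; rw [hN]; ring⟩
    obtain ⟨v', hv', hvc⟩ := hpv.map2 hpc hdp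
    obtain ⟨v'', hv'', hvc'⟩ := hv1.map hτ
    have hvv : v'' = v' := V_inj (hvc'.rel.unique hvc.rel)
    rw [hvv] at hv''
    have h3p' : 3 ∣ p'.a := hp'.dvd ⟨μ * N, by change N * (3 * N) = _; rw [hN]; ring⟩
    have h3v' : 3 ∣ v'.a := hv''.dvd ⟨N, by change N * (3 * N) = _; ring⟩
    have h3p : 3 ∣ (upn v μ).a := by
      rw [upn_a hμ0, hva]
      exact ⟨μ * N, by change μ * (3 * N) = _; ring⟩
    obtain ⟨κ, hκ, hκc⟩ := rt_cm hpc h3p h3p'
    obtain ⟨κ', hκ', hκc'⟩ := rt_cm hvc ⟨N, rfl⟩ h3v'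
    have hle := hv'.le hdp
    have hle' := hv''.le ⟨b, rfl⟩
    refine ⟨p', v', κ, κ', hκ, hκ', hvc, hpc, hκc, hκc', hle.1, hle'.1, ?_, h3v', h3p'⟩
    intro h
    have := hle'.2 h
    rw [this]
    exact one_pow _
  choose p' v' κ κ' hκ hκ' hvc hpc hrp hrv hle hle' htop h3v h3p using key
  set v : ℕ → Vx := fun i => vv ζ hζ0 b hb0 i with hv
  -- the vertices other than the first one
  have hlow : ∀ i ∈ Finset.range m, i ≠ 0 → (v' i).a < N * a0 := by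
    intro i hi hi0
    rcases (hle' i).lt_or_eq with h | h
    · exact h
    · exfalso
      have h1 : v' i = upn w0 N := by
        refine Vx.ext ?_ ?_
        · rw [htop i h, upn_z hN0]
          exact (one_pow _).symm
        · rw [h, upn_a hN0]
      have h2 := hflip N dvd_rfl (v 0) (pow_zero ζ) rfl
      have h3 := (hvc i).rel
      rw [h1] at h3
      have h4 := congrArg Vx.z (V_inj (h3.inj h2))
      have h5 : ζ ^ i = ζ ^ 0 := h4
      exact hi0 (hζ.pow_inj (Finset.mem_range.1 hi) hm.pos h5)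
  -- the first vertex
  have hv0 : (v' 0).a = N * a0 := by
    have h2 := hflip N dvd_rfl (v 0) (pow_zero ζ) rfl
    have h4 := congrArg Vx.a (V_inj ((hvc 0).rel.unique h2))
    rw [h4, upn_a hN0]
  have hp0 : (p' 0).a = m * l * a0 := by
    have h2 := hflip (m * l) ⟨μ, by rw [hN]; ring⟩ (upn (v 0) μ)
      (by rw [upn_z hμ0]
          change (ζ ^ 0) ^ μ = 1
          rw [pow_zero, one_pow])
      (by rw [upn_a hμ0]
          change m * l * (μ * b) = N * b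
          rw [hN]; ring)
    have h4 := congrArg Vx.a (V_inj ((hpc 0).rel.unique h2))
    rw [h4, upn_a hml0]
  -- the relation
  have hrel := relation (s := s) hm hζ hζ0 hb0 hbo
    ((α : ℤ) * ((μ * N : ℕ) : ℤ) - β * (N : ℤ)) F B hz
  have hu : ∀ i, (HahnSeries.single ((α : ℤ) * ((μ * N : ℕ) : ℤ) - β * (N : ℤ)) (1 : kk) *
      (vv ζ hζ0 b hb0 i).ev F ^ 8 : LL) = rt (upn (v i) μ) ^ α * (rt (v i))⁻¹ ^ β :=
    fun i => (quot_eq hμ0 F hF (v i) N rfl).symm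
  simp only [hu] at hrel
  have himg := relation_image _ (fun i => ((ζ⁻¹) ^ (8 * B)) ^ i) _
    (fun i => (HahnSeries.C (κ i) * rt (p' i)) ^ α * (HahnSeries.C (κ' i) * rt (v' i))⁻¹ ^ β)
    (fun i _ => ((hrp i).pow α).mul ((hrv i).inv.pow β)) hrel
  -- leading terms
  have hLT : ∀ i, LT ((α : ℤ) * (((p' i).a / 3 : ℕ) : ℤ) - β * (((v' i).a / 3 : ℕ) : ℤ))
      ((κ i * 1) ^ α * (κ' i * 1)⁻¹ ^ β)
      ((HahnSeries.C (κ i) * rt (p' i)) ^ α * (HahnSeries.C (κ' i) * rt (v' i))⁻¹ ^ β) := by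
    intro i
    have h1 := ((LT_C (κ i)).mul (LT_rt (p' i))).pow α
    have h2 := (((LT_C (κ' i)).mul (LT_rt (v' i))).inv
      (mul_ne_zero (hκ' i) one_ne_zero)).pow β
    have h3 := h1.mul h2
    rw [zero_add, zero_add] at h3
    rw [sub_eq_add_neg, ← mul_neg]
    exact h3
  set e0 : ℤ := (α : ℤ) * ((m * l * (N * N) : ℕ) : ℤ) - β * ((N * (N * N) : ℕ) : ℤ) with he0
  have hq : ∀ x : ℕ, 3 ∣ x → (3 : ℤ) * ((x / 3 : ℕ) : ℤ) = x := by
    intro x hx
    exact_mod_cast Nat.mul_div_cancel' hx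
  have hexp0 : (α : ℤ) * (((p' 0).a / 3 : ℕ) : ℤ) - β * (((v' 0).a / 3 : ℕ) : ℤ) = e0 := by
    have h1 : (p' 0).a / 3 = m * l * (N * N) := by
      rw [hp0]
      have : m * l * a0 = 3 * (m * l * (N * N)) := by change m * l * (N * (3 * N)) = _; ring
      rw [this, Nat.mul_div_cancel_left _ (by norm_num)]
    have h2 : (v' 0).a / 3 = N * (N * N) := by
      rw [hv0]
      have : N * a0 = 3 * (N * (N * N)) := by change N * (N * (3 * N)) = _; ring
      rw [this, Nat.mul_div_cancel_left _ (by norm_num)]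
    rw [h1, h2]
  have hexpi : ∀ i ∈ Finset.range m, i ≠ 0 →
      e0 < (α : ℤ) * (((p' i).a / 3 : ℕ) : ℤ) - β * (((v' i).a / 3 : ℕ) : ℤ) := by
    intro i hi hi0
    have h1 := hq _ (h3p i)
    have h2 := hq _ (h3v i)
    have h3 : ((v' i).a : ℤ) < N * a0 := by exact_mod_cast hlow i hi hi0
    have h4 : ((v' i).a : ℤ) ≤ μ * (p' i).a := by exact_mod_cast hle i
    have hlt' : (α : ℤ) < β * μ := by exact_mod_cast hlt
    have hμp : (0 : ℤ) < μ := by exact_mod_cast hμ.pos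
    have h5 : (3 * μ : ℤ) * e0 = (α - β * μ) * (N * a0) := by
      rw [he0]
      have h6 : (a0 : ℤ) = N * (3 * N) := by change ((N * (3 * N) : ℕ) : ℤ) = _; push_cast; ring
      have h7 : (N : ℤ) = μ * m * l := by rw [hN]; push_cast; ring
      rw [h6]
      push_cast
      linear_combination (-3 * (α : ℤ) * N ^ 2) * h7
    have h8 : (3 * μ : ℤ) * ((α : ℤ) * (((p' i).a / 3 : ℕ) : ℤ) - β * (((v' i).a / 3 : ℕ) : ℤ)) =
        α * (μ * (p' i).a) - β * μ * (v' i).a := by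
      linear_combination (α : ℤ) * μ * h1 - β * μ * h2
    have h9 : (α - β * μ : ℤ) * (N * a0) < α * (μ * (p' i).a) - β * μ * (v' i).a := by
      have h10 : (α : ℤ) * (v' i).a ≤ α * (μ * (p' i).a) :=
        mul_le_mul_of_nonneg_left h4 (Int.natCast_nonneg _)
      nlinarith
    rw [← h5, ← h8] at h9
    exact lt_of_mul_lt_mul_left h9 (by positivity)
  -- the class of the exponent
  have hcls : ((e0 : ℤ) : ZMod (2 ^ (s + 3))) =
      (((α : ℤ) * ((μ * N : ℕ) : ℤ) - β * (N : ℤ) + 8 * b * B : ℤ) : ZMod (2 ^ (s + 3))) := by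
    rw [← sub_eq_zero, ← Int.cast_sub, ZMod.intCast_zmod_eq_zero_iff_dvd]
    obtain ⟨c, hc⟩ := hl2
    refine ⟨N * c, ?_⟩
    have h7 : (N : ℤ) = μ * m * l := by rw [hN]; push_cast; ring
    have h8 : (b : ℤ) = 3 * N := by change ((3 * N : ℕ) : ℤ) = _; push_cast; ring
    rw [he0, h8]
    push_cast
    have h9 : (m : ℤ) * l * (N * N) * α - β * (N * (N * N)) =
        N * ((l : ℤ) ^ 2 * ((μ : ℤ) * m ^ 2 * (α - β * μ))) := by
      rw [h7]; ring
    linear_combination h9 + (N : ℤ) * hc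
  -- the coefficient
  have hcoef := congrArg (fun x : LL => x.coeff e0) himg
  simp only [HahnSeries.coeff_sum, coeff_Cmul, coeff_pj, HahnSeries.coeff_zero] at hcoef
  rw [Finset.sum_eq_single 0] at hcoef
  · rw [if_pos hcls, pow_zero, one_mul] at hcoef
    have h1 := (hLT 0).1
    rw [hexp0] at h1
    rw [h1] at hcoef
    exact mul_ne_zero (pow_ne_zero _ (mul_ne_zero (hκ 0) one_ne_zero))
      (pow_ne_zero _ (inv_ne_zero (mul_ne_zero (hκ' 0) one_ne_zero))) hcoef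
  · intro i hi hi0
    rw [(hLT i).2 _ (hexpi i hi hi0), if_pos hcls, mul_zero]
  · intro h
    exact absurd (Finset.mem_range.2 hm.pos) h

end Pool.Agent.Q41.RA
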