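import Pool.Agent.Q41.RA.MainA

set_option autoImplicit false

/-!
# Progressions on which the coefficients of `f_1 ^ 2 / f_3` are even
-/

namespace Pool.Agent.Q41.RA

open Pool.Agent.TH693.PP Pool.Agent.TH693.QQ Pool.Agent.H397R2.PP Pool.Agent.Y627.PT

/-- the images of the cube roots, with the cube of the constant -/
theorem rt_cm3 {K : ℕ} {w0 w w' : Vx} {σ : GB w0} (h : Cm K σ w.V w'.V) (hw : 3 ∣ w.a)
    (hw' : 3 ∣ w'.a) : ∃ κ : kk, κ ^ 3 = w.z⁻¹ * w'.z ∧
      Cm K σ (rt w) (HahnSeries.C κ * rt w') := by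
  obtain ⟨κ, hκ, hc⟩ := rt_cm h hw hw'
  refine ⟨κ, ?_, hc⟩
  have h1 := hc.rel.pow 3
  have h2 : Rel σ (rt w ^ 3) (HahnSeries.C w.z⁻¹ * w'.V) := by
    rw [rt_cube hw]
    exact (relC σ _).mul h.rel
  have h3 := h1.unique h2
  rw [mul_pow, rt_cube hw', ← mul_assoc, ← map_pow, ← map_mul] at h3
  have h4 := mul_right_cancel₀ w'.V_ne h3
  have h5 := (HahnSeries.C_injective (Γ := ℤ) (R := kk)) h4
  have hz := w'.hz
  field_simp at h5 ⊢
  linear_combination h5

theorem coeff_G (n : ℕ) (hn : PowerSeries.coeff n (Db + ex 9 (by norm_num) Db) ≠ 0) :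
    n % 3 = 1 := by
  classical
  have hD : ∀ k : ℕ, PowerSeries.coeff k Db =
      if Pool.Agent.H397R2.PP.TH.isOdd k then (1 : ZMod 2) else 0 := by
    intro k
    rw [Pool.Agent.H397R2.PP.TH.Db_ind, Pool.Agent.H397R2.PP.TH.coeff_ind]
  unfold ex at hn
  rw [map_add, PowerSeries.coeff_expand, hD] at hn
  by_cases h1 : Pool.Agent.H397R2.PP.TH.isOdd n
  · rw [if_pos h1] at hn
    obtain ⟨i, hi⟩ := h1
    by_cases h3 : 3 ∣ 2 * i + 1
    · exfalso
      obtain ⟨c, hc⟩ := h3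
      have hco : c % 2 = 1 := by omega
      have h9 : n = 9 * c ^ 2 := by rw [hi, hc]; ring
      have hodd : Pool.Agent.H397R2.PP.TH.isOdd (n / 9) := by
        rw [h9, Nat.mul_div_cancel_left _ (by norm_num)]
        exact ⟨c / 2, by congr 1; omega⟩
      rw [if_pos ⟨c ^ 2, h9⟩, hD, if_pos hodd] at hn
      exact hn (by decide)
    · rw [hi]
      have h4 : (2 * i + 1) % 3 = 1 ∨ (2 * i + 1) % 3 = 2 := by omega
      rcases h4 with h4 | h4 <;> rw [Nat.pow_mod, h4]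
  · exfalso
    rw [if_neg h1, zero_add] at hn
    by_cases h9 : 9 ∣ n
    · rw [if_pos h9, hD] at hn
      obtain ⟨c, hc⟩ := h9
      rw [hc, Nat.mul_div_cancel_left _ (by norm_num)] at hn
      by_cases h2 : Pool.Agent.H397R2.PP.TH.isOdd c
      · obtain ⟨i, hi⟩ := h2
        exact h1 ⟨3 * i + 1, by rw [hc, hi]; ring⟩
      · rw [if_neg h2] at hn
        exact hn rfl
    · rw [if_neg h9] at hn
      exact hn rfl

/-- the part of `D` in the exponents prime to three -/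
theorem V_three (v : Vx) (ω : kk) (hω : ω ^ 3 = 1) (v' : Vx) (hz : v'.z = v.z * ω)
    (ha : v'.a = v.a) (u : Vx) (huz : u.z = v.z ^ 9) (hua : u.a = 9 * v.a) :
    v'.V + u.V = HahnSeries.C ω * (v.V + u.V) := by
  have h9 : (9 : ℕ) ≠ 0 := by norm_num
  have hu : upn v 9 = u := Vx.ext (by rw [upn_z h9, huz]) (by rw [upn_a h9, hua])
  have hu' : upn v' 9 = u := by
    refine Vx.ext ?_ ?_
    · rw [upn_z h9, hz, huz, mul_pow, show (9 : ℕ) = 3 * 3 by norm_num, pow_mul ω, hω, one_pow,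
        mul_one]
    · rw [upn_a h9, ha, hua]
  have e1 : v.V + u.V = v.ev (Db + ex 9 h9 Db) := by
    rw [Vx.ev_add, ev_ex h9, hu]; rfl
  have e2 : v'.V + u.V = v'.ev (Db + ex 9 h9 Db) := by
    rw [Vx.ev_add, ev_ex h9, hu']; rfl
  rw [e1, e2]
  unfold Vx.ev
  apply sub_ext
  · intro n
    rw [coeff_Cmul]
    have h1 := coeff_sub_mul v.z v.a v.ha (ik (Db + ex 9 h9 Db)) n
    have h2 : v'.a * n = v.a * n := by rw [ha]
    rw [h2, coeff_sub_mul, hz, mul_pow]
    by_cases hn : PowerSeries.coeff n (Db + ex 9 h9 Db) = 0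
    · unfold ik
      rw [PowerSeries.coeff_map, hn, map_zero]
      ring
    · have h3 := coeff_G n hn
      have h4 : ω ^ n = ω := by
        conv_lhs => rw [← Nat.div_add_mod n 3]
        rw [h3, pow_add, pow_mul, hω, one_pow, one_mul, pow_one]
      rw [h4]
      ring
  · intro n hn
    rw [coeff_Cmul] at hn
    obtain ⟨m, h1, -⟩ := coeff_sub_ne _ _ _ _ _ (right_ne_zero_of_mul hn)
    exact ⟨m, by rw [h1, ha]⟩

/-- the quotient in terms of the cube roots -/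
theorem quot_eqB {h3 : (3 : ℕ) ≠ 0} (F : S) (hF : F * ex 3 h3 E = E ^ 2) (v : Vx)
    (N : ℕ) (hv : v.a = 3 * N) :
    rt v ^ 2 * (rt (upn v 3))⁻¹ =
      HahnSeries.single (-(N : ℤ)) (1 : kk) * v.ev F ^ 8 := by
  have h1 : (upn v 3).a / 3 = 3 * N := by
    rw [upn_a h3, hv, Nat.mul_div_cancel_left _ (by norm_num)]
  have h2 : v.a / 3 = N := by rw [hv, Nat.mul_div_cancel_left _ (by norm_num)]
  have h4 : v.ev F * (upn v 3).ev E = v.ev E ^ 2 := by
    rw [← ev_ex h3, ← Vx.ev_pow, ← Vx.ev_mul, hF]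
  rw [← div_eq_mul_inv, div_eq_iff (rt_ne _)]
  unfold rt
  rw [h1, h2, mul_pow, single_one_pow, ← pow_mul]
  have h5 : (HahnSeries.single (-(N : ℤ)) (1 : kk) : LL) * HahnSeries.single ((3 * N : ℕ) : ℤ) 1 =
      HahnSeries.single (((2 : ℕ) : ℤ) * (N : ℤ)) 1 := by
    have h7 : -(N : ℤ) + ((3 * N : ℕ) : ℤ) = ((2 : ℕ) : ℤ) * (N : ℤ) := by push_cast; ring
    rw [single_one_mul, h7]
  have h6 : v.ev E ^ (8 * 2) = v.ev F ^ 8 * (upn v 3).ev E ^ 8 := by
    rw [mul_comm 8 2, pow_mul, ← h4, mul_pow]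
  rw [h6, ← h5]
  ring

theorem final_contra {w1 w2 k1 k2 c1 c2 ω : kk} (h2 : (2 : kk) = 0) (hω : ω ^ 2 + ω + 1 = 0)
    (heq : w1 * (k1 ^ 2 * c1⁻¹) = w2 * (k2 ^ 2 * c2⁻¹)) (hw1 : w1 ^ 3 = 1) (hw2 : w2 ^ 3 = 1)
    (hc1 : c1 ^ 3 = 1) (hc2 : c2 ^ 3 = 1) (hk1 : k1 ^ 3 = ω⁻¹ * (1 + ω))
    (hk2 : k2 ^ 3 = (ω ^ 2)⁻¹ * (1 + ω ^ 2)) : False := by
  have h3 : ω ^ 3 = 1 := by linear_combination (ω - 1) * hω
  have hi : ω⁻¹ = ω ^ 2 := inv_eq_of_mul_eq_one_right (by linear_combination h3)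
  have hi2 : (ω ^ 2)⁻¹ = ω := inv_eq_of_mul_eq_one_right (by linear_combination h3)
  have e1 : k1 ^ 3 = ω := by
    rw [hk1, hi]
    linear_combination h3 + hω - ω * h2
  have e2 : k2 ^ 3 = ω ^ 2 := by
    rw [hk2, hi2]
    linear_combination h3 + hω - ω ^ 2 * h2
  have e3 := congrArg (fun x : kk => x ^ 3) heq
  have e4 : ∀ w k c : kk, w ^ 3 = 1 → c ^ 3 = 1 → (w * (k ^ 2 * c⁻¹)) ^ 3 = (k ^ 3) ^ 2 := by
    intro w k c hw hc
    rw [mul_pow, mul_pow, hw, inv_pow, hc, inv_one]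
    ring
  simp only [e4 _ _ _ hw1 hc1, e4 _ _ _ hw2 hc2, e1, e2] at e3
  have e5 : (1 : kk) = 0 := by
    linear_combination (-1 : kk) * e3 - ω * h3 + hω - ω * h2
  exact one_ne_zero e5

theorem typeB {h3 : (3 : ℕ) ≠ 0} (F : S) (hF : F * ex 3 h3 E = E ^ 2) (m s B : ℕ) (hm : Odd m)
    (hm3 : 3 ∣ m)
    (hz : ∀ j : ℕ, (m : ℤ) ∣ (j : ℤ) - B → (2 ^ s : ℤ) ∣ (j : ℤ) - B →
      PowerSeries.coeff j F = 0) : False := by
  classical
  -- the square root
  have hmz : Odd (m : ℤ) := by exact_mod_cast hm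
  obtain ⟨l, hl, hl2⟩ := sq_lift ((m : ℤ) ^ 2) (1 - 24 * B) hmz.pow (by
      obtain ⟨c1, h1⟩ := odd_sq_sub m hmz
      exact ⟨c1 + 3 * B, by linear_combination h1⟩) s
  -- the base vertex
  have ho3 : Odd 3 := by decide
  set N : ℕ := 3 * m * l with hN
  have hNo : Odd N := (ho3.mul hm).mul hl
  have hN0 : N ≠ 0 := hNo.pos.ne'
  have hml : Odd (m * l) := hm.mul hl
  have hml0 : m * l ≠ 0 := hml.pos.ne'
  let b : ℕ := 3 * N
  have hb0 : b ≠ 0 := mul_ne_zero (by norm_num) hN0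
  have hbo : Odd b := ho3.mul hNo
  let a0 : ℕ := N * b
  have ha0 : a0 ≠ 0 := mul_ne_zero hN0 hb0
  let w0 : Vx := ⟨1, a0, one_ne_zero, ha0⟩
  obtain ⟨τ, hτ, hflip⟩ := exists_flip (s + 3) (w0 := w0) rfl (hNo.mul hbo) N
    ⟨3, by change N * (3 * N) = N * N * 3; ring⟩
  -- roots of unity
  have hne : NeZero ((m : ℕ) : ZMod 2) := ⟨by
    rw [Ne, ZMod.natCast_eq_zero_iff]
    exact fun h => (Nat.not_even_iff_odd.2 hm) (even_iff_two_dvd.2 h)⟩
  have hmn : NeZero m := ⟨hm.pos.ne'⟩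
  obtain ⟨ζ, hζ⟩ := HasEnoughRootsOfUnity.exists_primitiveRoot kk m
  have hζ0 : ζ ≠ 0 := hζ.ne_zero hm.pos.ne'
  obtain ⟨h, hh⟩ := hm3
  have hh0 : 0 < h := Nat.pos_of_ne_zero (by
    rintro rfl
    rw [mul_zero] at hh
    exact hm.pos.ne' hh)
  set ω : kk := ζ ^ h with hωdef
  have hωp : IsPrimitiveRoot ω 3 := hζ.pow hm.pos (by rw [hh, mul_comm])
  have hω3 : ω ^ 3 = 1 := hωp.pow_eq_one
  have hω1 : ω ≠ 1 := hωp.ne_one (by norm_num)
  have hω0 : ω ≠ 0 := pow_ne_zero _ hζ0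
  have hωq : ω ^ 2 + ω + 1 = 0 := by
    have h5 : (ω - 1) * (ω ^ 2 + ω + 1) = 0 := by linear_combination hω3
    exact (mul_eq_zero.1 h5).resolve_left (sub_ne_zero.2 hω1)
  have htwo : (2 : kk) = 0 := by
    have hch := charP_LL
    have h5 : CharP kk 2 := inferInstance
    exact CharP.cast_eq_zero kk 2
  -- images
  have key : ∀ i : ℕ, ∃ p' v' : Vx, ∃ κ κ' : kk,
      κ ^ 3 = (upn (vv ζ hζ0 b hb0 i) 3).z⁻¹ * p'.z ∧
      κ' ^ 3 = (vv ζ hζ0 b hb0 i).z⁻¹ * v'.z ∧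
      Cm (s + 3) τ (vv ζ hζ0 b hb0 i).V v'.V ∧ Cm (s + 3) τ (upn (vv ζ hζ0 b hb0 i) 3).V p'.V ∧
      Cm (s + 3) τ (rt (upn (vv ζ hζ0 b hb0 i) 3)) (HahnSeries.C κ * rt p') ∧
      Cm (s + 3) τ (rt (vv ζ hζ0 b hb0 i)) (HahnSeries.C κ' * rt v') ∧
      Nb 3 p' v' ∧ p'.a ≤ m * l * a0 ∧ (p'.a = m * l * a0 → p'.z = 1) ∧ 3 ∣ v'.a ∧ 3 ∣ p'.a := by
    intro i
    set v := vv ζ hζ0 b hb0 i with hv
    have hvz : v.z = ζ ^ i := rfl
    have hva : v.a = b := rfl
    have hp1 : Rl w0 (m * l) (upn v 3) := by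
      refine rl_down (m * l) hml w0 _ ?_ ?_
      · rw [upn_z h3, hvz, ← pow_mul, ← pow_mul,
          show i * (3 * (m * l)) = m * (i * 3 * l) by ring, pow_mul, hζ.pow_eq_one, one_pow]
      · rw [upn_a h3, hva]
        change m * l * (3 * b) = N * b
        rw [hN]; ring
    have hv1 : Rl w0 N v := by
      refine rl_down N hNo w0 _ ?_ rfl
      rw [hvz, ← pow_mul, hN, show i * (3 * m * l) = m * (i * 3 * l) by ring, pow_mul,
        hζ.pow_eq_one, one_pow]
    obtain ⟨p', hp', hpc⟩ := hp1.map hτ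
    obtain ⟨v', hv', hvc⟩ := hv1.map hτ
    have h3p' : 3 ∣ p'.a := hp'.dvd ⟨3 * N, by change N * (3 * N) = _; rw [hN]; ring⟩
    have h3v' : 3 ∣ v'.a := hv'.dvd ⟨N, by change N * (3 * N) = _; ring⟩
    have h3p : 3 ∣ (upn v 3).a := by
      rw [upn_a h3]
      exact Dvd.intro _ rfl
    obtain ⟨κ, hκ, hκc⟩ := rt_cm3 hpc h3p h3p'
    obtain ⟨κ', hκ', hκc'⟩ := rt_cm3 hvc ⟨N, rfl⟩ h3v'
    have hle := hp'.le ⟨3 * b, by change N * b = _; rw [hN]; ring⟩
    have hnb := nb_of_rel Nat.prime_three (by norm_num) h3p h3p' hpc.rel (nb_upn h3).symm hvc.rel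
    refine ⟨p', v', κ, κ', hκ, hκ', hvc, hpc, hκc, hκc', hnb, hle.1, ?_, h3v', h3p'⟩
    intro h
    have := hle.2 h
    rw [this]
    exact one_pow _
  choose p' v' κ κ' hκ hκ' hvc hpc hrp hrv hnb hle htop h3v h3p using key
  set v : ℕ → Vx := fun i => vv ζ hζ0 b hb0 i with hv
  -- nonvanishing of the constants
  have hκ0 : ∀ i, κ i ≠ 0 := by
    intro i h0
    have h5 := hκ i
    rw [h0, zero_pow (by norm_num)] at h5
    exact mul_ne_zero (inv_ne_zero (upn (vv ζ hζ0 b hb0 i) 3).hz) (p' i).hz h5.symm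
  have hκ'0 : ∀ i, κ' i ≠ 0 := by
    intro i h0
    have h5 := hκ' i
    rw [h0, zero_pow (by norm_num)] at h5
    exact mul_ne_zero (inv_ne_zero (vv ζ hζ0 b hb0 i).hz) (v' i).hz h5.symm
  -- the first vertex goes to the top
  have hv0 : v' 0 = upn w0 N := V_inj ((hvc 0).rel.unique (hflip N dvd_rfl (v 0) (pow_zero ζ) rfl))
  have hflipp : Rel τ (upn (v 0) 3).V (upn w0 (m * l)).V := by
    refine hflip (m * l) ⟨3, by rw [hN]; ring⟩ (upn (v 0) 3) ?_ ?_
    · rw [upn_z h3]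
      change (ζ ^ 0) ^ 3 = 1
      rw [pow_zero, one_pow]
    · rw [upn_a h3]
      change m * l * (3 * b) = N * b
      rw [hN]; ring
  -- the vertices over the top
  have hover : ∀ i ∈ Finset.range m, (p' i).a = m * l * a0 → i = 0 ∨ i = h ∨ i = 2 * h := by
    intro i hi hpa
    have h1 : p' i = upn w0 (m * l) := by
      refine Vx.ext ?_ ?_
      · rw [htop i hpa, upn_z hml0]
        exact (one_pow _).symm
      · rw [hpa, upn_a hml0]
    have h4 := (hpc i).rel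
    rw [h1] at h4
    have h5 := congrArg Vx.z (V_inj (h4.inj hflipp))
    rw [upn_z h3, upn_z h3] at h5
    have h6 : (ζ ^ i) ^ 3 = (ζ ^ 0) ^ 3 := h5
    rw [pow_zero, one_pow, ← pow_mul] at h6
    have h7 := hζ.dvd_of_pow_eq_one _ h6
    have h8 := Finset.mem_range.1 hi
    obtain ⟨c, hc⟩ := h7
    rw [hh] at hc h8
    have h9 : i = h * c := by
      have : i * 3 = h * c * 3 := by rw [hc]; ring
      exact Nat.eq_of_mul_eq_mul_right (by norm_num) this
    have h10 : c < 3 := by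
      by_contra h11
      push Not at h11
      have : h * 3 ≤ h * c := Nat.mul_le_mul_left h h11
      omega
    interval_cases c
    · left; rw [h9, mul_zero]
    · right; left; rw [h9, mul_one]
    · right; right; rw [h9]; ring
  -- the vertex `(1, 9 b)`
  have hdh : N = m * l / 3 * 9 := by
    have : m * l = 3 * (h * l) := by rw [hh]; ring
    rw [this, Nat.mul_div_cancel_left _ (by norm_num), hN, hh]
    ring
  let u : Vx := ⟨1, 9 * b, one_ne_zero, mul_ne_zero (by norm_num) hb0⟩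
  have hhl0 : h * l ≠ 0 := mul_ne_zero hh0.ne' hl.pos.ne'
  have hfu : Rel τ u.V (upn w0 (h * l)).V := by
    refine hflip (h * l) ⟨9, by rw [hN, hh]; ring⟩ u rfl ?_
    change h * l * (9 * b) = N * b
    rw [hN, hh]; ring
  -- the images of the other two vertices over the top
  have hother : ∀ e : ℕ, e = 1 ∨ e = 2 → (v' (e * h)).z = 1 + ω ^ e ∧
      (v' (e * h)).a = h * l * a0 := by
    intro e he
    have hvz : (v (e * h)).z = ω ^ e := by
      change ζ ^ (e * h) = (ζ ^ h) ^ e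
      rw [← pow_mul, mul_comm]
    have hωe : (ω ^ e) ^ 3 = 1 := by rw [← pow_mul, mul_comm, pow_mul, hω3, one_pow]
    have hωe1 : ω ^ e ≠ 1 := by
      rcases he with rfl | rfl
      · rwa [pow_one]
      · intro h5
        apply hω1
        have : ω ^ 3 = ω ^ 2 * ω := by ring
        rw [hω3, h5, one_mul] at this
        exact this.symm
    -- the parent goes to the top
    have hpar : upn (v (e * h)) 3 = upn (v 0) 3 := by
      refine Vx.ext ?_ rfl
      rw [upn_z h3, upn_z h3, hvz, hωe]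
      change 1 = (ζ ^ 0) ^ 3
      rw [pow_zero, one_pow]
    have hp2 : p' (e * h) = upn w0 (m * l) := by
      have h4 := (hpc (e * h)).rel
      have h5 : Rel τ (upn (v (e * h)) 3).V (upn w0 (m * l)).V := by rw [hpar]; exact hflipp
      exact V_inj (h4.unique h5)
    have hnb2 := hnb (e * h)
    rw [hp2] at hnb2
    have hlow : (v' (e * h)).a = h * l * a0 := by
      rcases hnb2 with ⟨g1, g2⟩ | ⟨g1, g2⟩
      · exfalso
        have g3 : v' (e * h) = v' 0 := by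
          rw [hv0]
          refine Vx.ext ?_ ?_
          · rw [g1, upn_z hml0, upn_z hN0]
            change ((1 : kk) ^ (m * l)) ^ 3 = 1 ^ N
            rw [one_pow, one_pow, one_pow]
          · rw [g2, upn_a hml0, upn_a hN0, hN]; ring
        have g4 := (hvc (e * h)).rel
        rw [g3] at g4
        have g5 := congrArg Vx.z (V_inj (g4.inj (hvc 0).rel))
        have g6 : (v (e * h)).z = ζ ^ 0 := g5
        rw [hvz, pow_zero] at g6
        exact hωe1 g6
      · rw [upn_a hml0] at g2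
        have g3 : 3 * (v' (e * h)).a = 3 * (h * l * a0) := by
          rw [← g2, hh]
          change 3 * h * l * a0 = _
          ring
        exact Nat.eq_of_mul_eq_mul_left (by norm_num) g3
    refine ⟨?_, hlow⟩
    -- the identity
    have hid := V_three (v 0) (ω ^ e) hωe (v (e * h)) (by
      rw [hvz]
      change ω ^ e = ζ ^ 0 * ω ^ e
      rw [pow_zero, one_mul]) rfl u (by
      change (1 : kk) = (ζ ^ 0) ^ 9
      rw [pow_zero, one_pow]) rfl
    have h5 := (hvc (e * h)).rel.add hfu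
    have h6 : Rel τ (HahnSeries.C (ω ^ e) * ((v 0).V + u.V))
        (HahnSeries.C (ω ^ e) * ((v' 0).V + (upn w0 (h * l)).V)) :=
      (relC τ _).mul ((hvc 0).rel.add hfu)
    rw [← hid] at h6
    have h7 := h5.unique h6
    have h8 := congrArg (fun x : LL => x.coeff ((h * l * a0 : ℕ) : ℤ)) h7
    simp only [HahnSeries.coeff_add, coeff_Cmul] at h8
    have g1 := (v' (e * h)).LT_V.1
    rw [hlow] at g1
    have g2 := (upn w0 (h * l)).LT_V.1
    rw [upn_a hhl0] at g2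
    have g3 : (v' 0).V.coeff ((h * l * a0 : ℕ) : ℤ) = 0 := by
      apply (v' 0).LT_V.2
      rw [hv0, upn_a hN0]
      have : h * l * a0 < N * a0 := by
        apply Nat.mul_lt_mul_of_pos_right _ (Nat.pos_of_ne_zero ha0)
        rw [hN, hh]
        nlinarith [Nat.pos_of_ne_zero hhl0]
      exact_mod_cast this
    have g4 : (upn w0 (h * l)).z = 1 := by
      rw [upn_z hhl0]
      exact one_pow _
    rw [g4] at g2
    have g5 : (upn w0 (h * l)).V.coeff ((h * l * a0 : ℕ) : ℤ) = 1 := g2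
    rw [g1, g5, g3, zero_add, mul_one] at h8
    linear_combination h8 - htwo
  -- the relation
  have hrel := relation (s := s) hm hζ hζ0 hb0 hbo (-(N : ℤ)) F B hz
  have hu : ∀ i, (HahnSeries.single (-(N : ℤ)) (1 : kk) *
      (vv ζ hζ0 b hb0 i).ev F ^ 8 : LL) = rt (v i) ^ 2 * (rt (upn (v i) 3))⁻¹ :=
    fun i => (quot_eqB F hF (v i) N rfl).symm
  simp only [hu] at hrel
  have himg := relation_image _ (fun i => ((ζ⁻¹) ^ (8 * B)) ^ i) _
    (fun i => (HahnSeries.C (κ' i) * rt (v' i)) ^ 2 * (HahnSeries.C (κ i) * rt (p' i))⁻¹)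
    (fun i _ => ((hrv i).pow 2).mul (hrp i).inv) hrel
  -- leading terms
  have hLT : ∀ i, LT (((2 : ℕ) : ℤ) * (((v' i).a / 3 : ℕ) : ℤ) - (((p' i).a / 3 : ℕ) : ℤ))
      ((κ' i * 1) ^ 2 * (κ i * 1)⁻¹)
      ((HahnSeries.C (κ' i) * rt (v' i)) ^ 2 * (HahnSeries.C (κ i) * rt (p' i))⁻¹) := by
    intro i
    have h1 := ((LT_C (κ' i)).mul (LT_rt (v' i))).pow 2
    have h2 := (((LT_C (κ i)).mul (LT_rt (p' i))).inv (mul_ne_zero (hκ0 i) one_ne_zero))
    have h4 := h1.mul h2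
    rw [zero_add, zero_add] at h4
    rw [sub_eq_add_neg]
    exact h4
  set e0 : ℤ := -((N * (m * l * (m * l)) : ℕ) : ℤ) with he0
  have hq : ∀ x : ℕ, 3 ∣ x → (3 : ℤ) * ((x / 3 : ℕ) : ℤ) = x := by
    intro x hx
    exact_mod_cast Nat.mul_div_cancel' hx
  have ha0' : (a0 : ℤ) = 3 * N * (3 * m * l) := by
    change ((N * (3 * N) : ℕ) : ℤ) = _
    push_cast
    have h7 : (N : ℤ) = 3 * m * l := by rw [hN]; push_cast; ring
    linear_combination 3 * (N : ℤ) * h7
  -- the exponents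
  have hexp : ∀ i, e0 < ((2 : ℕ) : ℤ) * (((v' i).a / 3 : ℕ) : ℤ) - (((p' i).a / 3 : ℕ) : ℤ) ∨
      (((2 : ℕ) : ℤ) * (((v' i).a / 3 : ℕ) : ℤ) - (((p' i).a / 3 : ℕ) : ℤ) = e0 ∧
        (p' i).a = m * l * a0 ∧ (p' i).a = 3 * (v' i).a) := by
    intro i
    have h1 := hq _ (h3p i)
    have h2 := hq _ (h3v i)
    have hNp : (0 : ℤ) < N := by exact_mod_cast hNo.pos
    have hmlp : (0 : ℤ) < m * l := by exact_mod_cast hml.pos
    rcases hnb i with ⟨-, g2⟩ | ⟨-, g2⟩
    · left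
      have g3 : ((v' i).a : ℤ) = 3 * (p' i).a := by exact_mod_cast g2
      have g4 : (0 : ℤ) < (p' i).a := by exact_mod_cast Nat.pos_of_ne_zero (p' i).ha
      have g5 : e0 < 0 := by
        rw [he0]
        push_cast
        have : (0 : ℤ) < (N : ℤ) * (m * l * (m * l)) := by positivity
        linarith
      push_cast at h1 h2 g3 ⊢
      linarith
    · have g3 : ((p' i).a : ℤ) = 3 * (v' i).a := by exact_mod_cast g2
      have g4 : ((p' i).a : ℤ) ≤ m * l * a0 := by exact_mod_cast hle i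
      have g5 : 9 * e0 = -(m * l * a0 : ℤ) := by
        rw [he0, ha0']
        push_cast
        ring
      rcases (hle i).lt_or_eq with g6 | g6
      · left
        have g7 : ((p' i).a : ℤ) < m * l * a0 := by exact_mod_cast g6
        push_cast at h1 h2 ⊢
        linarith
      · right
        have g7 : ((p' i).a : ℤ) = m * l * a0 := by exact_mod_cast g6
        refine ⟨?_, g6, g2⟩
        push_cast at h1 h2 ⊢
        linarith
  -- the class of the exponent
  have hcls : ((e0 : ℤ) : ZMod (2 ^ (s + 3))) =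
      ((-(N : ℤ) + 8 * b * B : ℤ) : ZMod (2 ^ (s + 3))) := by
    rw [← sub_eq_zero, ← Int.cast_sub, ZMod.intCast_zmod_eq_zero_iff_dvd]
    obtain ⟨c, hc⟩ := hl2
    refine ⟨-(N * c), ?_⟩
    have h8 : (b : ℤ) = 3 * N := by change ((3 * N : ℕ) : ℤ) = _; push_cast; ring
    rw [he0, h8]
    push_cast
    linear_combination (-(N : ℤ)) * hc
  -- the coefficient
  have hcoef := congrArg (fun x : LL => x.coeff e0) himg
  simp only [HahnSeries.coeff_sum, coeff_Cmul, coeff_pj, HahnSeries.coeff_zero, if_pos hcls]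
    at hcoef
  have hzero : ∀ i ∈ Finset.range m, i ≠ h → i ≠ 2 * h →
      (((HahnSeries.C (κ' i) * rt (v' i)) ^ 2 * (HahnSeries.C (κ i) * rt (p' i))⁻¹ : LL)).coeff e0
        = 0 := by
    intro i hi h1 h2
    rcases hexp i with g | ⟨-, g2, g3⟩
    · exact (hLT i).2 _ g
    · exfalso
      rcases hover i hi g2 with rfl | g4 | g4
      · rw [hv0, g2, upn_a hN0] at g3
        have g5 : 0 < a0 := Nat.pos_of_ne_zero ha0
        have g6 : m * l * a0 = 9 * (m * l * a0) := by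
          conv_lhs => rw [g3]
          rw [hN]; ring
        have g7 : 0 < m * l * a0 := by positivity
        omega
      · exact h1 g4
      · exact h2 g4
  have hval : ∀ e : ℕ, e = 1 ∨ e = 2 →
      (((HahnSeries.C (κ' (e * h)) * rt (v' (e * h))) ^ 2 *
        (HahnSeries.C (κ (e * h)) * rt (p' (e * h)))⁻¹ : LL)).coeff e0 =
      κ' (e * h) ^ 2 * (κ (e * h))⁻¹ ∧ κ' (e * h) ^ 3 = (ω ^ e)⁻¹ * (1 + ω ^ e) ∧
        κ (e * h) ^ 3 = 1 := by
    intro e he
    obtain ⟨g1, g2⟩ := hother e he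
    have hvz : (v (e * h)).z = ω ^ e := by
      change ζ ^ (e * h) = (ζ ^ h) ^ e
      rw [← pow_mul, mul_comm]
    have hωe : (ω ^ e) ^ 3 = 1 := by rw [← pow_mul, mul_comm, pow_mul, hω3, one_pow]
    have hpar : upn (v (e * h)) 3 = upn (v 0) 3 := by
      refine Vx.ext ?_ rfl
      rw [upn_z h3, upn_z h3, hvz, hωe]
      change 1 = (ζ ^ 0) ^ 3
      rw [pow_zero, one_pow]
    have hp2 : p' (e * h) = upn w0 (m * l) := by
      have h4 := (hpc (e * h)).rel
      have h5 : Rel τ (upn (v (e * h)) 3).V (upn w0 (m * l)).V := by rw [hpar]; exact hflipp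
      exact V_inj (h4.unique h5)
    have hpz : (p' (e * h)).z = 1 := by
      rw [hp2, upn_z hml0]
      exact one_pow _
    refine ⟨?_, ?_, ?_⟩
    · rcases hexp (e * h) with g | ⟨g, -, -⟩
      · exfalso
        have k1 := hq _ (h3p (e * h))
        have k2 := hq _ (h3v (e * h))
        have k3 : ((p' (e * h)).a : ℤ) = m * l * a0 := by
          rw [hp2, upn_a hml0]
          push_cast
          rfl
        have k4 : ((v' (e * h)).a : ℤ) * 3 = m * l * a0 := by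
          rw [g2, hh]
          push_cast
          ring
        have g5 : 9 * e0 = -(m * l * a0 : ℤ) := by
          rw [he0, ha0']
          push_cast
          ring
        push_cast at k1 k2 g
        linarith
      · have k1 := (hLT (e * h)).1
        rw [g] at k1
        rw [k1, mul_one, mul_one]
    · rw [hκ' (e * h), g1]
      change ((v (e * h)).z)⁻¹ * _ = _
      rw [hvz]
    · rw [hκ (e * h), hpz]
      change ((upn (v (e * h)) 3).z)⁻¹ * _ = _
      rw [upn_z h3, hvz, hωe, inv_one, one_mul]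
  have hhm : h ∈ Finset.range m := Finset.mem_range.2 (by omega)
  have h2hm : 2 * h ∈ Finset.range m := Finset.mem_range.2 (by omega)
  have hh2 : h ≠ 2 * h := by omega
  rw [Finset.sum_eq_add_of_mem h (2 * h) hhm h2hm hh2 (by
    intro i hi hne
    rw [hzero i hi hne.1 hne.2, mul_zero])] at hcoef
  obtain ⟨x1, x2, x3⟩ := hval 1 (Or.inl rfl)
  obtain ⟨y1, y2, y3⟩ := hval 2 (Or.inr rfl)
  rw [one_mul] at x1 x2 x3
  rw [x1, y1] at hcoef
  -- cubes
  have hw : ∀ e : ℕ, ((((ζ⁻¹) ^ (8 * B)) ^ (e * h)) ^ 3 : kk) = 1 := by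
    intro e
    rw [← pow_mul, ← pow_mul, show 8 * B * (e * h * 3) = (3 * h) * (8 * B * e) by ring, pow_mul,
      ← hh, inv_pow, hζ.pow_eq_one, inv_one, one_pow]
  have hw1 := hw 1
  rw [one_mul] at hw1
  have hw2 := hw 2
  have heq : ((ζ⁻¹) ^ (8 * B)) ^ h * (κ' h ^ 2 * (κ h)⁻¹) =
      ((ζ⁻¹) ^ (8 * B)) ^ (2 * h) * (κ' (2 * h) ^ 2 * (κ (2 * h))⁻¹) := by
    linear_combination hcoef - (((ζ⁻¹) ^ (8 * B)) ^ (2 * h) *
      (κ' (2 * h) ^ 2 * (κ (2 * h))⁻¹)) * htwo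
  rw [pow_one] at x2
  exact final_contra htwo hωq heq hw1 hw2 x3 y3 x2 y2

end Pool.Agent.Q41.RA
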