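import Pool.Agent.Q41.RA.Base

set_option autoImplicit false

/-!
# One automorphism which moves the upper neighbours for all primes of a finite set
-/

namespace Pool.Agent.Q41.RA

open Pool.Agent.TH693.PP Pool.Agent.TH693.QQ Pool.Agent.H397R2.PP Pool.Agent.Y627.PT

/-- an odd prime divisor of the exponent of `w` -/
structure OP (w : Vx) (q : ℕ) : Prop where
  p : q.Prime
  odd : q ≠ 2
  dvd : q ∣ w.a

/-- the upper neighbour, total version -/
noncomputable def upn (w : Vx) (q : ℕ) : Vx := if h : q ≠ 0 then up q h w else w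

theorem upn_z {w : Vx} {q : ℕ} (h : q ≠ 0) : (upn w q).z = w.z ^ q := by
  unfold upn; rw [dif_pos h]; rfl

theorem upn_a {w : Vx} {q : ℕ} (h : q ≠ 0) : (upn w q).a = q * w.a := by
  unfold upn; rw [dif_pos h]; rfl

theorem nb_upn {w : Vx} {q : ℕ} (h : q ≠ 0) : Nb q w (upn w q) := Or.inl ⟨upn_z h, upn_a h⟩

/-- a neighbour which is not the upper one is a lower one -/
theorem nb_lower {w s : Vx} {q : ℕ} (hq : q ≠ 0) (h : Nb q w s) (hs : s ≠ upn w q) :
    w.z = s.z ^ q ∧ w.a = q * s.a := by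
  rcases h with h | h
  · exact absurd (Vx.ext (h.1.trans (upn_z hq).symm) (h.2.trans (upn_a hq).symm)) hs
  · exact h

/-- `σ` moves the upper neighbour of the base vertex -/
def Mvs {w : Vx} (σ : GB w) (q : ℕ) : Prop := ¬ Rel σ (upn w q).V (upn w q).V

theorem exists_move {w : Vx} {q : ℕ} (h : OP w q) : ∃ σ : GB w, Mvs σ q := by
  obtain ⟨σ, hσ⟩ := prime_move h.p h.odd h.dvd
  refine ⟨σ, ?_⟩
  unfold Mvs upn
  rwa [dif_pos h.p.ne_zero]

theorem rel_upn {w : Vx} {q : ℕ} (h : OP w q) (σ : GB w) :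
    ∃ s, Nb q w s ∧ Rel σ (upn w q).V s.V :=
  nb_rel h.p h.odd h.dvd h.dvd (relV σ) (nb_upn h.p.ne_zero)

theorem upn_alg {w : Vx} {q : ℕ} (h : OP w q) : IsAlgebraic (KB w) (upn w q).V := by
  obtain ⟨s, -, hs⟩ := rel_upn h 1
  exact hs.left

/-- the image under an automorphism which moves the upper neighbour -/
theorem Mvs.lower {w : Vx} {q : ℕ} (h : OP w q) {σ : GB w} (hσ : Mvs σ q) :
    ∃ s : Vx, w.z = s.z ^ q ∧ w.a = q * s.a ∧ Rel σ (upn w q).V s.V := by
  obtain ⟨s, hs, hr⟩ := rel_upn h σ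
  have h1 : s ≠ upn w q := by
    rintro rfl
    exact hσ hr
  obtain ⟨h2, h3⟩ := nb_lower h.p.ne_zero hs h1
  exact ⟨s, h2, h3, hr⟩

theorem Mvs.inv {w : Vx} {q : ℕ} {σ : GB w} (hσ : Mvs σ q) : Mvs σ⁻¹ q := by
  intro h
  have := h.symm
  rw [inv_inv] at this
  exact hσ this

theorem twV_eq_iff {ξ : kkˣ} {w : Vx} : twV ξ w = w ↔ (ξ : kk) ^ w.a = 1 := by
  constructor
  · intro h
    have h1 : w.z * (ξ : kk) ^ w.a = w.z := congrArg Vx.z h
    exact mul_left_cancel₀ w.hz (by rw [h1, mul_one])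
  · exact twV_of_one

/-- an automorphism which moves the upper neighbours for all primes of a finite set -/
theorem exists_moves {w : Vx} {ξ : kkˣ} (hξ : IsPrimitiveRoot (ξ : kk) w.a) (Λ : Finset ℕ) :
    (∀ q ∈ Λ, OP w q) → ∃ σ : GB w, ∀ q ∈ Λ, Mvs σ q := by
  classical
  induction Λ using Finset.induction_on with
  | empty => exact fun _ => ⟨1, fun q hq => absurd hq (Finset.notMem_empty q)⟩
  | insert p Λ hp ih =>
    intro hΛ
    obtain ⟨σ, hσ⟩ := ih (fun q hq => hΛ q (Finset.mem_insert_of_mem hq))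
    obtain ⟨τ, hτ⟩ := exists_move (hΛ p (Finset.mem_insert_self p Λ))
    set B : Finset ℕ := (insert p Λ).filter (fun q => ¬ Rel (σ * τ) (upn w q).V (upn w q).V)
      with hB
    set e : ℕ := ∏ q ∈ B, q with he
    have hone : ((ξ ^ e : kkˣ) : kk) ^ w.a = 1 := by
      rw [Units.val_pow_eq_pow_val, ← pow_mul, mul_comm, pow_mul, hξ.pow_eq_one, one_pow]
    obtain ⟨ρ, hρ⟩ := exists_tw hone
    refine ⟨σ * ρ * τ, fun q hq hfix => ?_⟩
    have hop := hΛ q hq
    have hq0 := hop.p.ne_zero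
    by_cases h1 : Rel τ (upn w q).V (upn w q).V
    · -- `τ` fixes the vertex
      have hqp : q ≠ p := by
        rintro rfl
        exact hτ h1
      have hqΛ : q ∈ Λ := (Finset.mem_insert.1 hq).resolve_left hqp
      have h2 := hρ _ (upn_alg hop)
      rw [tw_V, twV_of_one (by rw [upn_a hq0, mul_comm, pow_mul, hone, one_pow])] at h2
      obtain ⟨s, -, hs⟩ := rel_upn hop σ
      have h3 := (h1.comp h2).comp hs
      rw [← mul_assoc] at h3
      have h4 := V_inj (hfix.unique h3)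
      rw [← h4] at hs
      exact hσ q hqΛ hs
    · obtain ⟨y, hyz, hya, hy⟩ := Mvs.lower hop h1
      have h2 := hρ _ hy.right
      rw [tw_V] at h2
      have h3 := hy.comp h2
      -- the vertex `ρ y` is mapped to the upper neighbour by `σ`
      have h4 : Rel σ (twV (ξ ^ e) y).V (upn w q).V := by
        have h5 := h3.symm.comp hfix
        have h6 : σ * ρ * τ * (ρ * τ)⁻¹ = σ := by group
        rwa [h6] at h5
      by_cases h5 : Rel (σ * τ) (upn w q).V (upn w q).V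
      · have h6 : Rel σ y.V (upn w q).V := by
          have h7 := hy.symm.comp h5
          have h8 : σ * τ * τ⁻¹ = σ := by group
          rwa [h8] at h7
        have h7 := twV_eq_iff.1 (V_inj (h4.inj h6))
        rw [Units.val_pow_eq_pow_val, ← pow_mul] at h7
        have h8 := hξ.dvd_of_pow_eq_one _ h7
        rw [hya] at h8
        have h9 : q ∣ e := Nat.dvd_of_mul_dvd_mul_right (Nat.pos_of_ne_zero y.ha) h8
        rw [he, hop.p.prime.dvd_finsetProd_iff] at h9
        obtain ⟨q', hq', h10⟩ := h9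
        rw [hB, Finset.mem_filter] at hq'
        have h11 : q = q' := (Nat.prime_dvd_prime_iff_eq hop.p (hΛ q' hq'.1).p).1 h10
        rw [← h11] at hq'
        exact hq'.2 h5
      · have h6 : q ∣ e := Finset.dvd_prod_of_mem _ (Finset.mem_filter.2 ⟨hq, h5⟩)
        have h7 : ((ξ ^ e : kkˣ) : kk) ^ y.a = 1 := by
          obtain ⟨c, hc⟩ := h6
          rw [Units.val_pow_eq_pow_val, ← pow_mul, hc, mul_assoc, mul_comm c, ← mul_assoc, ← hya,
            pow_mul, hξ.pow_eq_one, one_pow]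
        rw [twV_of_one h7] at h4
        exact h5 (hy.comp h4)

/-- the conjugate of a twist -/
theorem exists_conj {w : Vx} {ξ : kkˣ} (hξ : IsPrimitiveRoot (ξ : kk) w.a) (Λ : Finset ℕ)
    (hΛ : ∀ q ∈ Λ, OP w q) :
    ∃ σ ρ : GB w, (∀ x : LL, IsAlgebraic (KB w) x → Rel ρ x (tw ξ x)) ∧
      ∀ q ∈ Λ, Mvs (σ * ρ * σ⁻¹) q := by
  obtain ⟨σ, hσ⟩ := exists_moves hξ Λ hΛ
  obtain ⟨ρ, hρ⟩ := exists_tw hξ.pow_eq_one
  refine ⟨σ, ρ, hρ, fun q hq hfix => ?_⟩
  have hop := hΛ q hq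
  obtain ⟨y, hyz, hya, hy⟩ := Mvs.lower hop (hσ q hq).inv
  have h2 := hρ _ hy.right
  rw [tw_V] at h2
  have h3 := hy.comp h2
  have h4 : Rel σ (twV ξ y).V (upn w q).V := by
    have h5 := h3.symm.comp hfix
    have h6 : σ * ρ * σ⁻¹ * (ρ * σ⁻¹)⁻¹ = σ := by group
    rwa [h6] at h5
  have h5 : Rel σ y.V (upn w q).V := by
    have := hy.symm
    rwa [inv_inv] at this
  have h6 := twV_eq_iff.1 (V_inj (h4.inj h5))
  have h7 := hξ.dvd_of_pow_eq_one _ h6
  rw [hya] at h7
  have h8 : q * y.a ≤ y.a := Nat.le_of_dvd (Nat.pos_of_ne_zero y.ha) h7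
  have h9 := hop.p.two_le
  have h10 := Nat.pos_of_ne_zero y.ha
  nlinarith

end Pool.Agent.Q41.RA
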