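import Pool.Agent.Q41.RA.A6
import Pool.Agent.Y627.PT.Eta

set_option autoImplicit false

/-!
# Linear patterns on all progressions
-/

namespace Pool.Agent.Q41.RA

open PowerSeries
open Pool.Agent.TH693.PP Pool.Agent.TH693.QQ Pool.Agent.H397R2.PP Pool.Agent.Y627.PT

theorem proj_ne {M r N : ℕ} {G : S} (h1 : N % M = r % M) (h2 : coeff N G ≠ 0) :
    proj M r G ≠ 0 := by
  intro h0
  have h3 := congrArg (coeff N) h0
  rw [proj, coeff_mk, map_zero, if_pos h1] at h3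
  exact h2 h3

theorem ne_zero_of_odd {x : ℕ} (h : Odd x) : ((x : ℕ) : ZMod 2) ≠ 0 := fun h0 =>
  (Nat.not_even_iff_odd.2 h) ((ZMod.natCast_eq_zero_iff_even).1 h0)

theorem sec_b (m : ℕ) (hm : 0 < m) :
    Sec (PowerSeries.mk fun n =>
      ((Nat.Partition.restricted n (fun i => ¬ m ∣ i)).card : ZMod 2)) (1 - m) := by
  have h1 := restricted_gen m hm
  set G : S := PowerSeries.mk fun n =>
    ((Nat.Partition.restricted n (fun i => ¬ m ∣ i)).card : ZMod 2) with hG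
  have h2 : G = P * ex m hm.ne' E := by
    rw [← h1]
    calc G = (P * E) * G := by rw [P_mul_E, one_mul]
      _ = _ := by ring
  rw [h2]
  have h3 := sec_mul sec_P (sec_ex sec_E hm.ne')
  have h4 : (1 : ℤ) - m = 1 + m * (-1) := by ring
  rw [h4]
  exact h3

theorem sec_a : Sec (PowerSeries.mk fun n =>
    ((Nat.Partition.restricted n (fun i => i % 6 ≠ 3)).card : ZMod 2)) 4 := by
  have h1 := gen36
  set G : S := PowerSeries.mk fun n =>
    ((Nat.Partition.restricted n (fun i => i % 6 ≠ 3)).card : ZMod 2) with hG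
  have h3 : (3 : ℕ) ≠ 0 := by norm_num
  have h5 : ex 3 h3 P * ex 3 h3 E = 1 := by rw [← map_mul, P_mul_E, map_one]
  have h2 : G = P * ex 3 h3 P := by
    calc G = G * ((P * E) * (ex 3 h3 P * ex 3 h3 E)) := by rw [P_mul_E, h5]; ring
      _ = (G * E * ex 3 h3 E) * (P * ex 3 h3 P) := by ring
      _ = _ := by rw [h1, one_mul]
  rw [h2]
  have h6 := sec_mul sec_P (sec_ex sec_P h3)
  have h7 : (4 : ℤ) = 1 + (3 : ℕ) * 1 := by norm_num
  rw [h7]
  exact h6

/-- the range of the moduli -/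
def InRange (m : ℕ) : Prop := ∃ j m0 : ℕ, 1 ≤ j ∧ Odd m0 ∧ 2 ^ j < m0 ∧ m = 2 ^ j * m0

/-- joint patterns of the regular partitions on all progressions -/
theorem patterns_b {k : ℕ} (m : Fin k → ℕ) (hm : ∀ i, InRange (m i))
    (hsep : ∀ i l, i ≠ l → ¬ m i ≡ m l [MOD 24]) (M : ℕ) (hM : 0 < M) :
    ∃ C : ℕ, ∀ (K : ℕ) (c : Fin k → ℕ → ZMod 2) (ρ : ℕ), (∃ j, ∃ i < K, c j i ≠ 0) →
      ∀ (κ : ZMod 2) (A : ℕ), ∃ n, A ≤ n ∧ n ≤ C * (A + K) ∧ n ≡ ρ [MOD M] ∧
        ∑ j, ∑ i ∈ Finset.range K, c j i *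
          ((Nat.Partition.restricted (n + i) (fun x => ¬ m j ∣ x)).card : ZMod 2) = κ := by
  have hpos : ∀ i, 0 < m i := by
    intro i
    obtain ⟨j, m0, -, h2, -, h4⟩ := hm i
    rw [h4]
    exact Nat.mul_pos (by positivity) h2.pos
  have heven : ∀ i, Even (m i) := by
    intro i
    obtain ⟨j, m0, h1, -, -, h4⟩ := hm i
    rw [h4]
    exact (Nat.even_pow.2 ⟨even_two, by omega⟩).mul_right m0
  obtain ⟨C, hC⟩ := Pool.Agent.Y627.PT.main (fun x : Fin k => PowerSeries.mk fun n =>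
      ((Nat.Partition.restricted n (fun i => ¬ m x ∣ i)).card : ZMod 2)) (fun x => 1 - (m x : ℤ))
    (fun x => sec_b (m x) (hpos x)) (fun _ => 1) (fun _ => one_pos)
    (by
      intro x h
      obtain ⟨c, hc⟩ := heven x
      rw [hc] at h
      push_cast at h
      omega)
    (by
      intro x y hxy h
      simp only [Nat.gcd_self, Nat.div_self one_pos, Nat.cast_one, mul_one] at h
      refine hsep x y hxy ?_
      rw [Nat.modEq_iff_dvd]
      have h1 : (1 - (m x : ℤ)) - (1 - (m y : ℤ)) = (m y : ℤ) - m x := by ring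
      rw [h1] at h
      exact_mod_cast h) M hM
  refine ⟨C, fun K c ρ hc κ A => ?_⟩
  obtain ⟨n, h1, h2, h3, h4⟩ := hC K c ρ (by
    obtain ⟨j, i, hi, hci⟩ := hc
    refine ⟨j, i, hi, hci, ?_⟩
    obtain ⟨e, m0, g1, g2, g3, g4⟩ := hm j
    obtain ⟨N, hN⟩ := regular_odd e m0 g1 g2 g3 M (ρ + i) hM
    refine proj_ne (N := M * N + (ρ + i)) ?_ ?_
    · rw [one_mul, one_mul, Nat.mul_add_mod]
    · rw [coeff_mk]
      rw [g4]
      exact ne_zero_of_odd hN) κ A
  refine ⟨n, h1, h2, h3, ?_⟩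
  rw [← h4]
  refine Finset.sum_congr rfl fun j _ => Finset.sum_congr rfl fun i _ => ?_
  rw [coeff_mk, one_mul]

/-- patterns of the partitions without parts congruent to 3 modulo 6 -/
theorem patterns_a (M : ℕ) (hM : 0 < M) (hM4 : 4 ∣ M) :
    ∃ C : ℕ, ∀ (K : ℕ) (c : ℕ → ZMod 2) (ρ : ℕ),
      (∃ i < K, c i ≠ 0 ∧ ((ρ + i) % 4 = 0 ∨ (ρ + i) % 4 = 1)) →
      ∀ (κ : ZMod 2) (A : ℕ), ∃ n, A ≤ n ∧ n ≤ C * (A + K) ∧ n ≡ ρ [MOD M] ∧
        ∑ i ∈ Finset.range K, c i *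
          ((Nat.Partition.restricted (n + i) (fun x => x % 6 ≠ 3)).card : ZMod 2) = κ := by
  obtain ⟨C, hC⟩ := Pool.Agent.Y627.PT.main (fun _ : Unit => PowerSeries.mk fun n =>
      ((Nat.Partition.restricted n (fun i => i % 6 ≠ 3)).card : ZMod 2)) (fun _ => 4)
    (fun _ => sec_a) (fun _ => 1) (fun _ => one_pos)
    (by
      intro x h
      norm_num at h)
    (by
      intro x y hxy h
      exact hxy (Subsingleton.elim x y)) M hM
  refine ⟨C, fun K c ρ hc κ A => ?_⟩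
  obtain ⟨n, h1, h2, h3, h4⟩ := hC K (fun _ => c) ρ (by
    obtain ⟨i, hi, hci, hmod⟩ := hc
    refine ⟨(), i, hi, hci, ?_⟩
    obtain ⟨M', hM'⟩ := hM4
    obtain ⟨N, hN⟩ := a36_odd M (ρ + i) hM (by
      intro n
      have : M * n + (ρ + i) = 4 * (M' * n) + (ρ + i) := by rw [hM']; ring
      rw [this]
      omega)
    refine proj_ne (N := M * N + (ρ + i)) ?_ ?_
    · rw [one_mul, one_mul, Nat.mul_add_mod]
    · rw [coeff_mk]
      exact ne_zero_of_odd hN) κ A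
  refine ⟨n, h1, h2, h3, ?_⟩
  rw [← h4, Finset.univ_unique, Finset.sum_singleton]
  refine Finset.sum_congr rfl fun i _ => ?_
  rw [coeff_mk, one_mul]

end Pool.Agent.Q41.RA
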