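import Pool.Agent.Q41.RA.Pat

set_option autoImplicit false

/-!
# Patterns of eta-quotients on all progressions
-/

namespace Pool.Agent.Q41.RA

open PowerSeries
open Pool.Agent.TH693.PP Pool.Agent.TH693.QQ Pool.Agent.H397R2.PP Pool.Agent.Y627.PT

/-- the relation modulo 2 -/
theorem map_rel {μ α β : ℕ} (hμ0 : μ ≠ 0) {F : ℤ⟦X⟧} (hF : F * eul 1 ^ β = eul μ ^ α) :
    F.map (Int.castRingHom (ZMod 2)) * E ^ β = ex μ hμ0 E ^ α := by
  have h1 := congrArg (PowerSeries.map (Int.castRingHom (ZMod 2))) hF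
  rw [map_mul, map_pow, map_pow, map_eul one_ne_zero, map_eul hμ0] at h1
  rw [← h1]
  congr 2
  ext n
  unfold ex
  rw [PowerSeries.coeff_expand, if_pos (one_dvd n), Nat.div_one]

theorem sec_quot {μ α β : ℕ} (hμ0 : μ ≠ 0) {G : S} (hG : G * E ^ β = ex μ hμ0 E ^ α) :
    Sec G (β - μ * α) := by
  have h2 : G = P ^ β * ex μ hμ0 E ^ α := by
    rw [← hG]
    calc G = (P * E) ^ β * G := by rw [P_mul_E, one_pow, one_mul]
      _ = _ := by rw [mul_pow]; ring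
  rw [h2]
  have h3 := sec_mul (sec_pow sec_P β) (sec_pow (sec_ex sec_E hμ0) α)
  have h4 : ((β : ℤ) - μ * α) = β * 1 + α * (μ * (-1)) := by ring
  rw [h4]
  exact h3

/-- joint patterns of eta-quotients on all progressions -/
theorem patterns_gen {k : ℕ} (μ α β : Fin k → ℕ) (hμ : ∀ j, Odd (μ j))
    (hlt : ∀ j, α j < β j * μ j) (hpar : ∀ j, Odd (α j + β j)) (F : Fin k → ℤ⟦X⟧)
    (hF : ∀ j, F j * eul 1 ^ β j = eul (μ j) ^ α j) (m : Fin k → ℕ) (hm : ∀ j, 0 < m j)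
    (hsep : ∀ j l, j ≠ l →
      ¬ (24 : ℤ) ∣ (μ j * α j - β j : ℤ) * (m l / Nat.gcd (m j) (m l) : ℕ) -
        (μ l * α l - β l : ℤ) * (m j / Nat.gcd (m j) (m l) : ℕ)) (M : ℕ) (hM : 0 < M) :
    ∃ C : ℕ, ∀ (K : ℕ) (c : Fin k → ℕ → ZMod 2) (ρ : ℕ), (∃ j, ∃ i < K, c j i ≠ 0) →
      ∀ (κ : ZMod 2) (A : ℕ), ∃ n, A ≤ n ∧ n ≤ C * (A + K) ∧ n ≡ ρ [MOD M] ∧
        ∑ j, ∑ i ∈ Finset.range K, c j i * ((coeff (m j * n + i) (F j) : ℤ) : ZMod 2) = κ := by
  have hrel := fun j => map_rel (hμ j).pos.ne' (hF j)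
  obtain ⟨C, hC⟩ := Pool.Agent.Y627.PT.main
    (fun j => (F j).map (Int.castRingHom (ZMod 2))) (fun j => (β j : ℤ) - μ j * α j)
    (fun j => sec_quot (hμ j).pos.ne' (hrel j)) m hm
    (by
      intro j h
      obtain ⟨a, ha⟩ := hμ j
      obtain ⟨b, hb⟩ := hpar j
      obtain ⟨c, hc⟩ := h
      have h1 : (β j : ℤ) + α j + 2 * a * α j = 24 * c + 2 * ((μ j : ℤ) * α j) := by
        have h2 : (μ j : ℤ) = 2 * a + 1 := by exact_mod_cast ha
        rw [h2] at hc ⊢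
        linear_combination hc
      have h3 : (β j : ℤ) + α j = 2 * b + 1 := by
        have : ((α j + β j : ℕ) : ℤ) = 2 * b + 1 := by exact_mod_cast hb
        push_cast at this
        linarith
      rw [h3] at h1
      have h4 : (2 : ℤ) * (12 * c + μ j * α j - b - a * α j) = 1 := by linarith
      omega)
    (by
      intro j l hjl h
      refine hsep j l hjl ?_
      have h1 : (μ j * α j - β j : ℤ) * (m l / Nat.gcd (m j) (m l) : ℕ) -
          (μ l * α l - β l : ℤ) * (m j / Nat.gcd (m j) (m l) : ℕ) =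
        -(((β j : ℤ) - μ j * α j) * (m l / Nat.gcd (m j) (m l) : ℕ) -
          ((β l : ℤ) - μ l * α l) * (m j / Nat.gcd (m j) (m l) : ℕ)) := by ring
      rw [h1]
      exact (dvd_neg).2 h) M hM
  refine ⟨C, fun K c ρ hc κ A => ?_⟩
  obtain ⟨n, h1, h2, h3, h4⟩ := hC K c ρ (by
    obtain ⟨j, i, hi, hci⟩ := hc
    refine ⟨j, i, hi, hci, ?_⟩
    obtain ⟨N, hN⟩ := no_progression (hμ j) (hμ j).pos.ne' (hlt j) (hpar j) _ (hrel j)
      (m j * M) (m j * ρ + i) (Nat.mul_pos (hm j) hM)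
    refine proj_ne (N := m j * M * N + (m j * ρ + i)) ?_ hN
    rw [Nat.mul_add_mod]) κ A
  refine ⟨n, h1, h2, h3, ?_⟩
  rw [← h4]
  refine Finset.sum_congr rfl fun j _ => Finset.sum_congr rfl fun i _ => ?_
  rw [PowerSeries.coeff_map]
  rfl

end Pool.Agent.Q41.RA
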