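import Pool.Agent.Q41.RA.Cm

set_option autoImplicit false

/-!
# Paths from the base vertex and the flipping automorphism
-/

namespace Pool.Agent.Q41.RA

open Pool.Agent.TH693.PP Pool.Agent.TH693.QQ Pool.Agent.H397R2.PP Pool.Agent.Y627.PT

/-- reachable from `w0` by steps with the product `n` of the primes -/
inductive Rl (w0 : Vx) : ℕ → Vx → Prop
  | base : Rl w0 1 w0
  | step {n q : ℕ} {w s : Vx} (h : Rl w0 n w) (hq : q.Prime) (hq2 : q ≠ 2)
      (hd : n * q ∣ w0.a) (hs : Nb q w s) : Rl w0 (n * q) s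

theorem Rl.exp {w0 : Vx} {n : ℕ} {w : Vx} (h : Rl w0 n w) :
    ∃ n1 n2 : ℕ, n1 * n2 = n ∧ w.a * n2 = w0.a * n1 ∧ (n2 = 1 → w.z = w0.z ^ n) := by
  induction h with
  | base => exact ⟨1, 1, rfl, rfl, fun _ => (pow_one _).symm⟩
  | step h hq hq2 hd hs ih =>
    rename_i n q w s
    obtain ⟨n1, n2, h1, h2, h3⟩ := ih
    rcases hs with ⟨h4, h5⟩ | ⟨h4, h5⟩
    · refine ⟨n1 * q, n2, by rw [← h1]; ring, by rw [h5]; linear_combination q * h2, ?_⟩
      intro h6
      rw [h4, h3 h6, pow_mul]
    · refine ⟨n1, n2 * q, by rw [← h1]; ring, ?_, ?_⟩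
      · rw [← h2, h5]; ring
      · intro h6
        have h7 := Nat.eq_one_of_mul_eq_one_left h6
        exact absurd h7 hq.one_lt.ne'

theorem Rl.dvd {w0 : Vx} {n q : ℕ} {w : Vx} (h : Rl w0 n w) (hd : n * q ∣ w0.a) : q ∣ w.a := by
  obtain ⟨n1, n2, h1, h2, -⟩ := h.exp
  obtain ⟨c, hc⟩ := hd
  have hn2 : n2 ≠ 0 := by
    rintro rfl
    rw [mul_zero] at h1
    rw [← h1, zero_mul, zero_mul] at hc
    exact w0.ha hc
  have h3 : w.a * n2 = (q * (c * n1 ^ 2)) * n2 := by
    rw [h2, hc, ← h1]; ring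
  exact ⟨_, Nat.eq_of_mul_eq_mul_right (Nat.pos_of_ne_zero hn2) h3⟩

theorem Rl.le {w0 : Vx} {n : ℕ} {w : Vx} (h : Rl w0 n w) (hn : n ∣ w0.a) :
    w.a ≤ n * w0.a ∧ (w.a = n * w0.a → w.z = w0.z ^ n) := by
  obtain ⟨n1, n2, h1, h2, h3⟩ := h.exp
  have ha := Nat.pos_of_ne_zero w0.ha
  have hn0 : 0 < n := Nat.pos_of_dvd_of_pos hn ha
  have hn2 : 0 < n2 := by
    rcases Nat.eq_zero_or_pos n2 with h4 | h4
    · rw [h4, mul_zero] at h1
      omega
    · exact h4
  have hn1 : 0 < n1 := by
    rcases Nat.eq_zero_or_pos n1 with h4 | h4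
    · rw [h4, zero_mul] at h1
      omega
    · exact h4
  constructor
  · nlinarith [Nat.mul_le_mul_left w.a hn2]
  · intro h4
    apply h3
    rw [h4, ← h1] at h2
    have h5 : (n1 * w0.a) * (n2 * n2) = (n1 * w0.a) * 1 := by linear_combination h2
    have h6 := Nat.eq_of_mul_eq_mul_left (by positivity) h5
    exact Nat.eq_one_of_mul_eq_one_left h6

theorem Rl.pos {w0 : Vx} {n : ℕ} {w : Vx} (h : Rl w0 n w) : 0 < n := by
  induction h with
  | base => exact one_pos
  | step h hq hq2 hd hs ih => exact Nat.mul_pos ih hq.pos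

/-- the images of reachable vertices -/
theorem Rl.map {K : ℕ} {w0 : Vx} {σ : GB w0} (hσ : Cm K σ w0.V w0.V) {n : ℕ} {w : Vx}
    (h : Rl w0 n w) : ∃ w', Rl w0 n w' ∧ Cm K σ w.V w'.V := by
  induction h with
  | base => exact ⟨w0, Rl.base, hσ⟩
  | step h hq hq2 hd hs ih =>
    rename_i n q w s
    obtain ⟨w', h1, h2⟩ := ih
    have hd1 := h.dvd hd
    have hd2 := h1.dvd hd
    obtain ⟨s', h3, h4⟩ := nb_rel hq hq2 hd1 hd2 h2.rel hs
    exact ⟨s', h1.step hq hq2 hd h3, h2.nb hq hq2 hd1 hd2 hs h4⟩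

theorem Rl.alg {w0 : Vx} {n : ℕ} {w : Vx} (h : Rl w0 n w) : IsAlgebraic (KB w0) w.V := by
  induction h with
  | base => exact (relV (1 : GB w0)).left
  | step h hq hq2 hd hs ih => exact nb_alg hq hq2 (h.dvd hd) ih hs

theorem upn_one (w : Vx) : upn w 1 = w :=
  Vx.ext (by rw [upn_z one_ne_zero, pow_one]) (by rw [upn_a one_ne_zero, one_mul])

theorem upn_upn {w : Vx} {d q : ℕ} (hd : d ≠ 0) (hq : q ≠ 0) : upn (upn w d) q = upn w (d * q) :=
  Vx.ext (by rw [upn_z hq, upn_z hd, upn_z (mul_ne_zero hd hq), pow_mul])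
    (by rw [upn_a hq, upn_a hd, upn_a (mul_ne_zero hd hq)]; ring)

theorem ne_two_of_dvd {a q : ℕ} (ha : Odd a) (h : q ∣ a) : q ≠ 2 := by
  rintro rfl
  exact (Nat.not_even_iff_odd.2 ha) (even_iff_two_dvd.2 h)

/-- going up -/
theorem rl_up {w0 : Vx} (hodd : Odd w0.a) (d : ℕ) : d ∣ w0.a → Rl w0 d (upn w0 d) := by
  induction d using Nat.strong_induction_on with
  | _ d ih =>
    intro hd
    have hd0 : 0 < d := Nat.pos_of_dvd_of_pos hd (Nat.pos_of_ne_zero w0.ha)
    by_cases h1 : d = 1
    · rw [h1, upn_one]; exact Rl.base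
    · obtain ⟨q, hq, m, rfl⟩ := Nat.exists_prime_and_dvd h1
      have hm0 : 0 < m := Nat.pos_of_ne_zero (by
        rintro rfl
        rw [mul_zero] at hd0
        omega)
      have hmq : m < q * m := by
        have := hq.two_le
        nlinarith
      have h2 := ih m hmq (dvd_trans (Dvd.intro_left q rfl) hd)
      rw [mul_comm] at hd ⊢
      rw [← upn_upn hm0.ne' hq.ne_zero]
      refine h2.step hq ?_ hd (nb_upn hq.ne_zero)
      exact ne_two_of_dvd hodd (dvd_trans (Dvd.intro_left m rfl) hd)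

/-- uniqueness form of `nb_rel` -/
theorem nb_of_rel {w0 w w' s s' : Vx} {σ : GB w0} {q : ℕ} (hq : q.Prime) (hq2 : q ≠ 2)
    (hd : q ∣ w.a) (hd' : q ∣ w'.a) (h : Rel σ w.V w'.V) (hs : Nb q w s) (hr : Rel σ s.V s'.V) :
    Nb q w' s' := by
  obtain ⟨s1, h1, h2⟩ := nb_rel hq hq2 hd hd' h hs
  have h3 := V_inj (hr.unique h2)
  rw [h3]
  exact h1

/-- an automorphism which moves all the upper neighbours flips the whole upper part -/
theorem flipB {w0 : Vx} (hodd : Odd w0.a) {g : GB w0} (n : ℕ) (hn : n ∣ w0.a)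
    (hg : ∀ q ∈ n.primeFactors, Mvs g q) (d : ℕ) :
    d ∣ n → ∃ y : Vx, d * y.a = w0.a ∧ y.z ^ d = w0.z ∧ Rel g (upn w0 d).V y.V := by
  have hn0 : n ≠ 0 := by
    rintro rfl
    exact w0.ha (Nat.eq_zero_of_zero_dvd hn)
  induction d using Nat.strong_induction_on with
  | _ d ih =>
    intro hd
    have hd0 : 0 < d := Nat.pos_of_dvd_of_pos hd (Nat.pos_of_ne_zero hn0)
    by_cases h1 : d = 1
    · rw [h1, upn_one]
      exact ⟨w0, one_mul _, pow_one _, relV g⟩
    · obtain ⟨q, hq, m, rfl⟩ := Nat.exists_prime_and_dvd h1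
      have hm0 : 0 < m := Nat.pos_of_ne_zero (by
        rintro rfl
        rw [mul_zero] at hd0
        omega)
      have hq2' := hq.two_le
      have hmq : m < q * m := by nlinarith
      have hqn : q ∣ n := dvd_trans (Dvd.intro m rfl) hd
      have hqa : q ∣ w0.a := dvd_trans hqn hn
      have hq2 := ne_two_of_dvd hodd hqa
      have hop : OP w0 q := ⟨hq, hq2, hqa⟩
      have hmv := hg q (Nat.mem_primeFactors.2 ⟨hq, hqn, hn0⟩)
      obtain ⟨ym, e1, e2, e3⟩ := ih m hmq (dvd_trans (Dvd.intro_left q rfl) hd)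
      have hqym : q ∣ ym.a := by
        have h2 : m * q ∣ m * ym.a := by
          rw [e1, mul_comm]
          exact dvd_trans hd hn
        exact Nat.dvd_of_mul_dvd_mul_left hm0 h2
      have hqup : q ∣ (upn w0 m).a := by
        rw [upn_a hm0.ne']
        exact dvd_mul_of_dvd_right hqa m
      have hnb : Nb q (upn w0 m) (upn w0 (q * m)) := by
        rw [mul_comm, ← upn_upn hm0.ne' hq.ne_zero]
        exact nb_upn hq.ne_zero
      obtain ⟨s, hs, hr⟩ := nb_rel hq hq2 hqup hqym e3 hnb
      have hlow : (ym.z = s.z ^ q ∧ ym.a = q * s.a) →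
          ∃ y : Vx, q * m * y.a = w0.a ∧ y.z ^ (q * m) = w0.z ∧
            Rel g (upn w0 (q * m)).V y.V := by
        rintro ⟨h2, h3⟩
        refine ⟨s, ?_, ?_, hr⟩
        · rw [← e1, h3]; ring
        · rw [pow_mul, ← h2, e2]
      have hapos := Nat.pos_of_ne_zero w0.ha
      rcases hs with ⟨hs1, hs2⟩ | hs
      swap
      · exact hlow hs
      -- the upper case is impossible
      exfalso
      have hspos := Nat.pos_of_ne_zero s.ha
      by_cases hm1 : m = 1
      · subst hm1
        rw [upn_one] at e3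
        have h2 := V_inj (e3.unique (relV g))
        have h3 : s = upn w0 q := by
          refine Vx.ext ?_ ?_
          · rw [hs1, h2, upn_z hq.ne_zero]
          · rw [hs2, h2, upn_a hq.ne_zero]
        rw [mul_one, h3] at hr
        exact hmv hr
      · obtain ⟨q', hq', m', rfl⟩ := Nat.exists_prime_and_dvd hm1
        have hm'0 : 0 < m' := Nat.pos_of_ne_zero (by
          rintro rfl
          rw [mul_zero] at hm0
          omega)
        have hq'2' := hq'.two_le
        have hq'n : q' ∣ n :=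
          dvd_trans (dvd_trans (Dvd.intro m' rfl) (Dvd.intro_left q rfl)) hd
        have hq'2 := ne_two_of_dvd hodd (dvd_trans hq'n hn)
        by_cases hqq : q' = q
        · subst hqq
          have h3 : m' < q' * (q' * m') := by nlinarith
          obtain ⟨y', f1, f2, f3⟩ := ih m' h3
            (dvd_trans (dvd_trans (Dvd.intro_left q' rfl) (Dvd.intro_left q' rfl)) hd)
          have hnb' : Nb q' (upn w0 (q' * m')) (upn w0 m') := by
            rw [mul_comm, ← upn_upn hm'0.ne' hq.ne_zero]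
            exact (nb_upn hq.ne_zero).symm
          have h4 := nb_of_rel hq hq2 hqup hqym e3 hnb' f3
          have h5 : y'.a = q' * ym.a := by
            have h6 : m' * y'.a = m' * (q' * ym.a) := by
              rw [f1, ← e1]; ring
            exact Nat.eq_of_mul_eq_mul_left hm'0 h6
          have h6 : y' = s := by
            rcases h4 with h4 | h4
            · exact Vx.ext (h4.1.trans hs1.symm) (h4.2.trans hs2.symm)
            · exfalso
              have h7 := h4.2
              have h8 := Nat.pos_of_ne_zero ym.ha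
              rw [h5] at h7
              nlinarith
          rw [h6] at f3
          have h7 := congrArg Vx.a (V_inj (hr.inj f3))
          rw [upn_a hd0.ne', upn_a hm'0.ne'] at h7
          have h8 := Nat.eq_of_mul_eq_mul_right hapos h7
          omega
        · have hqm' : 0 < q * m' := by positivity
          have h3 : q * m' < q * (q' * m') := by nlinarith
          have h3' : q * m' * q' = q * (q' * m') := by ring
          obtain ⟨y', f1, f2, f3⟩ := ih (q * m') h3
            (dvd_trans (Dvd.intro q' h3') hd)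
          have hnb' : Nb q' (upn w0 (q * m')) (upn w0 (q * (q' * m'))) := by
            rw [← h3', ← upn_upn hqm'.ne' hq'.ne_zero]
            exact nb_upn hq'.ne_zero
          have g1 : q' ∣ (upn w0 (q * m')).a := by
            rw [upn_a hqm'.ne']
            exact dvd_mul_of_dvd_right (dvd_trans hq'n hn) _
          have g2 : q' ∣ y'.a := by
            have h5 : q * m' * q' ∣ q * m' * y'.a := by
              rw [f1, h3']
              exact dvd_trans hd hn
            exact Nat.dvd_of_mul_dvd_mul_left hqm' h5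
          have h4 := nb_of_rel hq' hq'2 g1 g2 f3 hnb' hr
          have k1 : q' * m' * s.a = q * w0.a := by rw [hs2, ← e1]; ring
          rcases h4 with ⟨-, h4⟩ | ⟨-, h4⟩
          · have k2 : q * m' * s.a = q' * w0.a := by rw [h4, ← f1]; ring
            have k3 : q' * q' * (m' * s.a) = q * q * (m' * s.a) := by
              linear_combination q' * k1 - q * k2
            have k4 : 0 < m' * s.a := by positivity
            have k5 := Nat.eq_of_mul_eq_mul_right k4 k3
            exact hqq (Nat.mul_self_inj.1 k5)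
          · have k2 : q * (q' * m' * s.a) = w0.a := by rw [← f1, h4]; ring
            rw [k1] at k2
            nlinarith

end Pool.Agent.Q41.RA
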