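import Pool.Agent.Q41.RA.Flip

set_option autoImplicit false

/-!
# Cube roots
-/

namespace Pool.Agent.Q41.RA

open Pool.Agent.TH693.PP Pool.Agent.TH693.QQ Pool.Agent.H397R2.PP Pool.Agent.Y627.PT

/-- the cube root of `V / z` -/
noncomputable def rt (w : Vx) : LL :=
  HahnSeries.single ((w.a / 3 : ℕ) : ℤ) (1 : kk) * w.ev E ^ 8

theorem rt_cube {w : Vx} (h : 3 ∣ w.a) : rt w ^ 3 = HahnSeries.C w.z⁻¹ * w.V := by
  obtain ⟨c, hc⟩ := h
  have h1 : w.V = HahnSeries.single (w.a : ℤ) w.z * w.ev E ^ 24 := by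
    unfold Vx.V
    rw [Db_eq, Vx.ev_mul, Vx.ev_pow, Vx.ev_X]
  have h2 : w.a / 3 = c := by rw [hc, Nat.mul_div_cancel_left c (by norm_num)]
  have h3 : (HahnSeries.single ((w.a / 3 : ℕ) : ℤ) (1 : kk) : LL) ^ 3 =
      HahnSeries.C w.z⁻¹ * HahnSeries.single (w.a : ℤ) w.z := by
    rw [h2, HahnSeries.single_pow, one_pow, HahnSeries.C_apply, HahnSeries.single_mul_single,
      zero_add, inv_mul_cancel₀ w.hz, hc]
    congr 1
  unfold rt
  rw [mul_pow, h3, h1, ← pow_mul]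
  ring

theorem LT_rt (w : Vx) : LT ((w.a / 3 : ℕ) : ℤ) 1 (rt w) := by
  have h := (LT_single (1 : kk) ((w.a / 3 : ℕ) : ℤ)).mul ((w.LT_ev_one E coeff_zero_E).pow 8)
  rw [mul_zero, add_zero, one_pow, mul_one] at h
  exact h

theorem rt_ne (w : Vx) : rt w ≠ 0 := (LT_rt w).ne_zero one_ne_zero

theorem alg_of_cube {w0 : Vx} {x : LL} (h : IsAlgebraic (KB w0) (x ^ 3)) :
    IsAlgebraic (KB w0) x := h.of_pow (by norm_num)

theorem rt_alg {w0 w : Vx} (h : 3 ∣ w.a) (hw : IsAlgebraic (KB w0) w.V) :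
    IsAlgebraic (KB w0) (rt w) := by
  apply alg_of_cube
  rw [rt_cube h]
  exact (relC (1 : GB w0) _).left.mul hw

/-- cube roots of related elements -/
theorem rel_cube {w0 : Vx} {σ : GB w0} {x y : LL} (hx : IsAlgebraic (KB w0) x)
    (hy : IsAlgebraic (KB w0) y) (h : Rel σ (x ^ 3) (y ^ 3)) :
    ∃ ω : kk, ω ^ 3 = 1 ∧ Rel σ x (HahnSeries.C ω * y) := by
  have h1 := (rel_iff.1 h).2.2
  rw [em_pow hx, em_pow hy, map_pow] at h1
  have hne : NeZero ((3 : ℕ) : ZMod 2) := ⟨by decide⟩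
  obtain ⟨ζ, hζ⟩ := HasEnoughRootsOfUnity.exists_primitiveRoot kk 3
  have h3 : ζ ^ 3 = 1 := hζ.pow_eq_one
  have hz1 : ζ - 1 ≠ 0 := sub_ne_zero.2 (hζ.ne_one (by norm_num))
  have h4 : ζ ^ 2 + ζ + 1 = 0 := by
    have h5 : (ζ - 1) * (ζ ^ 2 + ζ + 1) = 0 := by linear_combination h3
    exact (mul_eq_zero.1 h5).resolve_left hz1
  have hC : ∀ c : kk, IsAlgebraic (KB w0) (HahnSeries.C c : LL) := fun c => (relC (1 : GB w0) c).left
  set Z := em (KB w0) (HahnSeries.C ζ : LL) with hZ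
  have hZ1 : Z ^ 2 + Z + 1 = 0 := by
    have h5 : (HahnSeries.C ζ : LL) ^ 2 + HahnSeries.C ζ + 1 = 0 := by
      rw [← map_pow, ← map_add, ← map_one (HahnSeries.C : kk →+* LL), ← map_add, h4, map_zero]
    have h6 := congrArg (em (KB w0)) h5
    have hone : IsAlgebraic (KB w0) (1 : LL) := by
      rw [← map_one (HahnSeries.C : kk →+* LL)]; exact hC 1
    have e1 : em (KB w0) (1 : LL) = 1 := by
      have := em_coe (K := KB w0) (L := LL) 1
      rw [map_one] at this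
      exact this
    have e0 : em (KB w0) (0 : LL) = 0 := by
      have := em_coe (K := KB w0) (L := LL) 0
      rw [map_zero] at this
      exact this
    rw [em_add (((hC ζ).pow 2).add (hC ζ)) hone, em_add ((hC ζ).pow 2) (hC ζ),
      em_pow (hC ζ), e1, e0] at h6
    exact h6
  set a := σ (em (KB w0) x) with ha
  set b := em (KB w0) y with hb
  have h5 : (a - b) * ((a - Z * b) * (a - Z ^ 2 * b)) = 0 := by
    have h6 : Z ^ 3 = 1 := by linear_combination (Z - 1) * hZ1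
    linear_combination h1 + (-(a ^ 2 * b) + a * b ^ 2 * Z) * hZ1 + (- b ^ 3) * h6
  rcases mul_eq_zero.1 h5 with h6 | h6
  · refine ⟨1, one_pow _, ?_⟩
    rw [map_one, one_mul]
    exact rel_iff.2 ⟨hx, hy, sub_eq_zero.1 h6⟩
  · rcases mul_eq_zero.1 h6 with h7 | h7
    · refine ⟨ζ, h3, rel_iff.2 ⟨hx, (hC ζ).mul hy, ?_⟩⟩
      rw [em_mul (hC ζ) hy]
      exact sub_eq_zero.1 h7
    · refine ⟨ζ ^ 2, by rw [← pow_mul, mul_comm, pow_mul, h3, one_pow],
        rel_iff.2 ⟨hx, (hC _).mul hy, ?_⟩⟩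
      rw [em_mul (hC _) hy, map_pow, em_pow (hC ζ)]
      exact sub_eq_zero.1 h7

/-- the images of the cube roots -/
theorem rt_cm {K : ℕ} {w0 w w' : Vx} {σ : GB w0} (h : Cm K σ w.V w'.V) (hw : 3 ∣ w.a)
    (hw' : 3 ∣ w'.a) : ∃ κ : kk, κ ≠ 0 ∧ Cm K σ (rt w) (HahnSeries.C κ * rt w') := by
  obtain ⟨k, hk⟩ := IsAlgClosed.exists_pow_nat_eq (w.z⁻¹ * w'.z) (n := 3) (by norm_num)
  have hk0 : k ≠ 0 := by
    rintro rfl
    rw [zero_pow (by norm_num)] at hk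
    exact mul_ne_zero (inv_ne_zero w.hz) w'.hz hk.symm
  have hC : ∀ c : kk, IsAlgebraic (KB w0) (HahnSeries.C c : LL) := fun c => (relC (1 : GB w0) c).left
  have h1 : (HahnSeries.C k * rt w' : LL) ^ 3 = HahnSeries.C w.z⁻¹ * w'.V := by
    rw [mul_pow, rt_cube hw', ← map_pow, hk, map_mul, mul_assoc, ← mul_assoc (HahnSeries.C w'.z),
      ← map_mul, mul_inv_cancel₀ w'.hz, map_one, one_mul]
  have hcm : Cm K σ (rt w ^ 3) ((HahnSeries.C k * rt w' : LL) ^ 3) := by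
    rw [h1, rt_cube hw]
    exact (Cm.C K σ _).mul h
  obtain ⟨ω, hω, h2⟩ := rel_cube (rt_alg hw h.rel.left)
    ((hC k).mul (rt_alg hw' h.rel.right)) hcm.rel
  have hω0 : ω ≠ 0 := by
    rintro rfl
    rw [zero_pow (by norm_num)] at hω
    exact zero_ne_one hω
  refine ⟨ω * k, mul_ne_zero hω0 hk0, ?_⟩
  rw [map_mul, mul_assoc]
  refine Cm.cube ?_ h2
  rw [mul_pow (HahnSeries.C ω : LL), ← map_pow (HahnSeries.C : kk →+* LL) ω, hω, map_one, one_mul]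
  exact hcm

end Pool.Agent.Q41.RA
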