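import Mathlib

set_option autoImplicit false

/-!
# Laurent series: multipliers of the coefficients, homogeneous parts, twists
-/

namespace Pool.Agent.Q41.RA

open HahnSeries

variable {F : Type} [Field F]

/-- multiplication of the coefficients by `h` -/
noncomputable def cm (h : ℤ → F) (x : HahnSeries ℤ F) : HahnSeries ℤ F where
  coeff n := h n * x.coeff n
  isPWO_support' := x.isPWO_support.mono (fun n hn => by
    rw [Function.mem_support] at hn
    rw [HahnSeries.mem_support]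
    exact right_ne_zero_of_mul hn)

@[simp] theorem coeff_cm (h : ℤ → F) (x : HahnSeries ℤ F) (n : ℤ) :
    (cm h x).coeff n = h n * x.coeff n := rfl

/-- the homogeneous part of class `c` modulo `Q` -/
noncomputable def pj (Q : ℕ) (c : ZMod Q) : HahnSeries ℤ F →+ HahnSeries ℤ F where
  toFun x := cm (fun n => if (n : ZMod Q) = c then 1 else 0) x
  map_zero' := by ext n; simp
  map_add' x y := by ext n; simp [mul_add]

theorem coeff_pj (Q : ℕ) (c : ZMod Q) (x : HahnSeries ℤ F) (n : ℤ) :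
    (pj Q c x).coeff n = if (n : ZMod Q) = c then x.coeff n else 0 := by
  change (if (n : ZMod Q) = c then (1 : F) else 0) * x.coeff n = _
  split_ifs <;> simp

/-- homogeneous of class `c` -/
def Hom (Q : ℕ) (c : ZMod Q) (x : HahnSeries ℤ F) : Prop :=
  ∀ n : ℤ, x.coeff n ≠ 0 → (n : ZMod Q) = c

theorem hom_pj (Q : ℕ) (c : ZMod Q) (x : HahnSeries ℤ F) : Hom Q c (pj Q c x) := by
  intro n hn
  rw [coeff_pj] at hn
  by_contra h
  rw [if_neg h] at hn
  exact hn rfl

theorem pj_of_hom {Q : ℕ} {c : ZMod Q} {x : HahnSeries ℤ F} (h : Hom Q c x) : pj Q c x = x := by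
  ext n
  rw [coeff_pj]
  split_ifs with h1
  · rfl
  · by_contra h2
    exact h1 (h n (fun h3 => h2 h3.symm))

theorem pj_of_hom_ne {Q : ℕ} {c d : ZMod Q} {x : HahnSeries ℤ F} (h : Hom Q c x) (hd : c ≠ d) :
    pj Q d x = 0 := by
  ext n
  rw [coeff_pj]
  split_ifs with h1
  · by_contra h2
    exact hd ((h n (by simpa using h2)).symm.trans h1)
  · simp

theorem hom_mul {Q : ℕ} {c d : ZMod Q} {x y : HahnSeries ℤ F} (hx : Hom Q c x) (hy : Hom Q d y) :
    Hom Q (c + d) (x * y) := by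
  intro n hn
  rw [HahnSeries.coeff_mul] at hn
  obtain ⟨ij, h1, h2⟩ := Finset.exists_ne_zero_of_sum_ne_zero hn
  rw [Finset.mem_antidiagonal] at h1
  obtain ⟨-, -, h3⟩ := h1
  rw [← h3, Int.cast_add, hx _ (left_ne_zero_of_mul h2), hy _ (right_ne_zero_of_mul h2)]

theorem hom_one (Q : ℕ) : Hom Q 0 (1 : HahnSeries ℤ F) := by
  intro n hn
  rw [HahnSeries.coeff_one] at hn
  by_cases h : n = 0
  · rw [h]; simp
  · rw [if_neg h] at hn
    exact absurd rfl hn

theorem hom_pow {Q : ℕ} {c : ZMod Q} {x : HahnSeries ℤ F} (hx : Hom Q c x) (k : ℕ) :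
    Hom Q (k • c) (x ^ k) := by
  induction k with
  | zero => rw [zero_nsmul, pow_zero]; exact hom_one Q
  | succ k ih => rw [pow_succ, succ_nsmul]; exact hom_mul ih hx

theorem hom_C (Q : ℕ) (a : F) : Hom Q 0 (HahnSeries.C a : HahnSeries ℤ F) := by
  intro n hn
  by_cases h : n = 0
  · rw [h]; simp
  · exact absurd (HahnSeries.coeff_single_of_ne h) hn

theorem sum_pj (Q : ℕ) [NeZero Q] (x : HahnSeries ℤ F) : ∑ c : ZMod Q, pj Q c x = x := by
  ext n
  rw [HahnSeries.coeff_sum]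
  simp only [coeff_pj]
  rw [Finset.sum_ite_eq]
  simp

theorem pj_mul (Q : ℕ) [NeZero Q] (c : ZMod Q) (x y : HahnSeries ℤ F) :
    pj Q c (x * y) = ∑ d : ZMod Q, pj Q d x * pj Q (c - d) y := by
  have h1 : x * y = ∑ d : ZMod Q, ∑ e : ZMod Q, pj Q d x * pj Q e y := by
    rw [← Finset.sum_mul_sum, sum_pj, sum_pj]
  rw [h1, map_sum]
  refine Finset.sum_congr rfl fun d _ => ?_
  rw [map_sum, Finset.sum_eq_single (c - d)]
  · rw [pj_of_hom]
    have := hom_mul (hom_pj Q d x) (hom_pj Q (c - d) y)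
    rwa [add_sub_cancel] at this
  · intro e _ he
    refine pj_of_hom_ne (hom_mul (hom_pj Q d x) (hom_pj Q e y)) ?_
    intro h
    exact he (eq_sub_of_add_eq' h)
  · intro h
    exact absurd (Finset.mem_univ _) h

/-- in characteristic two a power with exponent `Q = 2 ^ K` is homogeneous of class `0` -/
theorem hom_frob [CharP F 2] (K : ℕ) (x : HahnSeries ℤ F) : Hom (2 ^ K) 0 (x ^ 2 ^ K) := by
  have : CharP (HahnSeries ℤ F) 2 := by
    exact charP_of_injective_ringHom (HahnSeries.C_injective (Γ := ℤ) (R := F)) 2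
  have h1 : x ^ 2 ^ K = ∑ c : ZMod (2 ^ K), pj (2 ^ K) c x ^ 2 ^ K := by
    conv_lhs => rw [← sum_pj (2 ^ K) x]
    exact sum_pow_char_pow 2 K _ _
  rw [h1]
  intro n hn
  rw [HahnSeries.coeff_sum] at hn
  obtain ⟨c, -, h2⟩ := Finset.exists_ne_zero_of_sum_ne_zero hn
  have h3 := hom_pow (hom_pj (2 ^ K) c x) (2 ^ K) n h2
  rw [h3, nsmul_eq_mul]
  have : ((2 ^ K : ℕ) : ZMod (2 ^ K)) = 0 := ZMod.natCast_self _
  rw [this, zero_mul]

theorem pj_frob_mul [CharP F 2] (K : ℕ) (c : ZMod (2 ^ K)) (x y : HahnSeries ℤ F) :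
    pj (2 ^ K) c (x ^ 2 ^ K * y) = x ^ 2 ^ K * pj (2 ^ K) c y := by
  rw [pj_mul, Finset.sum_eq_single 0]
  · rw [pj_of_hom (hom_frob K x), sub_zero]
  · intro d _ hd
    rw [pj_of_hom_ne (hom_frob K x) (Ne.symm hd), zero_mul]
  · intro h
    exact absurd (Finset.mem_univ _) h

/-- the twist `t → ξ t` -/
noncomputable def tw (ξ : Fˣ) : HahnSeries ℤ F ≃+* HahnSeries ℤ F where
  toFun := cm (fun n => ((ξ ^ n : Fˣ) : F))
  invFun := cm (fun n => ((ξ⁻¹ ^ n : Fˣ) : F))
  left_inv x := by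
    ext n
    rw [coeff_cm, coeff_cm, ← mul_assoc, ← Units.val_mul, inv_zpow, inv_mul_cancel, Units.val_one,
      one_mul]
  right_inv x := by
    ext n
    rw [coeff_cm, coeff_cm, ← mul_assoc, ← Units.val_mul, inv_zpow, mul_inv_cancel, Units.val_one,
      one_mul]
  map_add' x y := by ext n; simp [mul_add]
  map_mul' x y := by
    ext n
    rw [coeff_cm, HahnSeries.coeff_mul, HahnSeries.coeff_mul, Finset.mul_sum]
    have hs : ∀ z : HahnSeries ℤ F, (cm (fun n => ((ξ ^ n : Fˣ) : F)) z).support = z.support := by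
      intro z
      ext m
      rw [HahnSeries.mem_support, HahnSeries.mem_support, coeff_cm]
      constructor
      · exact right_ne_zero_of_mul
      · exact mul_ne_zero (Units.ne_zero _)
    refine Finset.sum_congr ?_ ?_
    · ext ij
      rw [Finset.mem_antidiagonal, Finset.mem_antidiagonal, hs, hs]
    · intro ij hij
      rw [Finset.mem_antidiagonal] at hij
      rw [coeff_cm, coeff_cm, ← hij.2.2, zpow_add, Units.val_mul]
      ring

@[simp] theorem coeff_tw (ξ : Fˣ) (x : HahnSeries ℤ F) (n : ℤ) :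
    (tw ξ x).coeff n = ((ξ ^ n : Fˣ) : F) * x.coeff n := rfl

theorem tw_C (ξ : Fˣ) (a : F) : tw ξ (HahnSeries.C a) = HahnSeries.C a := by
  ext n
  rw [coeff_tw]
  by_cases h : n = 0
  · rw [h]; simp
  · rw [show (HahnSeries.C a : HahnSeries ℤ F).coeff n = 0 from HahnSeries.coeff_single_of_ne h,
      mul_zero]

theorem tw_pj (ξ : Fˣ) (Q : ℕ) (c : ZMod Q) (x : HahnSeries ℤ F) :
    tw ξ (pj Q c x) = pj Q c (tw ξ x) := by
  ext n
  rw [coeff_tw, coeff_pj, coeff_pj, coeff_tw]
  split_ifs <;> simp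

/-- the leading term of `x` is `c t ^ e` -/
def LT (e : ℤ) (c : F) (x : HahnSeries ℤ F) : Prop := x.coeff e = c ∧ ∀ m < e, x.coeff m = 0

theorem LT.mul {e e' : ℤ} {c c' : F} {x y : HahnSeries ℤ F} (hx : LT e c x) (hy : LT e' c' y) :
    LT (e + e') (c * c') (x * y) := by
  constructor
  · rw [HahnSeries.coeff_mul, ← hx.1, ← hy.1]
    by_cases h : x.coeff e = 0 ∨ y.coeff e' = 0
    · have h0 : x.coeff e * y.coeff e' = 0 := by
        rcases h with h | h <;> rw [h] <;> simp
      rw [h0]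
      refine Finset.sum_eq_zero fun ij hij => ?_
      rw [Finset.mem_antidiagonal] at hij
      obtain ⟨h1, h2, h3⟩ := hij
      have h4 : e ≤ ij.1 := by
        by_contra h5
        exact h1 (hx.2 _ (not_le.1 h5))
      have h4' : e' ≤ ij.2 := by
        by_contra h5
        exact h2 (hy.2 _ (not_le.1 h5))
      have h5 : ij.1 = e := by omega
      have h6 : ij.2 = e' := by omega
      rw [h5, h6, h0]
    · push Not at h
      rw [Finset.sum_eq_single (e, e')]
      · intro ij hij hne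
        rw [Finset.mem_antidiagonal] at hij
        obtain ⟨h1, h2, h3⟩ := hij
        have h4 : e ≤ ij.1 := by
          by_contra h5
          exact h1 (hx.2 _ (not_le.1 h5))
        have h4' : e' ≤ ij.2 := by
          by_contra h5
          exact h2 (hy.2 _ (not_le.1 h5))
        have h5 : ij.1 = e := by omega
        have h6 : ij.2 = e' := by omega
        exact absurd (Prod.ext h5 h6) hne
      · intro h1
        exact absurd (Finset.mem_antidiagonal.2 ⟨h.1, h.2, rfl⟩) h1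
  · intro m hm
    rw [HahnSeries.coeff_mul]
    refine Finset.sum_eq_zero fun ij hij => ?_
    rw [Finset.mem_antidiagonal] at hij
    obtain ⟨h1, h2, h3⟩ := hij
    have h4 : e ≤ ij.1 := by
      by_contra h5
      exact h1 (hx.2 _ (not_le.1 h5))
    have h4' : e' ≤ ij.2 := by
      by_contra h5
      exact h2 (hy.2 _ (not_le.1 h5))
    omega

theorem LT_one : LT 0 (1 : F) 1 := by
  constructor
  · simp
  · intro m hm
    rw [HahnSeries.coeff_one, if_neg hm.ne]

theorem LT.pow {e : ℤ} {c : F} {x : HahnSeries ℤ F} (hx : LT e c x) (k : ℕ) :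
    LT (k * e) (c ^ k) (x ^ k) := by
  induction k with
  | zero => simpa using LT_one
  | succ k ih =>
    have := ih.mul hx
    rw [pow_succ, pow_succ]
    rwa [show ((k + 1 : ℕ) : ℤ) * e = (k : ℤ) * e + e by push_cast; ring]

theorem LT.ne_zero {e : ℤ} {c : F} {x : HahnSeries ℤ F} (hx : LT e c x) (hc : c ≠ 0) : x ≠ 0 := by
  rintro rfl
  exact hc (by simpa using hx.1.symm)

theorem LT.unique {e e' : ℤ} {c c' : F} {x : HahnSeries ℤ F} (hx : LT e c x) (hc : c ≠ 0)
    (hx' : LT e' c' x) (hc' : c' ≠ 0) : e = e' ∧ c = c' := by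
  have h : e = e' := by
    rcases lt_trichotomy e e' with h | h | h
    · exact absurd (hx.1.symm.trans (hx'.2 _ h)) hc
    · exact h
    · exact absurd (hx'.1.symm.trans (hx.2 _ h)) hc'
  refine ⟨h, ?_⟩
  rw [← hx.1, ← hx'.1, h]

theorem exists_LT {x : HahnSeries ℤ F} (hx : x ≠ 0) : ∃ (e : ℤ) (c : F), c ≠ 0 ∧ LT e c x :=
  ⟨x.order, x.leadingCoeff, HahnSeries.leadingCoeff_ne_zero.2 hx,
    HahnSeries.leadingCoeff_eq.symm, fun _ hm => HahnSeries.coeff_eq_zero_of_lt_order hm⟩

theorem LT.inv {e : ℤ} {c : F} {x : HahnSeries ℤ F} (hx : LT e c x) (hc : c ≠ 0) :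
    LT (-e) c⁻¹ x⁻¹ := by
  have h0 := hx.ne_zero hc
  obtain ⟨e', c', hc', h'⟩ := exists_LT (inv_ne_zero h0)
  have h1 := hx.mul h'
  rw [mul_inv_cancel₀ h0] at h1
  obtain ⟨h2, h3⟩ := h1.unique (mul_ne_zero hc hc') LT_one one_ne_zero
  have h4 : e' = -e := by omega
  have h5 : c' = c⁻¹ := eq_inv_of_mul_eq_one_right h3
  rw [← h4, ← h5]
  exact h'

theorem LT.add_lt {e e' : ℤ} {c c' : F} {x y : HahnSeries ℤ F} (hx : LT e c x) (hy : LT e' c' y)
    (h : e < e') : LT e c (x + y) := by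
  constructor
  · rw [HahnSeries.coeff_add, hx.1, hy.2 _ h, add_zero]
  · intro m hm
    rw [HahnSeries.coeff_add, hx.2 _ hm, hy.2 _ (hm.trans h), add_zero]

theorem LT_C (a : F) : LT 0 a (HahnSeries.C a) := by
  constructor
  · simp
  · intro m hm
    exact HahnSeries.coeff_single_of_ne hm.ne

end Pool.Agent.Q41.RA
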