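import Pool.Agent.Q41.RA.Ser

set_option autoImplicit false

/-!
# The substitutions `X → z t ^ a`
-/

namespace Pool.Agent.Q41.RA

open HahnSeries

variable {F : Type} [Field F]

/-- the substitution `X → z t ^ a` -/
noncomputable def sub (z : F) (a : ℕ) (ha : a ≠ 0) : PowerSeries F →+* HahnSeries ℤ F :=
  (HahnSeries.ofPowerSeries ℤ F).comp
    (((PowerSeries.expand a ha : PowerSeries F →ₐ[F] PowerSeries F) :
      PowerSeries F →+* PowerSeries F).comp (PowerSeries.rescale z))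

theorem sub_apply (z : F) (a : ℕ) (ha : a ≠ 0) (f : PowerSeries F) :
    sub z a ha f = HahnSeries.ofPowerSeries ℤ F (PowerSeries.expand a ha
      (PowerSeries.rescale z f)) := rfl

theorem coeff_sub_nat (z : F) (a : ℕ) (ha : a ≠ 0) (f : PowerSeries F) (n : ℕ) :
    (sub z a ha f).coeff (n : ℤ) =
      if a ∣ n then z ^ (n / a) * PowerSeries.coeff (n / a) f else 0 := by
  rw [sub_apply, HahnSeries.ofPowerSeries_apply_coeff, PowerSeries.coeff_expand]
  split_ifs
  · rw [PowerSeries.coeff_rescale]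
  · rfl

theorem coeff_sub_neg (z : F) (a : ℕ) (ha : a ≠ 0) (f : PowerSeries F) (n : ℤ) (hn : n < 0) :
    (sub z a ha f).coeff n = 0 := by
  rw [sub_apply, HahnSeries.ofPowerSeries_apply]
  apply HahnSeries.embDomain_of_notMem_range
  rintro ⟨m, hm⟩
  have : (m : ℤ) = n := hm
  omega

theorem coeff_sub_mul (z : F) (a : ℕ) (ha : a ≠ 0) (f : PowerSeries F) (n : ℕ) :
    (sub z a ha f).coeff ((a * n : ℕ) : ℤ) = z ^ n * PowerSeries.coeff n f := by
  rw [coeff_sub_nat, if_pos (Dvd.intro n rfl), Nat.mul_div_cancel_left n (Nat.pos_of_ne_zero ha)]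

/-- a nonzero coefficient is at a multiple of `a` -/
theorem coeff_sub_ne (z : F) (a : ℕ) (ha : a ≠ 0) (f : PowerSeries F) (n : ℤ)
    (hn : (sub z a ha f).coeff n ≠ 0) :
    ∃ m : ℕ, n = ((a * m : ℕ) : ℤ) ∧ PowerSeries.coeff m f ≠ 0 := by
  rcases lt_or_ge n 0 with h | h
  · exact absurd (coeff_sub_neg z a ha f n h) hn
  · obtain ⟨k, rfl⟩ := Int.eq_ofNat_of_zero_le h
    rw [coeff_sub_nat] at hn
    by_cases hd : a ∣ k
    · obtain ⟨m, rfl⟩ := hd
      rw [if_pos (Dvd.intro m rfl), Nat.mul_div_cancel_left m (Nat.pos_of_ne_zero ha)] at hn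
      exact ⟨m, rfl, right_ne_zero_of_mul hn⟩
    · rw [if_neg hd] at hn
      exact absurd rfl hn

theorem sub_ext {z : F} {a : ℕ} (ha : a ≠ 0) {f : PowerSeries F} {x : HahnSeries ℤ F}
    (h1 : ∀ n : ℕ, x.coeff ((a * n : ℕ) : ℤ) = z ^ n * PowerSeries.coeff n f)
    (h2 : ∀ n : ℤ, x.coeff n ≠ 0 → ∃ m : ℕ, n = ((a * m : ℕ) : ℤ)) : sub z a ha f = x := by
  ext n
  by_cases h : ∃ m : ℕ, n = ((a * m : ℕ) : ℤ)
  · obtain ⟨m, rfl⟩ := h
    rw [coeff_sub_mul, h1]
  · have h3 : x.coeff n = 0 := by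
      by_contra h4
      exact h (h2 n h4)
    rw [h3]
    by_contra h4
    obtain ⟨m, hm, -⟩ := coeff_sub_ne z a ha f n h4
    exact h ⟨m, hm⟩

theorem sub_expand (z : F) (a q : ℕ) (ha : a ≠ 0) (hq : q ≠ 0) (haq : q * a ≠ 0)
    (f : PowerSeries F) :
    sub z a ha (PowerSeries.expand q hq f) = sub (z ^ q) (q * a) haq f := by
  symm
  have hq' : 0 < q := Nat.pos_of_ne_zero hq
  apply sub_ext
  · intro n
    rw [show q * a * n = a * (q * n) by ring, coeff_sub_mul, PowerSeries.coeff_expand_mul, ← pow_mul]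
  · intro n hn
    obtain ⟨m, h1, h2⟩ := coeff_sub_ne _ _ _ _ _ hn
    rw [PowerSeries.coeff_expand] at h2
    by_cases h3 : q ∣ m
    · obtain ⟨k, rfl⟩ := h3
      exact ⟨k, by rw [h1]; push_cast; ring⟩
    · rw [if_neg h3] at h2
      exact absurd rfl h2

theorem sub_rescale (z y : F) (a : ℕ) (ha : a ≠ 0) (f : PowerSeries F) :
    sub z a ha (PowerSeries.rescale y f) = sub (z * y) a ha f := by
  symm
  apply sub_ext
  · intro n
    rw [coeff_sub_mul, PowerSeries.coeff_rescale, mul_pow, mul_assoc]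
  · intro n hn
    obtain ⟨m, h1, -⟩ := coeff_sub_ne _ _ _ _ _ hn
    exact ⟨m, h1⟩

theorem tw_sub (ξ : Fˣ) (z : F) (a : ℕ) (ha : a ≠ 0) (f : PowerSeries F) :
    tw ξ (sub z a ha f) = sub (z * (ξ : F) ^ a) a ha f := by
  symm
  apply sub_ext
  · intro n
    rw [coeff_tw, coeff_sub_mul, zpow_natCast, Units.val_pow_eq_pow_val, mul_pow, ← pow_mul]
    ring
  · intro n hn
    rw [coeff_tw] at hn
    obtain ⟨m, h1, -⟩ := coeff_sub_ne _ _ _ _ _ (right_ne_zero_of_mul hn)
    exact ⟨m, h1⟩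

theorem sub_C (z : F) (a : ℕ) (ha : a ≠ 0) (c : F) :
    sub z a ha (PowerSeries.C c) = HahnSeries.C c := by
  apply sub_ext
  · intro n
    by_cases h : n = 0
    · subst h
      simp
    · rw [PowerSeries.coeff_C, if_neg h, mul_zero]
      refine HahnSeries.coeff_single_of_ne ?_
      have : 0 < a * n := Nat.mul_pos (Nat.pos_of_ne_zero ha) (Nat.pos_of_ne_zero h)
      omega
  · intro n hn
    by_cases h : n = 0
    · exact ⟨0, by rw [h]; simp⟩
    · exact absurd (HahnSeries.coeff_single_of_ne h) hn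

theorem sub_X (z : F) (a : ℕ) (ha : a ≠ 0) :
    sub z a ha PowerSeries.X = HahnSeries.single (a : ℤ) z := by
  have hpos : 0 < a := Nat.pos_of_ne_zero ha
  apply sub_ext
  · intro n
    rw [PowerSeries.coeff_X]
    by_cases h : n = 1
    · subst h
      simp
    · rw [if_neg h, mul_zero]
      refine HahnSeries.coeff_single_of_ne ?_
      intro h1
      apply h
      have h2 : a * n = a * 1 := by
        rw [mul_one]
        exact_mod_cast h1
      exact Nat.eq_of_mul_eq_mul_left hpos h2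
  · intro n hn
    by_cases h : n = (a : ℤ)
    · exact ⟨1, by rw [h]; simp⟩
    · exact absurd (HahnSeries.coeff_single_of_ne h) hn

/-- leading term of a substituted series with constant coefficient one -/
theorem LT_sub_one (z : F) (a : ℕ) (ha : a ≠ 0) (f : PowerSeries F)
    (hf : PowerSeries.coeff 0 f = 1) : LT 0 1 (sub z a ha f) := by
  constructor
  · have := coeff_sub_mul z a ha f 0
    rw [mul_zero, pow_zero, one_mul, hf] at this
    exact_mod_cast this
  · intro m hm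
    exact coeff_sub_neg _ _ _ _ _ hm

theorem LT_single (z : F) (a : ℤ) : LT a z (HahnSeries.single a z) :=
  ⟨HahnSeries.coeff_single_same _ _, fun _ hm => HahnSeries.coeff_single_of_ne hm.ne⟩

/-- a substituted series is homogeneous if the series is -/
theorem hom_sub (Q : ℕ) (z : F) (a : ℕ) (ha : a ≠ 0) (f : PowerSeries F) (c : ZMod Q)
    (hf : ∀ n : ℕ, PowerSeries.coeff n f ≠ 0 → ((a * n : ℕ) : ZMod Q) = c) :
    Hom Q c (sub z a ha f) := by
  intro n hn
  obtain ⟨m, h1, h2⟩ := coeff_sub_ne _ _ _ _ _ hn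
  rw [h1, ← hf m h2]
  push_cast
  rfl

end Pool.Agent.Q41.RA
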