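import Pool.Agent.Q41.RA.Mv
import Pool.Agent.Q41.RA.Gal2
import Pool.Agent.TH693.QQ.QD1
import Pool.Agent.TH693.QQ.QD

set_option autoImplicit false

/-!
# Theta functions: the homogeneous parts of `D`
-/

namespace Pool.Agent.Q41.RA

open Pool.Agent.TH693.PP Pool.Agent.TH693.QQ Pool.Agent.H397R2.PP Pool.Agent.Y627.PT

theorem th_base {w : Vx} {b : ℤ} (hb : Odd b) : w.ev (th (2 ^ 2) b) = w.V := by
  have h : (2 : ℕ) ^ 2 = 4 := by norm_num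
  rw [h, D1.four b hb]
  rfl

theorem odd_add_pow {b : ℤ} (hb : Odd b) (k : ℕ) : Odd (b + 2 ^ (k + 1)) := by
  obtain ⟨c, hc⟩ := hb
  exact ⟨c + 2 ^ k, by rw [hc, pow_succ]; ring⟩

theorem th_split (w : Vx) (k : ℕ) (b : ℤ) :
    w.ev (th (2 ^ (k + 3)) b) + w.ev (th (2 ^ (k + 3)) (b + 2 ^ (k + 2))) =
      w.ev (th (2 ^ (k + 2)) b) := by
  rw [← Vx.ev_add, D1.split (k + 2) b]

theorem th_prod (w : Vx) (k : ℕ) (b : ℤ) :
    w.ev (th (2 ^ (k + 3)) b) * w.ev (th (2 ^ (k + 3)) (b + 2 ^ (k + 2))) =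
      w.V ^ 2 ^ (2 * (k + 2) - 1) * w.ev (th (2 ^ (k + 2)) (b + 2 ^ (k + 1))) ^ 2 := by
  rw [← Vx.ev_mul, D1.prod (k + 2) b (by omega), Vx.ev_mul, Vx.ev_pow, Vx.ev_pow]
  rfl

theorem th_alg {w0 w : Vx} (h : IsAlgebraic (KB w0) w.V) (k : ℕ) :
    ∀ b : ℤ, Odd b → IsAlgebraic (KB w0) (w.ev (th (2 ^ (k + 2)) b)) := by
  induction k with
  | zero => intro b hb; rw [zero_add, th_base hb]; exact h
  | succ k ih =>
    intro b hb
    refine alg_quad (y' := w.ev (th (2 ^ (k + 3)) (b + 2 ^ (k + 2)))) ?_ ?_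
    · exact (congrArg (IsAlgebraic (KB w0)) (th_split w k b)).mpr (ih b hb)
    · exact (congrArg (IsAlgebraic (KB w0)) (th_prod w k b)).mpr
        ((h.pow _).mul ((ih _ (odd_add_pow hb k)).pow 2))

theorem th_per (w : Vx) (k : ℕ) (b : ℤ) :
    w.ev (th (2 ^ (k + 1)) (b + 2 ^ k + 2 ^ k)) = w.ev (th (2 ^ (k + 1)) b) := by
  have h := D1.per (2 ^ (k + 1)) b
  have h1 : b + 2 ^ k + 2 ^ k = b + ((2 ^ (k + 1) : ℕ) : ℤ) := by push_cast; ring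
  rw [h1, h]

theorem th_rel {w0 w w' : Vx} {σ : GB w0} (h : Rel σ w.V w'.V) (k : ℕ) :
    ∀ b : ℤ, Odd b → ∃ b' : ℤ, Odd b' ∧
      Rel σ (w.ev (th (2 ^ (k + 2)) b)) (w'.ev (th (2 ^ (k + 2)) b')) ∧
      Rel σ (w.ev (th (2 ^ (k + 2)) (b + 2 ^ (k + 1))))
        (w'.ev (th (2 ^ (k + 2)) (b' + 2 ^ (k + 1)))) := by
  induction k with
  | zero =>
    intro b hb
    refine ⟨b, hb, ?_, ?_⟩
    · rw [zero_add, th_base hb, th_base hb]; exact h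
    · rw [zero_add, th_base (odd_add_pow hb 0), th_base (odd_add_pow hb 0)]; exact h
  | succ k ih =>
    intro b hb
    obtain ⟨b1, hb1, h1, h2⟩ := ih b hb
    have hbk := odd_add_pow hb (k + 1)
    have hb1k := odd_add_pow hb1 (k + 1)
    have e1 : Rel σ (w.ev (th (2 ^ (k + 3)) b) + w.ev (th (2 ^ (k + 3)) (b + 2 ^ (k + 2))))
        (w'.ev (th (2 ^ (k + 3)) b1) + w'.ev (th (2 ^ (k + 3)) (b1 + 2 ^ (k + 2)))) := by
      rw [th_split, th_split]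
      exact h1
    have e2 : Rel σ (w.ev (th (2 ^ (k + 3)) b) * w.ev (th (2 ^ (k + 3)) (b + 2 ^ (k + 2))))
        (w'.ev (th (2 ^ (k + 3)) b1) * w'.ev (th (2 ^ (k + 3)) (b1 + 2 ^ (k + 2)))) := by
      rw [th_prod, th_prod]
      exact (h.pow _).mul (h2.pow 2)
    rcases rel_quad (th_alg h.left (k + 1) b hb) (th_alg h.left (k + 1) _ hbk)
      (th_alg h.right (k + 1) b1 hb1) (th_alg h.right (k + 1) _ hb1k) e1 e2 with h3 | h3
    · exact ⟨b1, hb1, h3.1, h3.2⟩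
    · refine ⟨b1 + 2 ^ (k + 2), hb1k, h3.1, ?_⟩
      have h4 := h3.2
      rw [← th_per w' (k + 2) b1] at h4
      exact h4

/-- the theta functions are homogeneous -/
theorem th_hom (w : Vx) (K : ℕ) (b : ℤ) :
    Hom (2 ^ K) ((w.a : ZMod (2 ^ K)) * (b : ZMod (2 ^ K)) ^ 2) (w.ev (th (2 ^ (K + 2)) b)) := by
  apply hom_sub
  intro n hn
  unfold ik at hn
  rw [PowerSeries.coeff_map] at hn
  have h1 : PowerSeries.coeff n (th (2 ^ (K + 2)) b) ≠ 0 := by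
    intro h
    rw [h, map_zero] at hn
    exact hn rfl
  have h2 := D1.supp (K + 2) b n (by omega) h1
  have h3 : ((2 ^ K : ℕ) : ℤ) ∣ (n : ℤ) - b ^ 2 := by
    refine dvd_trans ?_ h2
    push_cast
    exact pow_dvd_pow 2 (by omega)
  have h4 : (((n : ℤ) - b ^ 2 : ℤ) : ZMod (2 ^ K)) = 0 :=
    (ZMod.intCast_zmod_eq_zero_iff_dvd _ _).2 h3
  push_cast at h4
  push_cast
  rw [sub_eq_zero.1 h4]

/-- the homogeneous parts of `V` as sums of theta functions -/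
theorem pj_V (w : Vx) (K : ℕ) (c : ZMod (2 ^ K)) :
    pj (2 ^ K) c w.V = ∑ j ∈ (Finset.range (2 ^ K)).filter (fun j : ℕ =>
      (w.a : ZMod (2 ^ K)) * ((1 + 4 * (j : ℤ) : ℤ) : ZMod (2 ^ K)) ^ 2 = c),
        w.ev (th (2 ^ (K + 2)) (1 + 4 * (j : ℤ))) := by
  have h1 : w.V = ∑ j ∈ Finset.range (2 ^ K), w.ev (th (2 ^ (K + 2)) (1 + 4 * (j : ℤ))) := by
    unfold Vx.V
    rw [← Vx.ev_sum]
    exact congrArg w.ev (Pool.Agent.TH693.QQ.QD.Db_sum D1.qd1 K)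
  rw [h1, map_sum, Finset.sum_filter]
  refine Finset.sum_congr rfl fun j _ => ?_
  have h2 := th_hom w K (1 + 4 * (j : ℤ))
  split_ifs with h3
  · rw [← h3]
    exact pj_of_hom h2
  · exact pj_of_hom_ne h2 h3

theorem odd_four (j : ℕ) : Odd (1 + 4 * (j : ℤ)) := ⟨2 * j, by ring⟩

/-- the homogeneous parts are algebraic -/
theorem pj_alg {w0 w : Vx} (h : IsAlgebraic (KB w0) w.V) (K : ℕ) (c : ZMod (2 ^ K)) :
    IsAlgebraic (KB w0) (pj (2 ^ K) c w.V) := by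
  rw [pj_V]
  exact alg_sum _ _ fun j _ => th_alg h K _ (odd_four j)

/-- the conjugate of a twist which fixes the series in `t ^ a` fixes the homogeneous parts -/
theorem conj_fix {w : Vx} {ξ : kkˣ} (hξ : (ξ : kk) ^ w.a = 1) {σ ρ : GB w}
    (hρ : ∀ x : LL, IsAlgebraic (KB w) x → Rel ρ x (tw ξ x)) (K : ℕ) (c : ZMod (2 ^ K)) :
    Rel (σ * ρ * σ⁻¹) (pj (2 ^ K) c w.V) (pj (2 ^ K) c w.V) := by
  rw [pj_V]
  refine Rel.sum _ _ _ fun j _ => ?_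
  obtain ⟨b', -, h1, -⟩ := th_rel (relV σ⁻¹) K _ (odd_four j)
  have h2 := hρ _ h1.right
  rw [tw_ev, twV_of_one hξ] at h2
  have h3 := h1.symm
  rw [inv_inv] at h3
  have h4 := (h1.comp h2).comp h3
  rwa [← mul_assoc] at h4

end Pool.Agent.Q41.RA
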