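import Pool.Agent.Q41.RA.Sub
import Pool.Agent.Q41.RA.Gal
import Pool.Agent.Y627.PT.Hk

set_option autoImplicit false

/-!
# Vertices, their series and the power sums over the neighbours
-/

namespace Pool.Agent.Q41.RA

open Pool.Agent.TH693.PP Pool.Agent.TH693.QQ Pool.Agent.H397R2.PP Pool.Agent.Y627.PT

/-- the field of Laurent series -/
abbrev LL : Type := HahnSeries ℤ kk

/-- a vertex: the substitution `X → z t ^ a` -/
@[ext] structure Vx where
  /-- the coefficient -/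
  z : kk
  /-- the exponent -/
  a : ℕ
  hz : z ≠ 0
  ha : a ≠ 0

/-- the series of `f` at the vertex `w` -/
noncomputable def Vx.ev (w : Vx) (f : S) : LL := sub w.z w.a w.ha (ik f)

/-- the value of `D` -/
noncomputable def Vx.V (w : Vx) : LL := w.ev Db

theorem Vx.ev_add (w : Vx) (f g : S) : w.ev (f + g) = w.ev f + w.ev g := by
  unfold Vx.ev; rw [map_add, map_add]

theorem Vx.ev_mul (w : Vx) (f g : S) : w.ev (f * g) = w.ev f * w.ev g := by
  unfold Vx.ev; rw [map_mul, map_mul]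

theorem Vx.ev_pow (w : Vx) (f : S) (n : ℕ) : w.ev (f ^ n) = w.ev f ^ n := by
  unfold Vx.ev; rw [map_pow, map_pow]

theorem Vx.ev_sum (w : Vx) {ι : Type} (s : Finset ι) (f : ι → S) :
    w.ev (∑ i ∈ s, f i) = ∑ i ∈ s, w.ev (f i) := by
  unfold Vx.ev; rw [map_sum, map_sum]

theorem Vx.ev_X (w : Vx) : w.ev PowerSeries.X = HahnSeries.single (w.a : ℤ) w.z := by
  unfold Vx.ev ik
  rw [PowerSeries.map_X, sub_X]

/-- the evaluation as a homomorphism -/
noncomputable def Vx.evh (w : Vx) : S →+* LL := (sub w.z w.a w.ha).comp ik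

theorem Vx.evh_apply (w : Vx) (f : S) : w.evh f = w.ev f := rfl

theorem coeff_zero_E : PowerSeries.coeff 0 E = 1 := by
  rw [PowerSeries.coeff_zero_eq_constantCoeff_apply, constE]

theorem sub_congr {z z' : kk} {a a' : ℕ} (hz : z = z') (ha : a = a') (h : a ≠ 0) (h' : a' ≠ 0)
    (f : PowerSeries kk) : sub z a h f = sub z' a' h' f := by
  subst hz
  subst ha
  rfl

/-- leading term of the value of a series with constant coefficient one -/
theorem Vx.LT_ev_one (w : Vx) (f : S) (hf : PowerSeries.coeff 0 f = 1) : LT 0 1 (w.ev f) := by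
  apply LT_sub_one
  unfold ik
  rw [PowerSeries.coeff_map, hf, map_one]

theorem Db_eq : Db = PowerSeries.X * E ^ 24 := rfl

theorem Vx.LT_V (w : Vx) : LT (w.a : ℤ) w.z w.V := by
  unfold Vx.V
  rw [Db_eq, Vx.ev_mul, Vx.ev_pow, Vx.ev_X]
  have h := (LT_single w.z (w.a : ℤ)).mul ((w.LT_ev_one E coeff_zero_E).pow 24)
  simpa using h

theorem Vx.V_ne (w : Vx) : w.V ≠ 0 := w.LT_V.ne_zero w.hz

theorem V_inj {w w' : Vx} (h : w.V = w'.V) : w = w' := by
  have h1 := w.LT_V
  rw [h] at h1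
  obtain ⟨h2, h3⟩ := h1.unique w.hz w'.LT_V w'.hz
  exact Vx.ext h3 (by exact_mod_cast h2)

/-- the upper neighbour -/
noncomputable def up (q : ℕ) (hq : q ≠ 0) (w : Vx) : Vx :=
  ⟨w.z ^ q, q * w.a, pow_ne_zero _ w.hz, mul_ne_zero hq w.ha⟩

/-- neighbours -/
def Nb (q : ℕ) (w s : Vx) : Prop :=
  (s.z = w.z ^ q ∧ s.a = q * w.a) ∨ (w.z = s.z ^ q ∧ w.a = q * s.a)

theorem Nb.symm {q : ℕ} {w s : Vx} (h : Nb q w s) : Nb q s w := by
  rcases h with h | h
  · exact Or.inr h
  · exact Or.inl h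

theorem nb_up (q : ℕ) (hq : q ≠ 0) (w : Vx) : Nb q w (up q hq w) := Or.inl ⟨rfl, rfl⟩

open Classical in
/-- the values at the neighbours -/
noncomputable def nbV (q : ℕ) (w : Vx) : Finset LL :=
  if h : q ≠ 0 ∧ w.a / q ≠ 0 then
    insert (up q h.1 w).V ((Polynomial.nthRoots q w.z).toFinset.attach.image (fun y =>
      Vx.V ⟨y.1, w.a / q, (by
        rintro h1
        have h2 := y.2
        rw [Multiset.mem_toFinset, Polynomial.mem_nthRoots (Nat.pos_of_ne_zero h.1), h1,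
          zero_pow h.1] at h2
        exact w.hz h2.symm), h.2⟩)) else ∅

theorem mem_nbV {q : ℕ} (hq : q ≠ 0) {w : Vx} (hd : q ∣ w.a) (x : LL) :
    x ∈ nbV q w ↔ ∃ s : Vx, Nb q w s ∧ s.V = x := by
  classical
  have hq' : 0 < q := Nat.pos_of_ne_zero hq
  obtain ⟨b, hb⟩ := hd
  have hb0 : b ≠ 0 := by
    rintro rfl
    exact w.ha (by rw [hb, mul_zero])
  have hdiv : w.a / q = b := by rw [hb, Nat.mul_div_cancel_left b hq']
  unfold nbV
  rw [dif_pos ⟨hq, by rwa [hdiv]⟩, Finset.mem_insert, Finset.mem_image]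
  constructor
  · rintro (h | ⟨y, -, h⟩)
    · exact ⟨_, nb_up q hq w, h.symm⟩
    · refine ⟨_, Or.inr ⟨?_, ?_⟩, h⟩
      · have h2 := y.2
        rw [Multiset.mem_toFinset, Polynomial.mem_nthRoots hq'] at h2
        exact h2.symm
      · change w.a = q * (w.a / q)
        rw [hdiv, hb]
  · rintro ⟨s, (⟨h1, h2⟩ | ⟨h1, h2⟩), rfl⟩
    · left
      congr 1
      exact Vx.ext h1 h2
    · right
      refine ⟨⟨s.z, ?_⟩, Finset.mem_attach _ _, ?_⟩
      · rw [Multiset.mem_toFinset, Polynomial.mem_nthRoots hq']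
        exact h1.symm
      · congr 1
        refine Vx.ext rfl ?_
        change w.a / q = s.a
        rw [h2, Nat.mul_div_cancel_left _ hq']

theorem tp_pol {q : ℕ} (hq : q.Prime) (hq2 : q ≠ 2) (k : ℕ) (hk : 1 ≤ k) :
    ∃ P : Polynomial (ZMod 2), P.natDegree ≤ k ∧ Tp q (Db ^ k) = Polynomial.aeval Db P := by
  have hodd : q % 2 = 1 := Nat.odd_iff.1 (hq.odd_of_ne_two hq2)
  have h := Pool.Agent.H307R2.OP.MS.mem0 q k hq hodd hk
  rw [Submodule.mem_span_range_iff_exists_fun] at h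
  obtain ⟨c, hc⟩ := h
  refine ⟨∑ j : Fin (k + 1), Polynomial.monomial (j : ℕ) (c j), ?_, ?_⟩
  · refine Polynomial.natDegree_sum_le_of_forall_le _ _ (fun j _ => ?_)
    exact (Polynomial.natDegree_monomial_le _).trans (by omega)
  · rw [map_sum, ← hc]
    refine Finset.sum_congr rfl fun j _ => ?_
    rw [Polynomial.aeval_monomial, ← Algebra.smul_def]

theorem Vx.ev_aeval (w : Vx) (P : Polynomial (ZMod 2)) :
    w.ev (Polynomial.aeval Db P) = (P.map (algebraMap (ZMod 2) kk)).eval₂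
      (HahnSeries.C : kk →+* LL) w.V := by
  rw [← Vx.evh_apply, Polynomial.aeval_def, Polynomial.hom_eval₂, Polynomial.eval₂_map]
  congr 1
  exact Subsingleton.elim _ _

/-- the power sums over the neighbours -/
theorem psum {q : ℕ} (hq : q.Prime) (hq2 : q ≠ 2) (k : ℕ) (hk : 1 ≤ k) :
    ∃ P : Polynomial kk, P.natDegree ≤ k ∧ ∀ w : Vx, q ∣ w.a →
      ∑ x ∈ nbV q w, x ^ k = P.eval₂ (HahnSeries.C : kk →+* LL) w.V := by
  classical
  obtain ⟨P, h1, h2⟩ := tp_pol hq hq2 k hk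
  refine ⟨P.map (algebraMap (ZMod 2) kk), (Polynomial.natDegree_map_le).trans h1, ?_⟩
  intro w hd
  have hq0 := hq.ne_zero
  have hq' : 0 < q := hq.pos
  have hqn : NeZero q := ⟨hq0⟩
  have hodd : Odd q := hq.odd_of_ne_two hq2
  have hne : NeZero ((q : ℕ) : ZMod 2) := ⟨by
    rw [Ne, ZMod.natCast_eq_zero_iff]
    exact fun h => (Nat.not_even_iff_odd.2 hodd) (even_iff_two_dvd.2 h)⟩
  obtain ⟨z, hz⟩ := HasEnoughRootsOfUnity.exists_primitiveRoot kk q
  have hzi : ∀ i, (z ^ i) ^ q = 1 := fun i => by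
    rw [← pow_mul, mul_comm, pow_mul, hz.pow_eq_one, one_pow]
  obtain ⟨b, hb⟩ := hd
  have hb0 : b ≠ 0 := by
    rintro rfl
    exact w.ha (by rw [hb, mul_zero])
  obtain ⟨y, hy⟩ := IsAlgClosed.exists_pow_nat_eq w.z hq'
  have hy0 : y ≠ 0 := by
    rintro rfl
    rw [zero_pow hq0] at hy
    exact w.hz hy.symm
  have hz0 : z ≠ 0 := hz.ne_zero hq0
  rw [← Vx.ev_aeval, ← h2]
  let v : ℕ → Vx := fun i => ⟨y * z ^ i, b, mul_ne_zero hy0 (pow_ne_zero _ hz0), hb0⟩
  have hv : ∀ i, Nb q w (v i) := fun i => Or.inr ⟨by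
    change w.z = (y * z ^ i) ^ q
    rw [mul_pow, hzi, mul_one, hy], hb⟩
  have hset : nbV q w = insert (up q hq0 w).V ((Finset.range q).image fun i => (v i).V) := by
    ext x
    rw [mem_nbV hq0 ⟨b, hb⟩, Finset.mem_insert, Finset.mem_image]
    constructor
    · rintro ⟨s, (⟨h3, h4⟩ | ⟨h3, h4⟩), rfl⟩
      · left
        congr 1
        exact Vx.ext h3 h4
      · right
        have h5 : (s.z / y) ^ q = 1 := by
          rw [div_pow, hy, ← h3, div_self w.hz]
        obtain ⟨i, hi, h6⟩ := hz.eq_pow_of_pow_eq_one h5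
        refine ⟨i, Finset.mem_range.2 hi, ?_⟩
        congr 1
        refine Vx.ext ?_ ?_
        · change y * z ^ i = s.z
          rw [h6]
          field_simp
        · change b = s.a
          rw [hb] at h4
          exact Nat.eq_of_mul_eq_mul_left hq' h4
    · rintro (rfl | ⟨i, -, rfl⟩)
      · exact ⟨_, nb_up q hq0 w, rfl⟩
      · exact ⟨v i, hv i, rfl⟩
  rw [hset, Finset.sum_insert, Finset.sum_image]
  · have h3 := hecke_sum hq0 hodd hz (Db ^ k)
    have h4 := congrArg (sub y b hb0) h3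
    have e1 : sub y b hb0 (ik (ex q hq0 (Tp q (Db ^ k)))) = w.ev (Tp q (Db ^ k)) := by
      unfold Vx.ev ik ex
      rw [PowerSeries.map_expand, sub_expand y b q hb0 hq0 (mul_ne_zero hq0 hb0)]
      exact sub_congr hy hb.symm _ _ _
    rw [e1] at h4
    rw [h4, map_add, map_sum, add_comm]
    refine congrArg₂ (fun x y => x + y) ?_ ?_
    · refine Finset.sum_congr rfl fun i _ => ?_
      rw [sub_rescale, map_pow, map_pow]
      rfl
    · unfold ik ex
      rw [PowerSeries.map_expand, PowerSeries.map_expand,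
        sub_expand y b q hb0 hq0 (mul_ne_zero hq0 hb0),
        sub_expand (y ^ q) (q * b) q (mul_ne_zero hq0 hb0) hq0
          (mul_ne_zero hq0 (mul_ne_zero hq0 hb0)), map_pow, map_pow]
      refine congrArg (fun x => x ^ k) ?_
      have e3 : (y ^ q) ^ q = w.z ^ q := by rw [hy]
      have e4 : q * (q * b) = q * w.a := by rw [hb]
      exact (sub_congr e3 e4 _ _ _).symm
  · intro i hi j hj hij
    have h3 := V_inj hij
    have h4 : y * z ^ i = y * z ^ j := congrArg Vx.z h3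
    exact hz.pow_inj (Finset.mem_range.1 hi) (Finset.mem_range.1 hj) (mul_left_cancel₀ hy0 h4)
  · intro h3
    rw [Finset.mem_image] at h3
    obtain ⟨i, -, h4⟩ := h3
    have h5 := congrArg Vx.a (V_inj h4)
    have h6 : b = q * w.a := h5
    have h7 : q * (q * b) = 1 * b := by
      rw [one_mul, ← hb]
      exact h6.symm
    have h8 : 2 ≤ q := hq.two_le
    nlinarith [Nat.pos_of_ne_zero hb0]

end Pool.Agent.Q41.RA
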